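import Pool.Agent.CY.S3b.Basic
import Pool.Agent.CY.S3.FrameD

/-!
Module CY-S3b-Leib: product rule for the gradient `f.D` and IMS localisation.

PROOF.  `D_mul` is `Frame.D_mul` (S3a).  `ims`: expand `‖η_j • D u + u • D η_j‖^2`, sum over `j`:
`∑ η_j^2 ‖Du‖^2 + 2 u ⟨Du, ∑ η_j D η_j⟩ + u^2 ∑ ‖D η_j‖^2` and `∑ 2 η_j D η_j = D (∑ η_j^2) = D 1 = 0`.
-/

set_option autoImplicit false
set_option linter.unusedSectionVars false

open scoped Manifold ContDiff
open MeasureTheory Set Filter Topology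

namespace Pool.Agent.CY.S3b

noncomputable section

variable {n : ℕ} {X : Type} [TopologicalSpace X] [ChartedSpace (EuclideanHalfSpace (n + 1)) X]
  [IsManifold (𝓡∂ (n + 1)) ∞ X]

theorem D_mul {g : Metric n X} (f : Frame g) {u v : X → ℝ} (hu : u ∈ C1 n X) (hv : v ∈ C1 n X) (p : X) :
    f.D (fun x => u x * v x) p = u p • f.D v p + v p • f.D u p :=
  congrFun (f.D_mul hu hv) p

private theorem D_sum {g : Metric n X} (f : Frame g) {ι : Type} (s : Finset ι) {w : ι → X → ℝ}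
    (hw : ∀ j, w j ∈ C1 n X) :
    (fun x => ∑ j ∈ s, w j x) ∈ C1 n X ∧ f.D (fun x => ∑ j ∈ s, w j x) = ∑ j ∈ s, f.D (w j) := by
  classical
  induction s using Finset.induction_on with
  | empty =>
    simp only [Finset.sum_empty]
    exact ⟨C1.const 0, f.D_const 0⟩
  | insert a t ha ih =>
    simp only [Finset.sum_insert ha]
    exact ⟨C1.add (hw a) ih.1, by rw [f.D_add (hw a) ih.1, ih.2]⟩

private theorem sum_smul_D {g : Metric n X} (f : Frame g) {N : ℕ} {η : Fin N → X → ℝ}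
    (hη : ∀ j, η j ∈ C1 n X) (hsum : ∀ p, ∑ j, η j p ^ 2 = 1) (p : X) :
    ∑ j, η j p • f.D (η j) p = 0 := by
  have h1 : ∀ j, (fun x => η j x * η j x) ∈ C1 n X := fun j => C1.mul (hη j) (hη j)
  have h2 := (D_sum f Finset.univ h1).2
  have h3 : (fun x => ∑ j, η j x * η j x) = fun _ => (1 : ℝ) := by
    funext x
    rw [← hsum x]
    exact Finset.sum_congr rfl fun j _ => by ring
  rw [h3, f.D_const] at h2
  have h4 := congrFun h2 p
  rw [Finset.sum_apply, Pi.zero_apply] at h4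
  have h5 : ∀ j, f.D (fun x => η j x * η j x) p = (2 : ℝ) • (η j p • f.D (η j) p) := by
    intro j
    rw [D_mul f (hη j) (hη j) p, two_smul]
  simp only [h5] at h4
  rw [← Finset.smul_sum] at h4
  exact (smul_eq_zero.1 h4.symm).resolve_left two_ne_zero

theorem ims {g : Metric n X} (f : Frame g) {N : ℕ} {η : Fin N → X → ℝ} (hη : ∀ j, η j ∈ C1 n X)
    (hsum : ∀ p, ∑ j, η j p ^ 2 = 1) {u : X → ℝ} (hu : u ∈ C1 n X) (p : X) :
    ∑ j, ‖f.D (fun x => η j x * u x) p‖ ^ 2 =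
      ‖f.D u p‖ ^ 2 + u p ^ 2 * ∑ j, ‖f.D (η j) p‖ ^ 2 := by
  have h1 : ∀ j, ‖f.D (fun x => η j x * u x) p‖ ^ 2 =
      η j p ^ 2 * ‖f.D u p‖ ^ 2 + 2 * u p * inner ℝ (f.D u p) (η j p • f.D (η j) p) +
        u p ^ 2 * ‖f.D (η j) p‖ ^ 2 := by
    intro j
    rw [D_mul f (hη j) hu p, norm_add_sq_real, norm_smul, norm_smul, mul_pow, mul_pow,
      Real.norm_eq_abs, Real.norm_eq_abs, sq_abs, sq_abs, real_inner_smul_left, real_inner_smul_right,
      real_inner_smul_right]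
    ring
  simp only [h1, Finset.sum_add_distrib]
  rw [← Finset.sum_mul, hsum p, one_mul, ← Finset.mul_sum, ← inner_sum, sum_smul_D f hη hsum p,
    inner_zero_right, mul_zero, add_zero, ← Finset.mul_sum]

end

end Pool.Agent.CY.S3b
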