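import Mathlib

/-!
Module CY-S3b-Mink: localisation of `L^p` norms, `p ≥ 2` (pure measure theory).

PROOF.  `p = 2r`, `r ≥ 1`.  `|u|^p = (u^2)^r = (∑_j (η_j u)^2)^r` and Minkowski's inequality in `L^r` for the
nonnegative functions `(η_j u)^2`: `(∫ (∑ F_j)^r)^(1/r) ≤ ∑ (∫ F_j^r)^(1/r)`; `1/r = 2/p` and
`F_j^r = |η_j u|^p`.  Minkowski: `eLpNorm_sum_le` / `ENNReal.lintegral_Lp_add_le` and induction over `Fin N`,
or `Lp.norm`; all functions are bounded and measurable on a finite measure space (`|η_j| ≤ 1`), so all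
integrals are finite.
-/

set_option autoImplicit false
set_option linter.unusedSectionVars false

open MeasureTheory Set Filter Topology

namespace Pool.Agent.CY.S3b

private theorem mink_pow {r a : ℝ} : ‖a ^ 2‖ ^ r = |a| ^ (2 * r) := by
  rw [Real.norm_eq_abs, abs_pow, Real.rpow_mul (abs_nonneg a)]
  norm_num

private theorem mink_memLp {X : Type} [MeasurableSpace X] (μ : Measure X) [IsFiniteMeasure μ] (R : ENNReal)
    {f : X → ℝ} (hf : Measurable f) {C : ℝ} (hb : ∀ x, |f x| ≤ C) : MemLp f R μ :=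
  MemLp.of_bound hf.aestronglyMeasurable C (Eventually.of_forall fun x => by
    simpa [Real.norm_eq_abs] using hb x)

theorem mink {X : Type} [MeasurableSpace X] (μ : Measure X) (hμ : μ univ < ⊤) {p : ℝ} (hp : 2 ≤ p)
    {N : ℕ} {η : Fin N → X → ℝ} (hη : ∀ x, ∑ j, η j x ^ 2 = 1) (hm : ∀ j, Measurable (η j))
    {u : X → ℝ} (hu : Measurable u) {C : ℝ} (hb : ∀ x, |u x| ≤ C) :
    (∫ x, |u x| ^ p ∂μ) ^ (2 / p) ≤ ∑ j, (∫ x, |η j x * u x| ^ p ∂μ) ^ (2 / p) := by
  have : IsFiniteMeasure μ := ⟨hμ⟩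
  set r : ℝ := p / 2 with hr
  have hr1 : 1 ≤ r := by rw [hr]; linarith
  have hr0 : 0 < r := by linarith
  have hpr : p = 2 * r := by rw [hr]; ring
  have h2p : 2 / p = r⁻¹ := by rw [hpr]; field_simp
  set R : ENNReal := ENNReal.ofReal r with hR
  have hR1 : 1 ≤ R := by rw [hR, ← ENNReal.ofReal_one]; exact ENNReal.ofReal_le_ofReal hr1
  have hR0 : R ≠ 0 := (lt_of_lt_of_le zero_lt_one hR1).ne'
  have hRt : R ≠ ⊤ := ENNReal.ofReal_ne_top
  have hRr : R.toReal = r := ENNReal.toReal_ofReal hr0.le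
  have hC : ∀ x, 0 ≤ C := fun x => le_trans (abs_nonneg _) (hb x)
  have heta : ∀ j x, |η j x| ≤ 1 := by
    intro j x
    have h1 : η j x ^ 2 ≤ 1 := by
      rw [← hη x]
      exact Finset.single_le_sum (f := fun j => η j x ^ 2) (fun i _ => sq_nonneg _) (Finset.mem_univ j)
    have h2 : |η j x| ^ 2 ≤ 1 := by rw [sq_abs]; exact h1
    nlinarith [abs_nonneg (η j x)]
  have hum : MemLp (fun x => u x ^ 2) R μ := by
    refine mink_memLp μ R (hu.pow_const 2) (C := C ^ 2) fun x => ?_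
    rw [abs_pow]
    exact pow_le_pow_left₀ (abs_nonneg _) (hb x) 2
  have hFm : ∀ j, MemLp (fun x => (η j x * u x) ^ 2) R μ := by
    intro j
    refine mink_memLp μ R (((hm j).mul hu).pow_const 2) (C := C ^ 2) fun x => ?_
    rw [abs_pow]
    refine pow_le_pow_left₀ (abs_nonneg _) ?_ 2
    rw [abs_mul]
    calc |η j x| * |u x| ≤ 1 * C := mul_le_mul (heta j x) (hb x) (abs_nonneg _) zero_le_one
      _ = C := one_mul C
  have hsum : (fun x => u x ^ 2) = ∑ j, fun x => (η j x * u x) ^ 2 := by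
    funext x
    rw [Finset.sum_apply]
    simp only [mul_pow]
    rw [← Finset.sum_mul, hη x, one_mul]
  have hmain : eLpNorm (fun x => u x ^ 2) R μ ≤ ∑ j, eLpNorm (fun x => (η j x * u x) ^ 2) R μ := by
    rw [hsum]
    exact eLpNorm_sum_le (fun j _ => (hFm j).aestronglyMeasurable) hR1
  rw [hum.eLpNorm_eq_integral_rpow_norm hR0 hRt, hRr] at hmain
  have h3 : ∀ j, eLpNorm (fun x => (η j x * u x) ^ 2) R μ
      = ENNReal.ofReal ((∫ x, |η j x * u x| ^ p ∂μ) ^ (2 / p)) := by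
    intro j
    rw [(hFm j).eLpNorm_eq_integral_rpow_norm hR0 hRt, hRr, h2p]
    simp only [mink_pow (r := r), ← hpr]
  simp only [h3, mink_pow (r := r), ← hpr, ← h2p] at hmain
  rw [← ENNReal.ofReal_sum_of_nonneg (fun j _ => Real.rpow_nonneg (integral_nonneg fun x =>
    Real.rpow_nonneg (abs_nonneg _) _) _)] at hmain
  exact (ENNReal.ofReal_le_ofReal_iff (Finset.sum_nonneg fun j _ => Real.rpow_nonneg
    (integral_nonneg fun x => Real.rpow_nonneg (abs_nonneg _) _) _)).1 hmain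

end Pool.Agent.CY.S3b
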