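import Pool.Agent.CY.S3b.Basic
import Pool.Agent.CY.S3.ExFrame

/-!
Module CY-S3b-Pou: quadratic smooth partition of unity on `X`, and smooth cutoff functions.

PROOF.  By compactness choose finitely many points `q j` with `⋃ U (q j) = univ`
(`CompactSpace.elim_nhds_subcover`), index them by `Fin N`; `exists_qpu` (S3a).
`exists_cutoff`: `SmoothBumpFunction` at `p`, equal to `1` near `p`.
-/

set_option autoImplicit false
set_option linter.unusedSectionVars false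

open scoped Manifold ContDiff
open MeasureTheory Set Filter Topology

namespace Pool.Agent.CY.S3b

noncomputable section

variable {n : ℕ} {X : Type} [TopologicalSpace X] [ChartedSpace (EuclideanHalfSpace (n + 1)) X]
  [IsManifold (𝓡∂ (n + 1)) ∞ X] [CompactSpace X] [T2Space X]

theorem exists_pou (U : X → Set X) (hU : ∀ p, IsOpen (U p) ∧ p ∈ U p) :
    ∃ (N : ℕ) (q : Fin N → X) (η : Fin N → X → ℝ),
      (∀ j, ContMDiff (𝓡∂ (n + 1)) 𝓘(ℝ) ∞ (η j)) ∧ (∀ j p, 0 ≤ η j p) ∧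
      (∀ j, tsupport (η j) ⊆ U (q j)) ∧ ∀ p, ∑ j, η j p ^ 2 = 1 := by
  obtain ⟨t, ht⟩ := CompactSpace.elim_nhds_subcover U (fun p => (hU p).1.mem_nhds (hU p).2)
  have hc : ⋃ i : Fin t.card, U ((t.equivFin.symm i : t) : X) = univ := by
    rw [eq_univ_iff_forall]
    intro p
    have h1 : p ∈ ⋃ x ∈ t, U x := by
      have h2 : p ∈ (⊤ : Set X) := trivial
      rwa [← ht] at h2
    obtain ⟨q, hq, hpq⟩ := mem_iUnion₂.1 h1
    refine mem_iUnion.2 ⟨t.equivFin ⟨q, hq⟩, ?_⟩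
    rw [Equiv.symm_apply_apply]
    exact hpq
  obtain ⟨η, h1, h2, h3, h4⟩ := exists_qpu (n := n) t.card
    (fun i => U ((t.equivFin.symm i : t) : X)) (fun i => (hU _).1) hc
  exact ⟨t.card, fun i => ((t.equivFin.symm i : t) : X), η, h1, h2, h3, h4⟩

theorem exists_cutoff {U : Set X} (hU : IsOpen U) {p : X} (hp : p ∈ U) :
    ∃ (χ : X → ℝ) (W : Set X), ContMDiff (𝓡∂ (n + 1)) 𝓘(ℝ) ∞ χ ∧ tsupport χ ⊆ U ∧ IsOpen W ∧ p ∈ W ∧
      W ⊆ U ∧ ∀ q ∈ W, χ q = 1 := by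
  obtain ⟨f, -, hf⟩ := (SmoothBumpFunction.nhds_basis_tsupport (I := 𝓡∂ (n + 1)) p).mem_iff.1
    (hU.mem_nhds hp)
  have h1 : ∀ᶠ q in 𝓝 p, f q = 1 := f.eventuallyEq_one
  obtain ⟨W, hW, hWo, hpW⟩ := eventually_nhds_iff.1 h1
  refine ⟨f, W ∩ U, f.contMDiff, hf, hWo.inter hU, ⟨hpW, hp⟩, inter_subset_right, ?_⟩
  intro q hq
  exact hW q hq.1

end

end Pool.Agent.CY.S3b
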