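import Pool.Agent.CY.S3b.LocAI
import Pool.Agent.CY.S3b.Leib
import Pool.Agent.CY.S3b.Mink
import Pool.Agent.CY.S3b.Pou
import Pool.Agent.CY.S3.Fin

/-!
Module CY-S3b-AI: the asymptotic sharp inequalities on `X`.

PROOF.  Fix `t`, `ε`; `U p` from `loc_ai`; `η j`, `q j` from `exists_pou`.  For `u ∈ C1`: `u` is bounded
(continuous on compact `X`), `mink` with `pp n ≥ 2`, `qq n ≥ 2` (`hn`) gives
`PP u ≤ ∑ PP (η_j u)`, `QQ u ≤ ∑ QQ (η_j u)`; `tsupport (η_j u) ⊆ tsupport (η_j) ⊆ U (q j)`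
(`tsupport_mul_subset_left`), so by `loc_ai`
`amod PP u + bmod QQ u ≤ (1+ε) cn ∑_j DD (D (η_j u)) = (1+ε) cn (DD (D u) + ∫ u^2 ∑ ‖D η_j‖^2)` by `ims`
(integrate; all functions are continuous on compact `X`, finite measure) and
`∑ ‖D η_j‖^2 ≤ C0` (continuous on compact).  `C = (1+ε) cn C0`.
-/

set_option autoImplicit false
set_option linter.unusedSectionVars false

open scoped Manifold ContDiff
open MeasureTheory Set Filter Topology

namespace Pool.Agent.CY.S3b

noncomputable section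

variable {n : ℕ} {X : Type} [TopologicalSpace X] [ChartedSpace (EuclideanHalfSpace (n + 1)) X]
  [IsManifold (𝓡∂ (n + 1)) ∞ X] [CompactSpace X] [T2Space X] [MeasurableSpace X] [BorelSpace X]

private theorem pp_ge (hn : 2 ≤ n) : 2 ≤ pp n := by
  have h1 : (2 : ℝ) ≤ n := by exact_mod_cast hn
  rw [pp, le_div_iff₀ (by linarith)]
  linarith

private theorem qq_ge (hn : 2 ≤ n) : 2 ≤ qq n := by
  have h1 : (2 : ℝ) ≤ n := by exact_mod_cast hn
  rw [qq, le_div_iff₀ (by linarith)]
  linarith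

private theorem cn_nonneg' (hn : 2 ≤ n) : 0 ≤ cn n := by
  have h1 : (2 : ℝ) ≤ n := by exact_mod_cast hn
  rw [cn]
  exact div_nonneg (by linarith) (by linarith)

private theorem integrable_cont (g : Metric n X) {F : X → ℝ} (hF : Continuous F) :
    Integrable F (vol g) :=
  hF.integrable_of_hasCompactSupport (HasCompactSupport.of_compactSpace F)

theorem hasAI (hn : 2 ≤ n) (g : Metric n X) (f : Frame g) :
    HasAI n (vol g) (bvol g) (C1 n X) f.D := by
  intro t ht ε hε
  choose U hUo hUp hU using fun p => loc_ai hn g f ht hε p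
  obtain ⟨N, q, η, hη, hη0, hηs, hsum⟩ := exists_pou (n := n) U (fun p => ⟨hUo p, hUp p⟩)
  have hη1 : ∀ j, η j ∈ C1 n X := fun j => C1.of_smooth (hη j)
  have hηc : ∀ j, Continuous (η j) := fun j => (hη j).continuous
  have hS : Continuous fun p => ∑ j, ‖f.D (η j) p‖ ^ 2 :=
    continuous_finsetSum _ fun j _ => (f.continuous_D (hη1 j)).norm.pow 2
  obtain ⟨C0, hC0⟩ : ∃ C0 : ℝ, ∀ p, ∑ j, ‖f.D (η j) p‖ ^ 2 ≤ C0 := by
    obtain ⟨C0, hC0⟩ := (isCompact_univ (X := X)).exists_bound_of_continuousOn hS.continuousOn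
    exact ⟨C0, fun p => (le_abs_self _).trans (hC0 p (mem_univ p))⟩
  refine ⟨(1 + ε) * (cn n * C0), fun u hu => ?_⟩
  have huc : Continuous u := C1.continuous hu
  obtain ⟨B, hB⟩ : ∃ B : ℝ, ∀ p, |u p| ≤ B := by
    obtain ⟨B, hB⟩ := (isCompact_univ (X := X)).exists_bound_of_continuousOn huc.continuousOn
    exact ⟨B, fun p => hB p (mem_univ p)⟩
  have hw : ∀ j, (fun x => η j x * u x) ∈ C1 n X := fun j => C1.mul (hη1 j) hu
  have hloc : ∀ j, amod n t * PP n (vol g) (fun x => η j x * u x) +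
      bmod n t * QQ n (bvol g) (fun x => η j x * u x) ≤
      (1 + ε) * (cn n * DD (vol g) (f.D fun x => η j x * u x)) := by
    intro j
    refine hU (q j) _ (hw j) ?_
    exact (tsupport_mul_subset_left (f := η j)).trans (hηs j)
  have hPP : PP n (vol g) u ≤ ∑ j, PP n (vol g) (fun x => η j x * u x) :=
    mink (vol g) (Pool.Agent.CY.vol_lt_top g) (pp_ge hn) hsum (fun j => (hηc j).measurable)
      huc.measurable hB
  have hQQ : QQ n (bvol g) u ≤ ∑ j, QQ n (bvol g) (fun x => η j x * u x) :=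
    mink (bvol g) (Pool.Agent.CY.bvol_lt_top g) (qq_ge hn) hsum (fun j => (hηc j).measurable)
      huc.measurable hB
  have ha := amod_nonneg n ht
  have hb := bmod_nonneg n ht
  have hDD : ∑ j, DD (vol g) (f.D fun x => η j x * u x) ≤
      DD (vol g) (f.D u) + C0 * ∫ x, u x ^ 2 ∂(vol g) := by
    have h1 : ∑ j, DD (vol g) (f.D fun x => η j x * u x) =
        ∫ x, (‖f.D u x‖ ^ 2 + u x ^ 2 * ∑ j, ‖f.D (η j) x‖ ^ 2) ∂(vol g) := by
      simp only [DD]
      have h0 : ∀ j ∈ (Finset.univ : Finset (Fin N)),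
          Integrable (fun x => ‖f.D (fun y => η j y * u y) x‖ ^ 2) (vol g) := fun j _ =>
        integrable_cont g ((f.continuous_D (hw j)).norm.pow 2)
      rw [← integral_finsetSum _ h0]
      exact integral_congr_ae (Filter.Eventually.of_forall fun x => ims f hη1 hsum hu x)
    have h2 : Integrable (fun x => ‖f.D u x‖ ^ 2) (vol g) :=
      integrable_cont g ((f.continuous_D hu).norm.pow 2)
    have h3 : Integrable (fun x => u x ^ 2 * ∑ j, ‖f.D (η j) x‖ ^ 2) (vol g) :=
      integrable_cont g ((huc.pow 2).mul hS)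
    have h4 : Integrable (fun x => C0 * u x ^ 2) (vol g) :=
      integrable_cont g (continuous_const.mul (huc.pow 2))
    rw [h1, integral_add h2 h3, DD, ← integral_const_mul]
    refine add_le_add le_rfl (integral_mono h3 h4 fun x => ?_)
    simp only
    rw [mul_comm]
    exact mul_le_mul_of_nonneg_right (hC0 x) (sq_nonneg _)
  have hcn := cn_nonneg' hn
  calc amod n t * PP n (vol g) u + bmod n t * QQ n (bvol g) u
      ≤ amod n t * ∑ j, PP n (vol g) (fun x => η j x * u x) +
        bmod n t * ∑ j, QQ n (bvol g) (fun x => η j x * u x) :=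
        add_le_add (mul_le_mul_of_nonneg_left hPP ha) (mul_le_mul_of_nonneg_left hQQ hb)
    _ = ∑ j, (amod n t * PP n (vol g) (fun x => η j x * u x) +
        bmod n t * QQ n (bvol g) (fun x => η j x * u x)) := by
        rw [Finset.sum_add_distrib, Finset.mul_sum, Finset.mul_sum]
    _ ≤ ∑ j, (1 + ε) * (cn n * DD (vol g) (f.D fun x => η j x * u x)) :=
        Finset.sum_le_sum fun j _ => hloc j
    _ = (1 + ε) * cn n * ∑ j, DD (vol g) (f.D fun x => η j x * u x) := by
        rw [Finset.mul_sum]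
        exact Finset.sum_congr rfl fun j _ => by ring
    _ ≤ (1 + ε) * cn n * (DD (vol g) (f.D u) + C0 * ∫ x, u x ^ 2 ∂(vol g)) :=
        mul_le_mul_of_nonneg_left hDD (mul_nonneg (by linarith) hcn)
    _ = (1 + ε) * (cn n * DD (vol g) (f.D u)) + (1 + ε) * (cn n * C0) * ∫ x, u x ^ 2 ∂(vol g) := by
        ring

end

end Pool.Agent.CY.S3b
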