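import Pool.Agent.CY.S3b.Iface

/-!
Module CY-S3b-Basic: elementary facts on `C^1` functions with compact support on the closed half space
(class `CC`), integrability, Fubini for the half space, `C1 n X` is an algebra.
-/

set_option autoImplicit false
set_option linter.unusedSectionVars false

open scoped Manifold ContDiff
open MeasureTheory Set Filter Topology

namespace Pool.Agent.CY.S3b

noncomputable section

variable {n : ℕ}

theorem CC.contv {v : V (n + 1) → ℝ} (h : CC n v) : ContinuousOn v (Hs n) := h.smooth.continuousOn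

theorem CC.contg {v : V (n + 1) → ℝ} (h : CC n v) :
    ContinuousOn (fun x => fderivWithin ℝ v (Hs n) x) (Hs n) :=
  h.smooth.continuousOn_fderivWithin uniqueDiffOn_Hs le_rfl

/-- `v` and its derivative are bounded and vanish outside a ball. -/
theorem CC.bound {v : V (n + 1) → ℝ} (h : CC n v) : ∃ C R : ℝ, 0 ≤ C ∧ 0 ≤ R ∧
    (∀ x ∈ Hs n, |v x| ≤ C ∧ ‖fderivWithin ℝ v (Hs n) x‖ ≤ C) ∧
    (∀ x, R < ‖x‖ → v x = 0 ∧ fderivWithin ℝ v (Hs n) x = 0) := by
  obtain ⟨R, hR⟩ := h.supp.isCompact.isBounded.subset_closedBall 0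
  have h0 : ∀ x, max R 0 < ‖x‖ → v x = 0 ∧ fderivWithin ℝ v (Hs n) x = 0 := by
    intro x hx
    have hx' : R < ‖x‖ := lt_of_le_of_lt (le_max_left _ _) hx
    have h1 : x ∉ tsupport v := fun h2 => by
      have := hR h2
      rw [mem_closedBall_zero_iff] at this
      linarith
    have h2 : v =ᶠ[𝓝 x] fun _ => 0 := notMem_tsupport_iff_eventuallyEq.1 h1
    refine ⟨h2.eq_of_nhds, ?_⟩
    have h3 : v =ᶠ[𝓝[Hs n] x] fun _ => 0 := h2.filter_mono nhdsWithin_le_nhds
    rw [h3.fderivWithin_eq h2.eq_of_nhds]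
    simp
  have hK : IsCompact (Metric.closedBall (0 : V (n + 1)) (max R 0) ∩ Hs n) :=
    (isCompact_closedBall _ _).inter_right isClosed_Hs
  obtain ⟨C1, hC1⟩ := hK.exists_bound_of_continuousOn (h.contv.mono inter_subset_right)
  obtain ⟨C2, hC2⟩ := hK.exists_bound_of_continuousOn (h.contg.mono inter_subset_right)
  refine ⟨max (max C1 C2) 0, max R 0, le_max_right _ _, le_max_right _ _, ?_, h0⟩
  intro x hx
  by_cases hx' : max R 0 < ‖x‖
  · rw [(h0 x hx').1, (h0 x hx').2]
    simp
  · have hm : x ∈ Metric.closedBall (0 : V (n + 1)) (max R 0) ∩ Hs n :=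
      ⟨by rw [mem_closedBall_zero_iff]; exact not_lt.1 hx', hx⟩
    refine ⟨?_, ?_⟩
    · have := hC1 x hm
      rw [Real.norm_eq_abs] at this
      exact this.trans ((le_max_left _ _).trans (le_max_left _ _))
    · exact (hC2 x hm).trans ((le_max_right _ _).trans (le_max_left _ _))

theorem measurableSet_Ho : MeasurableSet (Ho n) := isOpen_Ho.measurableSet

theorem measurableSet_Hs : MeasurableSet (Hs n) := isClosed_Hs.measurableSet

/-- The same on subsets. -/
theorem integrableOn_sub {F : V (n + 1) → ℝ} (hc : ContinuousOn F (Hs n)) {R : ℝ}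
    (h0 : ∀ x ∈ Hs n, R < ‖x‖ → F x = 0) {W : Set (V (n + 1))} (hW : W ⊆ Hs n) (hm : MeasurableSet W) :
    IntegrableOn F W := by
  have hK : IsCompact (Metric.closedBall (0 : V (n + 1)) R ∩ Hs n) :=
    (isCompact_closedBall _ _).inter_right isClosed_Hs
  have h1 : IntegrableOn F (Metric.closedBall (0 : V (n + 1)) R ∩ Hs n) :=
    (hc.mono inter_subset_right).integrableOn_compact hK
  refine h1.of_forall_sdiff_eq_zero hm ?_
  intro x hx
  refine h0 x (hW hx.1) ?_
  by_contra h
  exact hx.2 ⟨by rw [mem_closedBall_zero_iff]; exact not_lt.1 h, hW hx.1⟩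

/-- A bounded function, continuous on `Hs n` and zero outside a ball, is integrable on `Ho n`. -/
theorem integrableOn_Ho {F : V (n + 1) → ℝ} (hc : ContinuousOn F (Hs n)) {R : ℝ}
    (h0 : ∀ x ∈ Hs n, R < ‖x‖ → F x = 0) : IntegrableOn F (Ho n) :=
  integrableOn_sub hc h0 Ho_subset_Hs measurableSet_Ho

theorem CC.int_rpow {v : V (n + 1) → ℝ} (h : CC n v) {p : ℝ} (hp : 0 < p) :
    IntegrableOn (fun x => |v x| ^ p) (Ho n) := by
  obtain ⟨C, R, _, _, _, h0⟩ := h.bound
  refine integrableOn_Ho (R := R) ?_ ?_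
  · exact h.contv.abs.rpow_const fun x _ => Or.inr hp.le
  · intro x _ hx
    simp only [(h0 x hx).1, abs_zero]
    exact Real.zero_rpow hp.ne'

theorem CC.int_sq {v : V (n + 1) → ℝ} (h : CC n v) : IntegrableOn (fun x => v x ^ 2) (Ho n) := by
  obtain ⟨C, R, _, _, _, h0⟩ := h.bound
  refine integrableOn_Ho (R := R) (h.contv.pow 2) ?_
  intro x _ hx
  simp [(h0 x hx).1]

theorem CC.int_grad {v : V (n + 1) → ℝ} (h : CC n v) :
    IntegrableOn (fun x => ‖fderivWithin ℝ v (Hs n) x‖ ^ 2) (Ho n) := by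
  obtain ⟨C, R, _, _, _, h0⟩ := h.bound
  refine integrableOn_Ho (R := R) (h.contg.norm.pow 2) ?_
  intro x _ hx
  simp [(h0 x hx).2]

theorem cons_apply_zero (t : ℝ) (z : V n) : (cons t z) 0 = t := rfl

theorem cons_apply_succ (t : ℝ) (z : V n) (i : Fin n) : (cons t z) i.succ = z i := rfl

theorem continuous_cons : Continuous fun p : ℝ × V n => cons p.1 p.2 := by
  refine (PiLp.continuous_toLp 2 _).comp ?_
  refine continuous_pi fun i => ?_
  refine Fin.cases ?_ (fun j => ?_) i
  · simp only [Fin.cons_zero]; exact continuous_fst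
  · simp only [Fin.cons_succ]; fun_prop

theorem continuous_bd : Continuous (bd : V n → V (n + 1)) :=
  continuous_cons.comp (Continuous.prodMk continuous_const continuous_id)

theorem bd_mem_Hs (z : V n) : bd z ∈ Hs n := by
  show (0 : ℝ) ≤ (cons 0 z) 0
  rw [cons_apply_zero]

theorem norm_bd (z : V n) : ‖bd z‖ = ‖z‖ := by
  rw [EuclideanSpace.norm_eq, EuclideanSpace.norm_eq, Fin.sum_univ_succ]
  congr 1
  have h1 : (bd z) 0 = 0 := rfl
  have h2 : ∀ i : Fin n, (bd z) i.succ = z i := fun _ => rfl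
  simp only [h1, h2]
  simp

theorem CC.int_bd {v : V (n + 1) → ℝ} (h : CC n v) {Φ : ℝ → ℝ} (hΦ : Continuous Φ) (h00 : Φ 0 = 0) :
    Integrable (fun z : V n => Φ (v (bd z))) := by
  obtain ⟨C, R, _, _, _, h0⟩ := h.bound
  have hc : Continuous fun z : V n => v (bd z) :=
    h.contv.comp_continuous continuous_bd bd_mem_Hs
  refine (hΦ.comp hc).integrable_of_hasCompactSupport ?_
  refine HasCompactSupport.intro (isCompact_closedBall (0 : V n) R) ?_
  intro z hz
  rw [mem_closedBall_zero_iff, not_le] at hz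
  simp only [Function.comp_apply]
  rw [(h0 (bd z) (by rw [norm_bd]; exact hz)).1, h00]

theorem CC.int_bd_rpow {v : V (n + 1) → ℝ} (h : CC n v) {p : ℝ} (hp : 0 < p) :
    Integrable (fun z : V n => |v (bd z)| ^ p) :=
  h.int_bd (Φ := fun x => |x| ^ p) (continuous_abs.rpow_const fun _ => Or.inr hp.le)
    (by simp [Real.zero_rpow hp.ne'])

theorem CC.int_bd_sq {v : V (n + 1) → ℝ} (h : CC n v) : Integrable (fun z : V n => v (bd z) ^ 2) :=
  h.int_bd (Φ := fun x => x ^ 2) (by fun_prop) (by simp)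

/-- The boundary is a null set. -/
theorem Hs_ae_eq_Ho : (Hs n : Set (V (n + 1))) =ᵐ[volume] Ho n := by
  let s : Submodule ℝ (V (n + 1)) := LinearMap.ker (EuclideanSpace.proj (0 : Fin (n + 1)) :
    V (n + 1) →L[ℝ] ℝ).toLinearMap
  have hs : s ≠ ⊤ := by
    intro h
    have h1 : (EuclideanSpace.single (0 : Fin (n + 1)) (1 : ℝ)) ∈ s := by rw [h]; trivial
    rw [LinearMap.mem_ker] at h1
    simp at h1
  have h0 : volume (s : Set (V (n + 1))) = 0 := Measure.addHaar_submodule _ s hs
  rw [ae_eq_set]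
  constructor
  · refine measure_mono_null ?_ h0
    intro x hx
    have h1 : (0 : ℝ) ≤ x 0 := hx.1
    have h2 : ¬ (0 : ℝ) < x 0 := hx.2
    show x ∈ s
    rw [LinearMap.mem_ker]
    show x 0 = 0
    linarith [not_lt.1 h2]
  · rw [sdiff_eq_empty.2 Ho_subset_Hs]; simp

theorem norm_fderivWithin_sq (v : V (n + 1) → ℝ) (x : V (n + 1)) :
    ‖fderivWithin ℝ v (Hs n) x‖ ^ 2 = ∑ i, (pd (Hs n) i v x) ^ 2 := by
  set L := fderivWithin ℝ v (Hs n) x with hL
  have h1 : ‖(InnerProductSpace.toDual ℝ (V (n + 1))).symm L‖ = ‖L‖ := LinearIsometryEquiv.norm_map _ _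
  rw [← h1, EuclideanSpace.norm_sq_eq]
  refine Finset.sum_congr rfl fun i _ => ?_
  have h2 : ((InnerProductSpace.toDual ℝ (V (n + 1))).symm L) i = L (EuclideanSpace.single i 1) := by
    have h3 := InnerProductSpace.toDual_symm_apply (𝕜 := ℝ) (x := EuclideanSpace.single i (1 : ℝ)) (y := L)
    rw [← h3, EuclideanSpace.inner_single_right]
    simp
  rw [h2, Real.norm_eq_abs, sq_abs]
  rfl

/-- The map `(t, z) ↦ cons t z` preserves the measures. -/
theorem mp_cons : MeasurePreserving (fun p : ℝ × V n => cons p.1 p.2)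
    ((volume : Measure ℝ).prod (volume : Measure (V n))) (volume : Measure (V (n + 1))) := by
  have h1 : MeasurePreserving (Prod.map id (@WithLp.ofLp 2 (Fin n → ℝ)))
      ((volume : Measure ℝ).prod (volume : Measure (V n)))
      ((volume : Measure ℝ).prod (volume : Measure (Fin n → ℝ))) :=
    (MeasurePreserving.id _).prod (PiLp.volume_preserving_ofLp (Fin n))
  have h2 := (volume_preserving_piFinSuccAbove (fun _ : Fin (n + 1) => ℝ) 0).symm
  have h3 := PiLp.volume_preserving_toLp (Fin (n + 1))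
  have h4 := h3.comp (h2.comp h1)
  have h5 : (@WithLp.toLp 2 (Fin (n + 1) → ℝ)) ∘ (MeasurableEquiv.piFinSuccAbove
      (fun _ : Fin (n + 1) => ℝ) 0).symm ∘ Prod.map id (@WithLp.ofLp 2 (Fin n → ℝ)) =
      fun p : ℝ × V n => cons p.1 p.2 := by
    funext p
    obtain ⟨t, z⟩ := p
    ext i
    refine Fin.cases ?_ (fun j => ?_) i
    · rfl
    · rfl
  rw [← h5]
  exact h4

/-- Fubini for the half space. -/
theorem integral_Ho {F : V (n + 1) → ℝ} (hF : IntegrableOn F (Ho n)) :
    ∫ x in Ho n, F x = ∫ z : V n, ∫ t in Ioi (0 : ℝ), F (cons t z) := by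
  have hemb : MeasurableEmbedding (fun p : ℝ × V n => cons p.1 p.2) := by
    refine (continuous_cons.measurableEmbedding ?_)
    intro p q hpq
    simp only at hpq
    have h0 : p.1 = q.1 := by
      have := congrArg (fun x : V (n + 1) => x 0) hpq
      exact this
    have h1 : p.2 = q.2 := by
      ext i
      have := congrArg (fun x : V (n + 1) => x i.succ) hpq
      exact this
    exact Prod.ext h0 h1
  have hpre : (fun p : ℝ × V n => cons p.1 p.2) ⁻¹' (Ho n) = Ioi (0 : ℝ) ×ˢ (univ : Set (V n)) := by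
    ext p
    simp only [mem_preimage, mem_prod, mem_Ioi, mem_univ, and_true]
    exact Iff.rfl
  have h1 : IntegrableOn (fun p : ℝ × V n => F (cons p.1 p.2)) (Ioi (0 : ℝ) ×ˢ (univ : Set (V n)))
      ((volume : Measure ℝ).prod (volume : Measure (V n))) := by
    rw [← hpre]
    exact (mp_cons.integrableOn_comp_preimage hemb).2 hF
  rw [← mp_cons.setIntegral_preimage_emb hemb, hpre]
  rw [← Measure.prod_restrict, Measure.restrict_univ]
  rw [integral_prod_symm]
  rw [← Measure.restrict_univ (μ := (volume : Measure (V n))), Measure.prod_restrict]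
  exact h1

theorem integrable_inner {F : V (n + 1) → ℝ} (hF : IntegrableOn F (Ho n)) :
    Integrable (fun z : V n => ∫ t in Ioi (0 : ℝ), F (cons t z)) := by
  have hemb : MeasurableEmbedding (fun p : ℝ × V n => cons p.1 p.2) := by
    refine (continuous_cons.measurableEmbedding ?_)
    intro p q hpq
    simp only at hpq
    have h0 : p.1 = q.1 := by
      have := congrArg (fun x : V (n + 1) => x 0) hpq
      exact this
    have h1 : p.2 = q.2 := by
      ext i
      have := congrArg (fun x : V (n + 1) => x i.succ) hpq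
      exact this
    exact Prod.ext h0 h1
  have hpre : (fun p : ℝ × V n => cons p.1 p.2) ⁻¹' (Ho n) = Ioi (0 : ℝ) ×ˢ (univ : Set (V n)) := by
    ext p
    simp only [mem_preimage, mem_prod, mem_Ioi, mem_univ, and_true]
    exact Iff.rfl
  have h1 : IntegrableOn (fun p : ℝ × V n => F (cons p.1 p.2)) (Ioi (0 : ℝ) ×ˢ (univ : Set (V n)))
      ((volume : Measure ℝ).prod (volume : Measure (V n))) := by
    rw [← hpre]
    exact (mp_cons.integrableOn_comp_preimage hemb).2 hF
  rw [IntegrableOn, ← Measure.prod_restrict, Measure.restrict_univ] at h1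
  exact h1.integral_prod_right

variable {X : Type} [TopologicalSpace X] [ChartedSpace (EuclideanHalfSpace (n + 1)) X]

theorem C1_cont {u : X → ℝ} (hu : u ∈ C1 n X) : Continuous u := ContMDiff.continuous hu

theorem C1_mul {u v : X → ℝ} (hu : u ∈ C1 n X) (hv : v ∈ C1 n X) : (fun x => u x * v x) ∈ C1 n X :=
  ContMDiff.mul hu hv

theorem C1_sub {u v : X → ℝ} (hu : u ∈ C1 n X) (hv : v ∈ C1 n X) : (fun x => u x - v x) ∈ C1 n X :=
  ContMDiff.sub hu hv

theorem C1_of_smooth {u : X → ℝ} (hu : ContMDiff (𝓡∂ (n + 1)) 𝓘(ℝ) ∞ u) : u ∈ C1 n X :=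
  hu.of_le (by exact_mod_cast le_top)

end

end Pool.Agent.CY.S3b
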