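import Pool.Agent.CY.S3b.Basic

/-!
Module CY-S3b-ChVar: linear change of variables on the half space.

PLAN.  `lin M` is the linear map with matrix `M` (`Matrix.toEuclideanLin` or `Matrix.toLin'` conjugated by
`WithLp.toLp 2`); it is injective since `det M ≠ 0`, its determinant is `M.det`
(`LinearMap.det_toLin'`), and `(lin M x) 0 = M 0 0 * x 0`, so `lin M` maps `Ho n` onto `Ho n` (surjective:
linear bijection, and `x 0 > 0 ↔ (lin M x) 0 > 0`).  `int_lin`: `integral_image_eq_integral_abs_det_fderiv_smul`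
on `Ho n` (or `MeasureTheory.Measure.addHaar` preimage of linear maps, `integral_comp` with
`LinearMap.map_addHaar...`); no integrability needed.  `int_lin_bd`: `lin M (bd z) = bd (lin' N z)` with
`N = M.submatrix succ succ` (write `linN` for the analogous map of `V n`), then the same on `V n`.
`CC_comp`: `v ∘ lin M` is `C^1` on `Hs n` (the linear map maps `Hs n` to `Hs n`) with compact support
(`HasCompactSupport.comp_homeomorph`), and the chain rule `Dom.pd_comp_map` (S5/Calc, with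
`dom_of_open_Hs` for the domain `Hs n` itself) gives `pd_comp_lin`.
-/

set_option autoImplicit false
set_option linter.unusedSectionVars false

open scoped Manifold ContDiff
open MeasureTheory Set Filter Topology

namespace Pool.Agent.CY.S3b

noncomputable section

variable {n : ℕ}

/-- The linear map with matrix `M`. -/
def lin {m : ℕ} (M : Matrix (Fin m) (Fin m) ℝ) (x : V m) : V m :=
  WithLp.toLp 2 (fun i => ∑ j, M i j * x j)

/-- as a continuous linear map -/
def linL {m : ℕ} (M : Matrix (Fin m) (Fin m) ℝ) : V m →L[ℝ] V m :=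
  LinearMap.toContinuousLinearMap (Matrix.toLpLin 2 2 M)

theorem linL_apply {m : ℕ} (M : Matrix (Fin m) (Fin m) ℝ) (x : V m) : linL M x = lin M x := by
  ext i
  rfl

theorem lin_lin {m : ℕ} (M M' : Matrix (Fin m) (Fin m) ℝ) (h : M * M' = 1) (x : V m) :
    lin M (lin M' x) = x := by
  ext i
  simp only [lin]
  simp only [Finset.mul_sum]
  rw [Finset.sum_comm]
  have h1 : ∀ k, ∑ j, M i j * (M' j k * x k) = (1 : Matrix (Fin m) (Fin m) ℝ) i k * x k := by
    intro k
    rw [← h, Matrix.mul_apply, Finset.sum_mul]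
    exact Finset.sum_congr rfl fun j _ => by ring
  simp only [h1, Matrix.one_apply]
  simp

theorem lin_zero {M : Matrix (Fin (n + 1)) (Fin (n + 1)) ℝ} (h0 : ∀ j : Fin n, M 0 j.succ = 0)
    (x : V (n + 1)) : (lin M x) 0 = M 0 0 * x 0 := by
  simp only [lin]
  rw [Fin.sum_univ_succ]
  simp [h0]

theorem lin_bd {M : Matrix (Fin (n + 1)) (Fin (n + 1)) ℝ} (h0 : ∀ j : Fin n, M 0 j.succ = 0)
    (z : V n) : lin M (bd z) = bd (lin (M.submatrix Fin.succ Fin.succ) z) := by
  ext i
  refine Fin.cases ?_ (fun i => ?_) i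
  · rw [lin_zero h0]
    have h1 : (bd z) 0 = 0 := rfl
    have h2 : (bd (lin (M.submatrix Fin.succ Fin.succ) z)) 0 = 0 := rfl
    rw [h1, h2, mul_zero]
  · have h1 : (bd z) 0 = 0 := rfl
    have h2 : (bd (lin (M.submatrix Fin.succ Fin.succ) z)) i.succ =
      (lin (M.submatrix Fin.succ Fin.succ) z) i := rfl
    rw [h2]
    simp only [lin]
    rw [Fin.sum_univ_succ, h1, mul_zero, zero_add]
    rfl

theorem linL_det {m : ℕ} (M : Matrix (Fin m) (Fin m) ℝ) : (linL M).det = M.det := by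
  have h : ((linL M : V m →L[ℝ] V m) : V m →ₗ[ℝ] V m) = Matrix.toLin (PiLp.basisFun 2 ℝ (Fin m))
      (PiLp.basisFun 2 ℝ (Fin m)) M := by
    rw [← Matrix.toLpLin_eq_toLin]; rfl
  rw [ContinuousLinearMap.det, h, LinearMap.det_toLin]

theorem lin_inj {m : ℕ} {M : Matrix (Fin m) (Fin m) ℝ} (hd : M.det ≠ 0) : Function.Injective (lin M) := by
  intro x y h
  have hM : M⁻¹ * M = 1 := Matrix.nonsing_inv_mul _ hd.isUnit
  rw [← lin_lin M⁻¹ M hM x, h, lin_lin M⁻¹ M hM y]

theorem int_image {m : ℕ} {M : Matrix (Fin m) (Fin m) ℝ} (hd : 0 < M.det) (S : Set (V m))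
    (hS : MeasurableSet S) (F : V m → ℝ) :
    ∫ x in lin M '' S, F x = ∫ x in S, F (lin M x) * M.det := by
  have h := integral_image_eq_integral_abs_det_fderiv_smul (volume : Measure (V m)) hS
    (f := lin M) (f' := fun _ => linL M) (fun x _ => by
      have h1 : HasFDerivWithinAt (linL M) (linL M) S x := (linL M).hasFDerivWithinAt
      exact h1.congr (fun y _ => (linL_apply M y).symm) (linL_apply M x).symm)
    (lin_inj hd.ne').injOn F
  rw [h]
  refine setIntegral_congr_fun hS fun x _ => ?_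
  simp only [linL_det, smul_eq_mul]
  rw [abs_of_pos hd, mul_comm]

theorem int_lin {M : Matrix (Fin (n + 1)) (Fin (n + 1)) ℝ} (h0 : ∀ j : Fin n, M 0 j.succ = 0)
    (hp : 0 < M 0 0) (hd : 0 < M.det) (F : V (n + 1) → ℝ) :
    ∫ x in Ho n, F (lin M x) * M.det = ∫ x in Ho n, F x := by
  rw [← int_image hd (Ho n) measurableSet_Ho F]
  congr 2
  ext x
  constructor
  · rintro ⟨y, hy, rfl⟩
    show 0 < (lin M y) 0
    rw [lin_zero h0]
    exact mul_pos hp hy
  · intro hx
    have hM : M * M⁻¹ = 1 := Matrix.mul_nonsing_inv _ hd.ne'.isUnit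
    refine ⟨lin M⁻¹ x, ?_, lin_lin M M⁻¹ hM x⟩
    have h1 : 0 < (lin M (lin M⁻¹ x)) 0 := by rw [lin_lin M M⁻¹ hM x]; exact hx
    rw [lin_zero h0] at h1
    exact (pos_iff_pos_of_mul_pos h1).1 hp

theorem int_lin_bd {M : Matrix (Fin (n + 1)) (Fin (n + 1)) ℝ} (h0 : ∀ j : Fin n, M 0 j.succ = 0)
    (hd : 0 < (M.submatrix Fin.succ Fin.succ).det) (F : V (n + 1) → ℝ) :
    ∫ z : V n, F (lin M (bd z)) * (M.submatrix Fin.succ Fin.succ).det = ∫ z : V n, F (bd z) := by
  have h := int_image hd (univ : Set (V n)) MeasurableSet.univ (fun z => F (bd z))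
  have him : lin (M.submatrix Fin.succ Fin.succ) '' univ = univ := by
    rw [image_univ, eq_univ_iff_forall]
    intro x
    exact ⟨lin (M.submatrix Fin.succ Fin.succ)⁻¹ x,
      lin_lin _ _ (Matrix.mul_nonsing_inv _ hd.ne'.isUnit) x⟩
  rw [him, Measure.restrict_univ] at h
  rw [h]
  simp only [lin_bd h0]

theorem lin_maps {M : Matrix (Fin (n + 1)) (Fin (n + 1)) ℝ} (h0 : ∀ j : Fin n, M 0 j.succ = 0)
    (hp : 0 < M 0 0) : MapsTo (lin M) (Hs n) (Hs n) := by
  intro x hx
  show 0 ≤ (lin M x) 0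
  rw [lin_zero h0]
  exact mul_nonneg hp.le hx

theorem lin_fun {m : ℕ} (M : Matrix (Fin m) (Fin m) ℝ) : lin M = linL M :=
  funext fun x => (linL_apply M x).symm

theorem CC_comp {M : Matrix (Fin (n + 1)) (Fin (n + 1)) ℝ} (h0 : ∀ j : Fin n, M 0 j.succ = 0)
    (hp : 0 < M 0 0) (hd : 0 < M.det) {v : V (n + 1) → ℝ} (hv : CC n v) :
    CC n (fun x => v (lin M x)) := by
  refine ⟨?_, ?_⟩
  · refine hv.smooth.comp ?_ (lin_maps h0 hp)
    rw [lin_fun]
    exact (linL M).contDiff.contDiffOn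
  · have hM : M⁻¹ * M = 1 := Matrix.nonsing_inv_mul _ hd.ne'.isUnit
    have hc : Continuous (lin M⁻¹) := by rw [lin_fun]; exact (linL M⁻¹).continuous
    refine HasCompactSupport.intro (hv.supp.isCompact.image hc) ?_
    intro x hx
    refine image_eq_zero_of_notMem_tsupport fun h => hx ⟨lin M x, h, lin_lin _ _ hM x⟩

theorem pd_comp_lin {M : Matrix (Fin (n + 1)) (Fin (n + 1)) ℝ} (h0 : ∀ j : Fin n, M 0 j.succ = 0)
    (hp : 0 < M 0 0) {v : V (n + 1) → ℝ} (hv : CC n v) (i : Fin (n + 1)) {x : V (n + 1)}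
    (hx : x ∈ Hs n) :
    pd (Hs n) i (fun x => v (lin M x)) x = ∑ k, M k i * pd (Hs n) k v (lin M x) := by
  have hd1 : DifferentiableWithinAt ℝ v (Hs n) (lin M x) :=
    hv.smooth.differentiableOn one_ne_zero _ (lin_maps h0 hp hx)
  have hL : HasFDerivWithinAt (lin M) (linL M) (Hs n) x := by
    rw [lin_fun]; exact (linL M).hasFDerivWithinAt
  have h1 := hd1.hasFDerivWithinAt.comp x hL (lin_maps h0 hp)
  have h2 : fderivWithin ℝ (fun x => v (lin M x)) (Hs n) x =
      (fderivWithin ℝ v (Hs n) (lin M x)).comp (linL M) := h1.fderivWithin (uniqueDiffOn_Hs x hx)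
  have h3 : linL M (EuclideanSpace.single i (1 : ℝ)) = ∑ k, M k i • EuclideanSpace.single k (1 : ℝ) := by
    rw [linL_apply]
    ext k
    simp only [lin, PiLp.single_apply, WithLp.ofLp_sum, WithLp.ofLp_smul, Finset.sum_apply, Pi.smul_apply,
      smul_eq_mul, mul_ite, mul_one, mul_zero, Finset.sum_ite_eq', Finset.mem_univ, if_true,
      Finset.sum_ite_eq]
  simp only [pd]
  rw [h2, ContinuousLinearMap.comp_apply, h3, map_sum]
  simp only [map_smul, smul_eq_mul]

end

end Pool.Agent.CY.S3b
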