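import Mathlib

/-!
Module CY-S3b-Chain: from local to global Poincare inequalities (pure topology and measure theory).
-/

set_option autoImplicit false
set_option linter.unusedSectionVars false

open MeasureTheory Set Filter Topology

namespace Pool.Agent.CY.S3b

section chain

variable {X : Type} [TopologicalSpace X] [CompactSpace X] [MeasurableSpace X] [BorelSpace X]

/-- the double integral as an extended real -/
private noncomputable def LL (μ : Measure X) (u : X → ℝ) (U W : Set X) : ENNReal :=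
  ∫⁻ x in U, ∫⁻ y in W, ENNReal.ofReal ((u x - u y) ^ 2) ∂μ ∂μ

private lemma integrable_cont (μ : Measure X) [IsFiniteMeasure μ] {u : X → ℝ} (hu : Continuous u) :
    Integrable u μ :=
  hu.integrable_of_hasCompactSupport (HasCompactSupport.of_compactSpace u)

private lemma inner_eq (ν : Measure X) [IsFiniteMeasure ν] {u : X → ℝ} (hu : Continuous u) (c : ℝ) :
    ∫ y, (c - u y) ^ 2 ∂ν = ν.real univ * c ^ 2 - 2 * c * ∫ y, u y ∂ν + ∫ y, u y ^ 2 ∂ν := by
  have h1 : Integrable u ν := integrable_cont ν hu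
  have h2 : Integrable (fun y => u y ^ 2) ν := integrable_cont ν (hu.pow 2)
  have e : (fun y => (c - u y) ^ 2) = fun y => (c ^ 2 - 2 * c * u y) + u y ^ 2 := by
    funext y; ring
  have hc : Integrable (fun _ : X => c ^ 2) ν := integrable_const _
  have h3 : Integrable (fun y => 2 * c * u y) ν := h1.const_mul _
  have h4 : Integrable (fun y => c ^ 2 - 2 * c * u y) ν := hc.sub h3
  rw [e, integral_add h4 h2, integral_sub hc h3, integral_const, integral_const_mul, smul_eq_mul]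

private lemma lint_eq (μ ν : Measure X) [IsFiniteMeasure μ] [IsFiniteMeasure ν] {u : X → ℝ}
    (hu : Continuous u) :
    ∫⁻ x, ∫⁻ y, ENNReal.ofReal ((u x - u y) ^ 2) ∂ν ∂μ =
      ENNReal.ofReal (∫ x, ∫ y, (u x - u y) ^ 2 ∂ν ∂μ) := by
  have h1 : ∀ x, ∫⁻ y, ENNReal.ofReal ((u x - u y) ^ 2) ∂ν =
      ENNReal.ofReal (∫ y, (u x - u y) ^ 2 ∂ν) := by
    intro x
    rw [ofReal_integral_eq_lintegral_ofReal]
    · exact integrable_cont ν ((continuous_const.sub hu).pow 2)
    · exact Eventually.of_forall fun y => sq_nonneg _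
  simp_rw [h1]
  rw [ofReal_integral_eq_lintegral_ofReal]
  · have e : (fun x => ∫ y, (u x - u y) ^ 2 ∂ν) =
        fun x => ν.real univ * (u x) ^ 2 - 2 * (u x) * ∫ y, u y ∂ν + ∫ y, u y ^ 2 ∂ν := by
      funext x; exact inner_eq ν hu (u x)
    rw [e]
    exact integrable_cont μ (by fun_prop)
  · exact Eventually.of_forall fun x => integral_nonneg fun y => sq_nonneg _

private lemma meas_G {u : X → ℝ} (hu : Continuous u) :
    Measurable (fun z : X × X => ENNReal.ofReal ((u z.1 - u z.2) ^ 2)) := by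
  have h1 : Measurable (fun z : X × X => u z.1) := hu.measurable.comp measurable_fst
  have h2 : Measurable (fun z : X × X => u z.2) := hu.measurable.comp measurable_snd
  exact ((h1.sub h2).pow_const 2).ennreal_ofReal

private lemma meas_in (μ : Measure X) [IsFiniteMeasure μ] {u : X → ℝ} (hu : Continuous u)
    (Z : Set X) : Measurable fun x => ∫⁻ z in Z, ENNReal.ofReal ((u x - u z) ^ 2) ∂μ :=
  (meas_G hu).lintegral_prod_right'

private lemma LL_mono (μ : Measure X) (u : X → ℝ) {U U' W W' : Set X} (h : U ⊆ U') (h' : W ⊆ W') :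
    LL μ u U W ≤ LL μ u U' W' := by
  unfold LL
  refine (lintegral_mono fun x => ?_).trans (lintegral_mono_set h)
  exact lintegral_mono_set h'

private lemma LL_trans (μ : Measure X) [IsFiniteMeasure μ] {u : X → ℝ} (hu : Continuous u) (U V Z : Set X) :
    μ V * LL μ u U Z ≤ 2 * μ Z * LL μ u U V + 2 * μ U * LL μ u Z V := by
  have hm : ∀ x, Measurable fun y => ENNReal.ofReal ((u x - u y) ^ 2) := fun x =>
    (meas_G hu).comp (measurable_const.prodMk measurable_id)
  have key : ∀ x y z, ENNReal.ofReal ((u x - u z) ^ 2) ≤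
      2 * ENNReal.ofReal ((u x - u y) ^ 2) + 2 * ENNReal.ofReal ((u z - u y) ^ 2) := by
    intro x y z
    have : (2 : ENNReal) = ENNReal.ofReal 2 := by simp
    rw [this, ← ENNReal.ofReal_mul (by norm_num), ← ENNReal.ofReal_mul (by norm_num),
      ← ENNReal.ofReal_add (by positivity) (by positivity)]
    apply ENNReal.ofReal_le_ofReal
    nlinarith [sq_nonneg (u x - u y + (u z - u y))]
  have h1 : ∀ x z, ENNReal.ofReal ((u x - u z) ^ 2) * μ V ≤
      2 * (∫⁻ y in V, ENNReal.ofReal ((u x - u y) ^ 2) ∂μ) +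
      2 * (∫⁻ y in V, ENNReal.ofReal ((u z - u y) ^ 2) ∂μ) := by
    intro x z
    calc ENNReal.ofReal ((u x - u z) ^ 2) * μ V
        = ∫⁻ _ in V, ENNReal.ofReal ((u x - u z) ^ 2) ∂μ := by rw [setLIntegral_const]
      _ ≤ ∫⁻ y in V, (2 * ENNReal.ofReal ((u x - u y) ^ 2) +
            2 * ENNReal.ofReal ((u z - u y) ^ 2)) ∂μ := lintegral_mono fun y => key x y z
      _ = _ := by
        rw [lintegral_add_left ((hm x).const_mul 2), lintegral_const_mul _ (hm x),
          lintegral_const_mul _ (hm z)]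
  have h2 : ∀ x, (∫⁻ z in Z, ENNReal.ofReal ((u x - u z) ^ 2) ∂μ) * μ V ≤
      2 * (∫⁻ y in V, ENNReal.ofReal ((u x - u y) ^ 2) ∂μ) * μ Z + 2 * LL μ u Z V := by
    intro x
    calc (∫⁻ z in Z, ENNReal.ofReal ((u x - u z) ^ 2) ∂μ) * μ V
        = ∫⁻ z in Z, ENNReal.ofReal ((u x - u z) ^ 2) * μ V ∂μ :=
          (lintegral_mul_const _ (hm x)).symm
      _ ≤ ∫⁻ z in Z, (2 * (∫⁻ y in V, ENNReal.ofReal ((u x - u y) ^ 2) ∂μ) +
            2 * (∫⁻ y in V, ENNReal.ofReal ((u z - u y) ^ 2) ∂μ)) ∂μ :=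
          lintegral_mono fun z => h1 x z
      _ = _ := by
        rw [lintegral_add_left measurable_const, setLIntegral_const,
          lintegral_const_mul' _ _ (by simp)]
        rfl
  have hmU := meas_in μ hu Z
  calc μ V * LL μ u U Z
      = ∫⁻ x in U, (∫⁻ z in Z, ENNReal.ofReal ((u x - u z) ^ 2) ∂μ) * μ V ∂μ := by
        rw [lintegral_mul_const _ hmU, mul_comm]; rfl
    _ ≤ ∫⁻ x in U, (2 * (∫⁻ y in V, ENNReal.ofReal ((u x - u y) ^ 2) ∂μ) * μ Z +
          2 * LL μ u Z V) ∂μ := lintegral_mono fun x => h2 x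
    _ = (∫⁻ x in U, 2 * (∫⁻ y in V, ENNReal.ofReal ((u x - u y) ^ 2) ∂μ) * μ Z ∂μ) +
          2 * LL μ u Z V * μ U := by
        rw [lintegral_add_right _ measurable_const, setLIntegral_const]
    _ = _ := by
        have e : ∀ x, 2 * (∫⁻ y in V, ENNReal.ofReal ((u x - u y) ^ 2) ∂μ) * μ Z =
            (2 * μ Z) * (∫⁻ y in V, ENNReal.ofReal ((u x - u y) ^ 2) ∂μ) := by
          intro x; ring
        simp_rw [e]
        rw [lintegral_const_mul _ (meas_in μ hu V)]
        unfold LL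
        ring

private lemma LL_symm (μ : Measure X) [IsFiniteMeasure μ] {u : X → ℝ} (hu : Continuous u)
    (U W : Set X) : LL μ u U W = LL μ u W U := by
  unfold LL
  rw [lint_eq (μ.restrict U) (μ.restrict W) hu, lint_eq (μ.restrict W) (μ.restrict U) hu]
  congr 1
  have e : ∀ (S T : Set X), ∫ x in S, ∫ y in T, (u x - u y) ^ 2 ∂μ ∂μ =
      μ.real T * (∫ x in S, u x ^ 2 ∂μ) - 2 * (∫ x in S, u x ∂μ) * (∫ x in T, u x ∂μ) +
        μ.real S * (∫ x in T, u x ^ 2 ∂μ) := by
    intro S T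
    have h1 : Integrable u (μ.restrict S) := integrable_cont _ hu
    have h2 : Integrable (fun y => u y ^ 2) (μ.restrict S) := integrable_cont _ (hu.pow 2)
    have e1 : (fun x => ∫ y in T, (u x - u y) ^ 2 ∂μ) = fun x =>
        (μ.real T * u x ^ 2 - 2 * (∫ y in T, u y ∂μ) * u x) + ∫ y in T, u y ^ 2 ∂μ := by
      funext x
      rw [inner_eq (μ.restrict T) hu (u x), measureReal_restrict_apply_univ]
      ring
    have h3 : Integrable (fun x => μ.real T * u x ^ 2) (μ.restrict S) := h2.const_mul _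
    have h4 : Integrable (fun x => 2 * (∫ y in T, u y ∂μ) * u x) (μ.restrict S) := h1.const_mul _
    have h5 : Integrable (fun x => μ.real T * u x ^ 2 - 2 * (∫ y in T, u y ∂μ) * u x)
      (μ.restrict S) := h3.sub h4
    rw [e1, integral_add h5 (integrable_const _), integral_sub h3 h4, integral_const_mul,
      integral_const_mul, integral_const, smul_eq_mul, measureReal_restrict_apply_univ]
    ring
  rw [e, e]
  ring

end chain

theorem poin_chain {X : Type} [TopologicalSpace X] [CompactSpace X] [ConnectedSpace X]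
    [MeasurableSpace X] [BorelSpace X] (μ : Measure X) (hμ : μ univ < ⊤)
    (hpos : ∀ U : Set X, IsOpen U → U.Nonempty → 0 < μ U) (A : Set (X → ℝ))
    (hA : ∀ u ∈ A, Continuous u) (E : (X → ℝ) → ℝ) (hE : ∀ u ∈ A, 0 ≤ E u)
    (hloc : ∀ p, ∃ U : Set X, IsOpen U ∧ p ∈ U ∧ ∃ C : ℝ, ∀ u ∈ A,
      ∫ x in U, ∫ y in U, (u x - u y) ^ 2 ∂μ ∂μ ≤ C * E u) :
    ∃ C : ℝ, ∀ u ∈ A, ∫ x, u x ^ 2 ∂μ ≤ C * (E u + (∫ x, u x ∂μ) ^ 2) := by
  have hfin : IsFiniteMeasure μ := ⟨hμ⟩
  -- the relation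
  let R : X → X → Prop := fun p q => ∃ U W : Set X, IsOpen U ∧ p ∈ U ∧ IsOpen W ∧ q ∈ W ∧
    ∃ C : NNReal, ∀ u ∈ A, LL μ u U W ≤ (C : ENNReal) * ENNReal.ofReal (E u)
  have hrefl : ∀ p, ∃ U : Set X, IsOpen U ∧ p ∈ U ∧ ∀ q ∈ U, ∀ q' ∈ U, R q q' := by
    intro p
    obtain ⟨U, hU, hpU, C, hC⟩ := hloc p
    refine ⟨U, hU, hpU, fun q hq q' hq' => ⟨U, U, hU, hq, hU, hq', C.toNNReal, fun u hu => ?_⟩⟩
    unfold LL
    rw [lint_eq (μ.restrict U) (μ.restrict U) (hA u hu)]
    have e : ((C.toNNReal : NNReal) : ENNReal) = ENNReal.ofReal C := rfl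
    rw [e]
    rcases le_or_gt 0 C with h0 | h0
    · rw [← ENNReal.ofReal_mul h0]
      exact ENNReal.ofReal_le_ofReal (hC u hu)
    · have h1 : ∫ x in U, ∫ y in U, (u x - u y) ^ 2 ∂μ ∂μ ≤ 0 :=
        (hC u hu).trans (mul_nonpos_of_nonpos_of_nonneg h0.le (hE u hu))
      rw [ENNReal.ofReal_of_nonpos h1]
      exact zero_le
  have hsymm : ∀ p q, R p q → R q p := by
    rintro p q ⟨U, W, hU, hp, hW, hq, C, hC⟩
    exact ⟨W, U, hW, hq, hU, hp, C, fun u hu => by rw [LL_symm μ (hA u hu)]; exact hC u hu⟩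
  have htrans : ∀ p q r, R p q → R q r → R p r := by
    rintro p q r ⟨U, W, hU, hp, hW, hq, C, hC⟩ ⟨W', Z, hW', hq', hZ, hr, C', hC'⟩
    have hV : IsOpen (W ∩ W') := hW.inter hW'
    have hV0 : 0 < μ (W ∩ W') := hpos _ hV ⟨q, hq, hq'⟩
    have hVt : μ (W ∩ W') ≠ ⊤ := measure_ne_top _ _
    have hZt : μ Z ≠ ⊤ := measure_ne_top _ _
    have hUt : μ U ≠ ⊤ := measure_ne_top _ _
    let D : ENNReal := (2 * μ Z * C + 2 * μ U * C') / μ (W ∩ W')
    have hD : D ≠ ⊤ := by
      refine ENNReal.div_ne_top ?_ hV0.ne'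
      exact ENNReal.add_ne_top.2 ⟨ENNReal.mul_ne_top (ENNReal.mul_ne_top (by simp) hZt) (by simp),
        ENNReal.mul_ne_top (ENNReal.mul_ne_top (by simp) hUt) (by simp)⟩
    refine ⟨U, Z, hU, hp, hZ, hr, D.toNNReal, fun u hu => ?_⟩
    rw [ENNReal.coe_toNNReal hD]
    have h1 := LL_trans μ (hA u hu) U (W ∩ W') Z
    have h2 : LL μ u U (W ∩ W') ≤ (C : ENNReal) * ENNReal.ofReal (E u) :=
      (LL_mono μ u le_rfl inter_subset_left).trans (hC u hu)
    have h3 : LL μ u Z (W ∩ W') ≤ (C' : ENNReal) * ENNReal.ofReal (E u) := by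
      rw [LL_symm μ (hA u hu)]
      exact (LL_mono μ u inter_subset_right le_rfl).trans (hC' u hu)
    have h4 : μ (W ∩ W') * LL μ u U Z ≤
        (2 * μ Z * C + 2 * μ U * C') * ENNReal.ofReal (E u) := by
      refine h1.trans ?_
      calc 2 * μ Z * LL μ u U (W ∩ W') + 2 * μ U * LL μ u Z (W ∩ W')
          ≤ 2 * μ Z * ((C : ENNReal) * ENNReal.ofReal (E u)) +
            2 * μ U * ((C' : ENNReal) * ENNReal.ofReal (E u)) := by gcongr
        _ = _ := by ring
    have h5 : LL μ u U Z ≤ ((2 * μ Z * C + 2 * μ U * C') * ENNReal.ofReal (E u)) /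
        μ (W ∩ W') := by
      rw [ENNReal.le_div_iff_mul_le (Or.inl hV0.ne') (Or.inl hVt), mul_comm]
      exact h4
    refine h5.trans (le_of_eq ?_)
    show _ = (2 * μ Z * C + 2 * μ U * C') / μ (W ∩ W') * ENNReal.ofReal (E u)
    rw [div_eq_mul_inv, div_eq_mul_inv]
    ring
  -- all points are related
  have hall : ∀ p q, R p q := by
    intro p
    have hopen : IsOpen {q | R p q} := by
      rw [isOpen_iff_forall_mem_open]
      rintro q ⟨U, W, hU, hp, hW, hq, C, hC⟩
      exact ⟨W, fun q' hq' => ⟨U, W, hU, hp, hW, hq', C, hC⟩, hW, hq⟩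
    have hclosed : IsClosed {q | R p q} := by
      rw [← isOpen_compl_iff, isOpen_iff_forall_mem_open]
      intro q hq
      obtain ⟨U, hU, hqU, hR⟩ := hrefl q
      exact ⟨U, fun q' hq' h => hq (htrans p q' q h (hR q' hq' q hqU)), hU, hqU⟩
    have hne : ({q | R p q} : Set X).Nonempty := by
      obtain ⟨U, _, hpU, hR⟩ := hrefl p
      exact ⟨p, hR p hpU p hpU⟩
    have := IsClopen.eq_univ ⟨hclosed, hopen⟩ hne
    intro q
    have hq : q ∈ ({q | R p q} : Set X) := by rw [this]; trivial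
    exact hq
  -- compactness
  choose U W hU hp hW hq C hC using hall
  obtain ⟨t, ht⟩ := (isCompact_univ : IsCompact (univ : Set (X × X))).elim_finite_subcover
    (fun z : X × X => (U z.1 z.2) ×ˢ (W z.1 z.2)) (fun z => (hU _ _).prod (hW _ _))
    (fun z _ => mem_iUnion.2 ⟨z, ⟨hp _ _, hq _ _⟩⟩)
  have hbig : ∀ u ∈ A, LL μ u univ univ ≤
      (∑ z ∈ t, (C z.1 z.2 : ENNReal)) * ENNReal.ofReal (E u) := by
    intro u hu
    have h1 : ∀ x y, ENNReal.ofReal ((u x - u y) ^ 2) ≤
        ∑ z ∈ t, (U z.1 z.2).indicator 1 x *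
          (W z.1 z.2).indicator (fun y => ENNReal.ofReal ((u x - u y) ^ 2)) y := by
      intro x y
      obtain ⟨z, hz, hxy⟩ := mem_iUnion₂.1 (ht (mem_univ (x, y)))
      have h2 : (U z.1 z.2).indicator 1 x *
          (W z.1 z.2).indicator (fun y => ENNReal.ofReal ((u x - u y) ^ 2)) y =
          ENNReal.ofReal ((u x - u y) ^ 2) := by
        rw [indicator_of_mem hxy.1, indicator_of_mem hxy.2, Pi.one_apply, one_mul]
      rw [← h2]
      exact Finset.single_le_sum (f := fun z : X × X => (U z.1 z.2).indicator 1 x *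
          (W z.1 z.2).indicator (fun y => ENNReal.ofReal ((u x - u y) ^ 2)) y)
        (fun _ _ => zero_le) hz
    have hmy : ∀ x, Measurable fun y => ENNReal.ofReal ((u x - u y) ^ 2) := fun x =>
      (meas_G (hA u hu)).comp (measurable_const.prodMk measurable_id)
    have h3 : ∀ x, ∫⁻ y, ENNReal.ofReal ((u x - u y) ^ 2) ∂μ ≤
        ∑ z ∈ t, (U z.1 z.2).indicator
          (fun x => ∫⁻ y in W z.1 z.2, ENNReal.ofReal ((u x - u y) ^ 2) ∂μ) x := by
      intro x
      refine (lintegral_mono fun y => h1 x y).trans ?_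
      rw [lintegral_finsetSum]
      · refine Finset.sum_le_sum fun z _ => ?_
        rw [lintegral_const_mul _ ((hmy x).indicator (hW _ _).measurableSet),
          lintegral_indicator (hW _ _).measurableSet]
        by_cases hx : x ∈ U z.1 z.2
        · rw [indicator_of_mem hx, indicator_of_mem hx, Pi.one_apply, one_mul]
        · rw [indicator_of_notMem hx, indicator_of_notMem hx, zero_mul]
      · intro z _
        exact ((hmy x).indicator (hW _ _).measurableSet).const_mul _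
    calc LL μ u univ univ
        = ∫⁻ x, ∫⁻ y, ENNReal.ofReal ((u x - u y) ^ 2) ∂μ ∂μ := by
          simp only [LL, Measure.restrict_univ]
      _ ≤ ∫⁻ x, ∑ z ∈ t, (U z.1 z.2).indicator
          (fun x => ∫⁻ y in W z.1 z.2, ENNReal.ofReal ((u x - u y) ^ 2) ∂μ) x ∂μ :=
          lintegral_mono h3
      _ = ∑ z ∈ t, LL μ u (U z.1 z.2) (W z.1 z.2) := by
          rw [lintegral_finsetSum]
          · refine Finset.sum_congr rfl fun z _ => ?_
            rw [lintegral_indicator (hU _ _).measurableSet]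
            rfl
          · intro z _
            exact (meas_in μ (hA u hu) _).indicator (hU _ _).measurableSet
      _ ≤ ∑ z ∈ t, (C z.1 z.2 : ENNReal) * ENNReal.ofReal (E u) :=
          Finset.sum_le_sum fun z _ => hC z.1 z.2 u hu
      _ = _ := by rw [Finset.sum_mul]
  let K : NNReal := ∑ z ∈ t, C z.1 z.2
  have hK : ∀ u ∈ A, LL μ u univ univ ≤ ENNReal.ofReal (K * E u) := by
    intro u hu
    refine (hbig u hu).trans (le_of_eq ?_)
    have e : ENNReal.ofReal ((K : ℝ) * E u) = (K : ENNReal) * ENNReal.ofReal (E u) := by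
      rw [ENNReal.ofReal_mul (NNReal.coe_nonneg K)]
      congr 1
      exact ENNReal.ofReal_coe_nnreal
    rw [e]
    congr 1
    simp only [K, ENNReal.ofNNReal_finsetSum]
  have hm0 : 0 < μ.real univ := by
    rw [Measure.real]
    exact ENNReal.toReal_pos (hpos univ isOpen_univ univ_nonempty).ne' hμ.ne
  refine ⟨max ((K : ℝ) / (2 * μ.real univ)) (1 / μ.real univ), fun u hu => ?_⟩
  have hu' := hA u hu
  have h1 := hK u hu
  unfold LL at h1
  simp only [Measure.restrict_univ] at h1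
  rw [lint_eq μ μ hu', ENNReal.ofReal_le_ofReal_iff (mul_nonneg (NNReal.coe_nonneg K) (hE u hu))] at h1
  have i1 : Integrable u μ := integrable_cont _ hu'
  have i2 : Integrable (fun y => u y ^ 2) μ := integrable_cont _ (hu'.pow 2)
  have e1 : (fun x => ∫ y, (u x - u y) ^ 2 ∂μ) = fun x =>
      (μ.real univ * u x ^ 2 - 2 * (∫ y, u y ∂μ) * u x) + ∫ y, u y ^ 2 ∂μ := by
    funext x
    rw [inner_eq μ hu' (u x)]
    ring
  have i3 : Integrable (fun x => μ.real univ * u x ^ 2) μ := i2.const_mul _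
  have i4 : Integrable (fun x => 2 * (∫ y, u y ∂μ) * u x) μ := i1.const_mul _
  have i5 : Integrable (fun x => μ.real univ * u x ^ 2 - 2 * (∫ y, u y ∂μ) * u x) μ := i3.sub i4
  rw [e1, integral_add i5 (integrable_const _), integral_sub i3 i4, integral_const_mul,
    integral_const_mul, integral_const, smul_eq_mul] at h1
  have hE0 := hE u hu
  have hb0 : 0 ≤ (∫ x, u x ∂μ) ^ 2 := sq_nonneg _
  have h2 : ∫ x, u x ^ 2 ∂μ ≤ (K : ℝ) / (2 * μ.real univ) * E u +
      1 / μ.real univ * (∫ x, u x ∂μ) ^ 2 := by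
    have h3 : 2 * μ.real univ * (∫ x, u x ^ 2 ∂μ) ≤ K * E u + 2 * (∫ x, u x ∂μ) ^ 2 := by
      nlinarith
    have h4 : ∫ x, u x ^ 2 ∂μ = (2 * μ.real univ * (∫ x, u x ^ 2 ∂μ)) / (2 * μ.real univ) := by
      field_simp
    rw [h4]
    have h5 : (K : ℝ) / (2 * μ.real univ) * E u + 1 / μ.real univ * (∫ x, u x ∂μ) ^ 2 =
        (K * E u + 2 * (∫ x, u x ∂μ) ^ 2) / (2 * μ.real univ) := by
      field_simp
    rw [h5]
    exact div_le_div_of_nonneg_right h3 (by positivity)
  refine h2.trans ?_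
  rw [mul_add]
  exact add_le_add (mul_le_mul_of_nonneg_right (le_max_left _ _) hE0)
    (mul_le_mul_of_nonneg_right (le_max_right _ _) hb0)

end Pool.Agent.CY.S3b
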