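import Pool.Agent.CY.S3b.Iface

/-!
Module CY-S3b-Chol: a square root of a positive definite matrix which preserves the half space.

PROOF.  `G' = G.submatrix succ succ` is positive definite (`Matrix.PosDef.submatrix` with the injective
`Fin.succ`, or test vectors with zero first entry).  Let `N` be its positive definite square root
(`Matrix.PosSemidef` square root / `CFC.sqrt`, or diagonalise by `Matrix.IsHermitian.spectral_theorem`;
any `N` with `N^T N = G'` and `det N > 0` will do: replace `N` by diag(-1,1,..,1) N if `det N < 0` and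
`0 < n`; for `n = 0` trivial): `N^T N = G'`, `0 < det N`, `(det N)^2 = det G'`, so `det N = sqrt (det G')`.
`b = (N^T)^{-1} (G_{0, succ j})_j` and `c = sqrt (G_00 - |b|^2)`; `G_00 - |b|^2 > 0` because
`x = (1, - N^{-1} b)` has `x^T G x = G_00 - |b|^2` (for `x = (1, w)`, `x^T G x = G_00 - |b|^2 + |N w + b|^2`).
`M` has rows `(c, 0)` and `(b_i, N_i)`: `M = fun i j => Fin.cases (Fin.cases c (fun _ => 0) j)
(fun i => Fin.cases (b i) (fun j => N i j) j) i`.  Then `M^T M = G` by computation and
`det M = c * det N` (`Matrix.det_succ_row_zero`: only the first term is nonzero), `> 0`,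
`(det M)^2 = det G`.
-/

set_option autoImplicit false
set_option linter.unusedSectionVars false

open scoped Manifold ContDiff
open MeasureTheory Set Filter Topology

namespace Pool.Agent.CY.S3b

noncomputable section

theorem posDef_sub {n : ℕ} {G : Matrix (Fin (n + 1)) (Fin (n + 1)) ℝ} (hG : G.PosDef) :
    (G.submatrix Fin.succ Fin.succ).PosDef :=
  hG.submatrix (Fin.succ_injective n)

open scoped MatrixOrder in
/-- a square root with positive determinant -/
theorem exists_root {n : ℕ} (G : Matrix (Fin n) (Fin n) ℝ) (hG : G.PosDef) :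
    ∃ N : Matrix (Fin n) (Fin n) ℝ, N.transpose * N = G ∧ 0 < N.det := by
  have h0 : 0 ≤ G := hG.posSemidef.nonneg
  have hp : (CFC.sqrt G).PosSemidef := Matrix.nonneg_iff_posSemidef.1 (CFC.sqrt_nonneg G)
  have hs : CFC.sqrt G * CFC.sqrt G = G := CFC.sqrt_mul_sqrt_self G h0
  have ht : (CFC.sqrt G).transpose = CFC.sqrt G := by
    have := hp.1
    rw [Matrix.IsHermitian, Matrix.conjTranspose_eq_transpose_of_trivial] at this
    exact this
  refine ⟨CFC.sqrt G, by rw [ht, hs], ?_⟩
  have h1 : 0 ≤ (CFC.sqrt G).det := hp.det_nonneg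
  have h2 : (CFC.sqrt G).det * (CFC.sqrt G).det = G.det := by rw [← Matrix.det_mul, hs]
  have h3 := hG.det_pos
  rcases h1.lt_or_eq with h | h
  · exact h
  · rw [← h, mul_zero] at h2; rw [← h2] at h3; exact absurd h3 (lt_irrefl _)

theorem exists_chol {n : ℕ} (G : Matrix (Fin (n + 1)) (Fin (n + 1)) ℝ) (hG : G.PosDef) :
    ∃ M : Matrix (Fin (n + 1)) (Fin (n + 1)) ℝ, M.transpose * M = G ∧ (∀ j : Fin n, M 0 j.succ = 0) ∧
      0 < M 0 0 ∧ M.det = Real.sqrt G.det ∧
      (M.submatrix Fin.succ Fin.succ).det = Real.sqrt (G.submatrix Fin.succ Fin.succ).det := by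
  obtain ⟨N, hN, hNd⟩ := exists_root _ (posDef_sub hG)
  have hsym : ∀ i j, G i j = G j i := by
    intro i j
    have := hG.1
    rw [Matrix.IsHermitian, Matrix.conjTranspose_eq_transpose_of_trivial] at this
    exact congrFun (congrFun this j) i
  have hNu : IsUnit N.det := hNd.ne'.isUnit
  have hNtu : IsUnit N.transpose.det := by rw [Matrix.det_transpose]; exact hNu
  set gv : Fin n → ℝ := fun j => G 0 j.succ with hgv
  set b : Fin n → ℝ := (N.transpose)⁻¹.mulVec gv with hb
  have hNb : N.transpose.mulVec b = gv := by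
    rw [hb, Matrix.mulVec_mulVec, Matrix.mul_nonsing_inv _ hNtu, Matrix.one_mulVec]
  have hNb' : ∀ j, ∑ i, N i j * b i = G 0 j.succ := by
    intro j
    have := congrFun hNb j
    simp only [Matrix.mulVec, dotProduct, Matrix.transpose_apply] at this
    exact this
  have hNN : ∀ i j, ∑ k, N k i * N k j = G i.succ j.succ := by
    intro i j
    have := congrFun (congrFun hN i) j
    simp only [Matrix.mul_apply, Matrix.transpose_apply, Matrix.submatrix_apply] at this
    exact this
  -- positivity of G 00 - |b|²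
  have hpos : 0 < G 0 0 - ∑ i, b i ^ 2 := by
    set w : Fin n → ℝ := fun i => -(N⁻¹.mulVec b) i with hw
    have hNw : ∀ k, ∑ i, N k i * w i = - b k := by
      intro k
      have h1 : N.mulVec (N⁻¹.mulVec b) = b := by
        rw [Matrix.mulVec_mulVec, Matrix.mul_nonsing_inv _ hNu, Matrix.one_mulVec]
      have h2 := congrFun h1 k
      simp only [Matrix.mulVec, dotProduct] at h2
      simp only [hw, mul_neg, Finset.sum_neg_distrib]
      rw [neg_inj]
      exact h2
    have hx : (Fin.cons 1 w : Fin (n + 1) → ℝ) ≠ 0 := by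
      intro h
      have := congrFun h 0
      simp at this
    have h := hG.dotProduct_mulVec_pos hx
    have h3 : star (Fin.cons 1 w : Fin (n + 1) → ℝ) ⬝ᵥ (G.mulVec (Fin.cons 1 w)) =
        G 0 0 + 2 * ∑ j, w j * G 0 j.succ + ∑ i, ∑ j, w i * (G i.succ j.succ * w j) := by
      simp only [dotProduct, Matrix.mulVec, Fin.sum_univ_succ, Pi.star_apply, Fin.cons_zero, Fin.cons_succ,
        star_trivial, one_mul, mul_one]
      have e1 : ∀ i : Fin n, w i * (G i.succ 0 + ∑ j : Fin n, G i.succ j.succ * w j) =
          w i * G 0 i.succ + ∑ j, w i * (G i.succ j.succ * w j) := by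
        intro i
        rw [hsym i.succ 0, mul_add, Finset.mul_sum]
      simp only [e1, Finset.sum_add_distrib]
      have e2 : ∑ j : Fin n, G 0 j.succ * w j = ∑ j : Fin n, w j * G 0 j.succ :=
        Finset.sum_congr rfl fun j _ => mul_comm _ _
      rw [e2]; ring
    have h4 : ∑ j, w j * G 0 j.succ = -∑ k, b k ^ 2 := by
      have : ∑ j, w j * G 0 j.succ = ∑ k, b k * ∑ j, N k j * w j := by
        simp only [← hNb', Finset.mul_sum]
        rw [Finset.sum_comm]
        refine Finset.sum_congr rfl fun k _ => Finset.sum_congr rfl fun j _ => by ring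
      rw [this]
      simp only [hNw]
      rw [← Finset.sum_neg_distrib]
      exact Finset.sum_congr rfl fun k _ => by ring
    have h5 : ∑ i, ∑ j, w i * (G i.succ j.succ * w j) = ∑ k, b k ^ 2 := by
      have : ∑ i, ∑ j, w i * (G i.succ j.succ * w j) = ∑ k, (∑ i, N k i * w i) * (∑ j, N k j * w j) := by
        simp only [← hNN, Finset.sum_mul_sum]
        simp only [Finset.sum_mul, Finset.mul_sum]
        have e1 : ∀ i, ∑ j, ∑ k, w i * (N k i * N k j * w j) = ∑ k, ∑ j, w i * (N k i * N k j * w j) :=
          fun i => Finset.sum_comm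
        simp only [e1]
        rw [Finset.sum_comm]
        refine Finset.sum_congr rfl fun k _ => Finset.sum_congr rfl fun i _ =>
          Finset.sum_congr rfl fun j _ => by ring
      rw [this]
      simp only [hNw]
      exact Finset.sum_congr rfl fun k _ => by ring
    rw [h3, h4, h5] at h
    linarith
  set c : ℝ := Real.sqrt (G 0 0 - ∑ i, b i ^ 2) with hc
  have hcp : 0 < c := Real.sqrt_pos.2 hpos
  have hcc : c * c = G 0 0 - ∑ i, b i ^ 2 := Real.mul_self_sqrt hpos.le
  set M : Matrix (Fin (n + 1)) (Fin (n + 1)) ℝ := Matrix.of fun i j =>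
    (Fin.cases (Fin.cases c (fun _ => 0) j) (fun i => Fin.cases (b i) (fun j => N i j) j) i : ℝ) with hM
  have m00 : M 0 0 = c := rfl
  have m0s : ∀ j : Fin n, M 0 j.succ = 0 := fun j => rfl
  have ms0 : ∀ i : Fin n, M i.succ 0 = b i := fun i => rfl
  have mss : ∀ i j : Fin n, M i.succ j.succ = N i j := fun i j => rfl
  have hMM : M.transpose * M = G := by
    ext i j
    simp only [Matrix.mul_apply, Matrix.transpose_apply, Fin.sum_univ_succ]
    refine Fin.cases ?_ (fun i => ?_) i
    · refine Fin.cases ?_ (fun j => ?_) j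
      · simp only [m00, ms0, hcc]
        have : ∑ i, b i * b i = ∑ i, b i ^ 2 := Finset.sum_congr rfl fun i _ => by ring
        rw [this]; ring
      · simp only [m00, m0s, ms0, mss, mul_zero, zero_add]
        rw [← hNb' j]
        exact Finset.sum_congr rfl fun i _ => mul_comm _ _
    · refine Fin.cases ?_ (fun j => ?_) j
      · simp only [m00, m0s, ms0, mss, zero_mul, zero_add]
        rw [hsym i.succ 0, ← hNb' i]
      · simp only [m0s, mss, zero_mul, zero_add]
        exact hNN i j
  have hsub : M.submatrix Fin.succ Fin.succ = N := by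
    ext i j; exact mss i j
  have hdet : M.det = c * N.det := by
    rw [Matrix.det_succ_row_zero, Fin.sum_univ_succ]
    simp only [m00, m0s, Fin.succAbove_zero, hsub]
    simp
  refine ⟨M, hMM, m0s, hcp, ?_, ?_⟩
  · have h1 : M.det * M.det = G.det := by
      rw [← hMM, Matrix.det_mul, Matrix.det_transpose]
    have h2 : 0 < M.det := by rw [hdet]; positivity
    rw [← h1, Real.sqrt_mul_self h2.le]
  · rw [hsub, ← hN, Matrix.det_mul, Matrix.det_transpose, Real.sqrt_mul_self hNd.le]

end

end Pool.Agent.CY.S3b
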