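import Pool.Agent.CY.S3b.Chol

/-!
Module CY-S3b-NearMat: continuity at a positive definite matrix.

PROOF.  All maps `H ↦ det H`, `H ↦ det (H.submatrix succ succ)`, `H ↦ H⁻¹ i j` (near an invertible matrix:
`H⁻¹ = (det H)⁻¹ • adjugate H`), `H ↦ sqrt ..` are continuous at `G`, and `det G > 0`,
`det (G.submatrix succ succ) > 0` (`posDef_sub`).  For the third inequality: `G⁻¹` is positive definite, so
`qf G⁻¹ ξ ≥ c ∑ ξ_i^2` with some `c > 0` (compactness of the sphere, or eigenvalues), while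
`|qf (H⁻¹ - G⁻¹) ξ| ≤ (n+1) * max |H⁻¹ i j - G⁻¹ i j| * ∑ ξ_i^2 ≤ η qf G⁻¹ ξ` for `H` near `G`; so
`qf H⁻¹ ξ ≥ (1 - η) qf G⁻¹ ξ`, and `sqrt det H ≥ (1 - η) sqrt det G`; choose `η` with
`(1 + ε) (1 - η)^2 ≥ 1`.  Use `Filter.Eventually` at `𝓝 G` in the Pi topology of matrices and extract `δ`
(`Metric.eventually_nhds_iff`, sup distance on matrices: `Matrix` has the Pi topology via
`Matrix.topologicalSpace`; or write the statement for functions `Fin (n+1) → Fin (n+1) → ℝ`).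
-/

set_option autoImplicit false
set_option linter.unusedSectionVars false

open scoped Manifold ContDiff Matrix
open MeasureTheory Set Filter Topology

namespace Pool.Agent.CY.S3b

noncomputable section

private theorem qf_eq {m : ℕ} (A : Matrix (Fin m) (Fin m) ℝ) (ξ : Fin m → ℝ) :
    qf A ξ = ξ ⬝ᵥ (A *ᵥ ξ) := by
  simp only [qf, dotProduct, Matrix.mulVec, Finset.mul_sum]
  refine Finset.sum_congr rfl fun i _ => Finset.sum_congr rfl fun j _ => ?_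
  ring

/-- coercivity of the inverse -/
private theorem coercive {n : ℕ} {G : Matrix (Fin (n + 1)) (Fin (n + 1)) ℝ} (hG : G.PosDef) :
    ∃ K : ℝ, 0 < K ∧ ∀ ξ : Fin (n + 1) → ℝ, ∑ i, ξ i ^ 2 ≤ K * qf G⁻¹ ξ := by
  obtain ⟨M, hM, -, -, hdet, -⟩ := exists_chol G hG
  have hMd : 0 < M.det := by rw [hdet]; exact Real.sqrt_pos.2 hG.det_pos
  have hMt : IsUnit M.transpose.det := by rw [Matrix.det_transpose]; exact hMd.ne'.isUnit
  refine ⟨∑ i, ∑ j, M i j ^ 2 + 1, by positivity, fun ξ => ?_⟩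
  set ζ : Fin (n + 1) → ℝ := (M.transpose)⁻¹ *ᵥ ξ with hζ
  have h1 : ξ = M.transpose *ᵥ ζ := by
    rw [hζ, Matrix.mulVec_mulVec, Matrix.mul_nonsing_inv _ hMt, Matrix.one_mulVec]
  have h2 : qf G⁻¹ ξ = ∑ i, ζ i ^ 2 := by
    rw [qf_eq, ← hM, Matrix.mul_inv_rev, ← Matrix.mulVec_mulVec, ← hζ]
    have h3 : ξ ⬝ᵥ (M⁻¹ *ᵥ ζ) = ζ ⬝ᵥ ζ := by
      rw [Matrix.dotProduct_mulVec, ← Matrix.mulVec_transpose, Matrix.transpose_nonsing_inv]
    rw [h3, dotProduct]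
    exact Finset.sum_congr rfl fun i _ => (sq _).symm
  have h4 : ∑ j, ξ j ^ 2 ≤ (∑ i, ∑ j, M i j ^ 2) * ∑ i, ζ i ^ 2 := by
    rw [Finset.sum_comm, Finset.sum_mul]
    refine Finset.sum_le_sum fun j _ => ?_
    have h5 : ξ j = ∑ i, M i j * ζ i := by
      rw [congrFun h1 j]
      simp only [Matrix.mulVec, dotProduct, Matrix.transpose_apply]
    rw [h5]
    exact Finset.sum_mul_sq_le_sq_mul_sq _ _ _
  rw [h2]
  have h6 : 0 ≤ ∑ i, ζ i ^ 2 := Finset.sum_nonneg fun i _ => sq_nonneg _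
  linarith [h4, add_mul (∑ i, ∑ j, M i j ^ 2) 1 (∑ i, ζ i ^ 2)]

private theorem qf_diff {m : ℕ} {A B : Matrix (Fin m) (Fin m) ℝ} {δ : ℝ}
    (h : ∀ i j, |A i j - B i j| ≤ δ) (ξ : Fin m → ℝ) :
    qf B ξ - δ * m * ∑ i, ξ i ^ 2 ≤ qf A ξ := by
  have h1 : qf B ξ - qf A ξ = ∑ i, ∑ j, (B i j - A i j) * (ξ i * ξ j) := by
    simp only [qf, ← Finset.sum_sub_distrib, sub_mul]
  have h2 : ∀ i j, (B i j - A i j) * (ξ i * ξ j) ≤ δ * ((ξ i ^ 2 + ξ j ^ 2) / 2) := by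
    intro i j
    have h3 : (B i j - A i j) * (ξ i * ξ j) ≤ |B i j - A i j| * |ξ i * ξ j| := by
      rw [← abs_mul]; exact le_abs_self _
    have h4 : |ξ i * ξ j| ≤ (ξ i ^ 2 + ξ j ^ 2) / 2 := by
      rw [abs_le]
      constructor <;> nlinarith [sq_nonneg (ξ i - ξ j), sq_nonneg (ξ i + ξ j)]
    have h5 : |B i j - A i j| ≤ δ := by rw [abs_sub_comm]; exact h i j
    have h6 : 0 ≤ |ξ i * ξ j| := abs_nonneg _
    have h7 : 0 ≤ δ := le_trans (abs_nonneg _) h5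
    calc (B i j - A i j) * (ξ i * ξ j) ≤ |B i j - A i j| * |ξ i * ξ j| := h3
      _ ≤ δ * |ξ i * ξ j| := mul_le_mul_of_nonneg_right h5 h6
      _ ≤ δ * ((ξ i ^ 2 + ξ j ^ 2) / 2) := mul_le_mul_of_nonneg_left h4 h7
  have h8 : qf B ξ - qf A ξ ≤ ∑ i : Fin m, ∑ j : Fin m, δ * ((ξ i ^ 2 + ξ j ^ 2) / 2) := by
    rw [h1]
    exact Finset.sum_le_sum fun i _ => Finset.sum_le_sum fun j _ => h2 i j
  have h9 : ∑ i : Fin m, ∑ j : Fin m, δ * ((ξ i ^ 2 + ξ j ^ 2) / 2) = δ * m * ∑ i, ξ i ^ 2 := by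
    have e1 : ∀ i : Fin m, ∑ j : Fin m, δ * ((ξ i ^ 2 + ξ j ^ 2) / 2) =
        δ * (m * ξ i ^ 2 + ∑ j, ξ j ^ 2) / 2 := by
      intro i
      rw [← Finset.mul_sum, ← Finset.sum_div, Finset.sum_add_distrib, Finset.sum_const]
      simp only [Finset.card_univ, Fintype.card_fin, nsmul_eq_mul]
      ring
    rw [Finset.sum_congr rfl fun i _ => e1 i, ← Finset.sum_div, ← Finset.mul_sum,
      Finset.sum_add_distrib, Finset.sum_const, ← Finset.mul_sum]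
    simp only [Finset.card_univ, Fintype.card_fin, nsmul_eq_mul]
    ring
  linarith

private theorem continuousAt_inv {m : ℕ} {G : Matrix (Fin m) (Fin m) ℝ} (hG : G.det ≠ 0) :
    ContinuousAt (fun H : Matrix (Fin m) (Fin m) ℝ => H⁻¹) G := by
  have h1 : (fun H : Matrix (Fin m) (Fin m) ℝ => H⁻¹) = fun H => H.det⁻¹ • H.adjugate := by
    funext H
    rw [Matrix.inv_def, Ring.inverse_eq_inv']
  rw [h1]
  exact ((continuous_id.matrix_det.continuousAt).inv₀ hG).smul (continuous_id.matrix_adjugate.continuousAt)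

private theorem nhds_extract {m : ℕ} {G : Matrix (Fin m) (Fin m) ℝ}
    {P : Matrix (Fin m) (Fin m) ℝ → Prop} (hP : ∀ᶠ H in 𝓝 G, P H) :
    ∃ δ > 0, ∀ H : Matrix (Fin m) (Fin m) ℝ, (∀ i j, |H i j - G i j| < δ) → P H := by
  have h1 : ∀ᶠ H : Fin m → Fin m → ℝ in @nhds (Fin m → Fin m → ℝ) _ G, P H := hP
  obtain ⟨δ, hδ, hball⟩ := Metric.eventually_nhds_iff.1 h1
  refine ⟨δ, hδ, fun H hH => hball (y := H) ?_⟩
  refine (dist_pi_lt_iff hδ).2 fun i => ?_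
  refine (dist_pi_lt_iff hδ).2 fun j => ?_
  rw [Real.dist_eq]
  exact hH i j

theorem near_mat {n : ℕ} {G : Matrix (Fin (n + 1)) (Fin (n + 1)) ℝ} (hG : G.PosDef) {ε : ℝ} (hε : 0 < ε) :
    ∃ δ > 0, ∀ H : Matrix (Fin (n + 1)) (Fin (n + 1)) ℝ, H.PosDef → (∀ i j, |H i j - G i j| < δ) →
      Real.sqrt H.det ≤ (1 + ε) * Real.sqrt G.det ∧
      Real.sqrt (H.submatrix Fin.succ Fin.succ).det ≤
        (1 + ε) * Real.sqrt (G.submatrix Fin.succ Fin.succ).det ∧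
      ∀ ξ : Fin (n + 1) → ℝ, qf G⁻¹ ξ * Real.sqrt G.det ≤
        (1 + ε) * (qf H⁻¹ ξ * Real.sqrt H.det) := by
  obtain ⟨K, hK, hcoer⟩ := coercive hG
  have hd : 0 < G.det := hG.det_pos
  have hd' : 0 < (G.submatrix Fin.succ Fin.succ).det := (posDef_sub hG).det_pos
  have hs : 0 < Real.sqrt G.det := Real.sqrt_pos.2 hd
  have hs' : 0 < Real.sqrt (G.submatrix Fin.succ Fin.succ).det := Real.sqrt_pos.2 hd'
  set η : ℝ := ε / (2 * (1 + ε)) with hη
  have hη0 : 0 < η := by positivity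
  have hη1 : η < 1 := by
    rw [hη, div_lt_one (by positivity)]; linarith
  have hηε : 1 ≤ (1 + ε) * (1 - η) ^ 2 := by
    have h1 : (1 + ε) * (1 - 2 * η) = 1 := by
      rw [hη]; field_simp; ring
    nlinarith [sq_nonneg η]
  set δ' : ℝ := η / ((n + 1 : ℕ) * K) with hδ'
  have hδ0 : 0 < δ' := by positivity
  -- continuity
  have c1 : Continuous fun H : Matrix (Fin (n + 1)) (Fin (n + 1)) ℝ => Real.sqrt H.det :=
    Real.continuous_sqrt.comp continuous_id.matrix_det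
  have c2 : Continuous fun H : Matrix (Fin (n + 1)) (Fin (n + 1)) ℝ =>
      Real.sqrt (H.submatrix Fin.succ Fin.succ).det :=
    Real.continuous_sqrt.comp (continuous_id.matrix_submatrix _ _).matrix_det
  have ev1 : ∀ᶠ H in 𝓝 G, Real.sqrt H.det < (1 + ε) * Real.sqrt G.det :=
    c1.continuousAt.eventually_lt continuousAt_const (by nlinarith)
  have ev2 : ∀ᶠ H in 𝓝 G, (1 - η) * Real.sqrt G.det < Real.sqrt H.det :=
    continuousAt_const.eventually_lt c1.continuousAt (by nlinarith)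
  have ev3 : ∀ᶠ H in 𝓝 G, Real.sqrt (H.submatrix Fin.succ Fin.succ).det <
      (1 + ε) * Real.sqrt (G.submatrix Fin.succ Fin.succ).det :=
    c2.continuousAt.eventually_lt continuousAt_const (by nlinarith)
  have ev4 : ∀ᶠ H in 𝓝 G, ∀ i j, |H⁻¹ i j - G⁻¹ i j| < δ' := by
    rw [eventually_all]; intro i
    rw [eventually_all]; intro j
    have c3 : ContinuousAt (fun H : Matrix (Fin (n + 1)) (Fin (n + 1)) ℝ => |H⁻¹ i j - G⁻¹ i j|) G := by
      have c4 : ContinuousAt (fun H : Matrix (Fin (n + 1)) (Fin (n + 1)) ℝ => H⁻¹ i j) G :=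
        ((continuous_id.matrix_elem i j).continuousAt (x := G⁻¹)).comp (f := fun H => H⁻¹)
          (continuousAt_inv hd.ne')
      exact (c4.sub continuousAt_const).abs
    exact c3.eventually_lt continuousAt_const (by simpa using hδ0)
  have ev := ev1.and (ev2.and (ev3.and ev4))
  obtain ⟨δ, hδ, hball⟩ := nhds_extract ev
  refine ⟨δ, hδ, fun H _ hH => ?_⟩
  obtain ⟨r1, r2, r3, r4⟩ := hball H hH
  refine ⟨r1.le, r3.le, fun ξ => ?_⟩
  have q0 : 0 ≤ qf G⁻¹ ξ := by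
    have h0 : 0 ≤ ∑ i, ξ i ^ 2 := Finset.sum_nonneg fun i _ => sq_nonneg _
    have h1 := hcoer ξ
    by_contra hneg
    push Not at hneg
    nlinarith
  have q1 : (1 - η) * qf G⁻¹ ξ ≤ qf H⁻¹ ξ := by
    have h1 := qf_diff (A := H⁻¹) (B := G⁻¹) (δ := δ') (fun i j => (r4 i j).le) ξ
    have h2 := hcoer ξ
    have h3 : δ' * ((n + 1 : ℕ) : ℝ) * ∑ i, ξ i ^ 2 ≤ η * qf G⁻¹ ξ := by
      calc δ' * ((n + 1 : ℕ) : ℝ) * ∑ i, ξ i ^ 2 ≤ δ' * ((n + 1 : ℕ) : ℝ) * (K * qf G⁻¹ ξ) := by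
            exact mul_le_mul_of_nonneg_left h2 (by positivity)
        _ = η * qf G⁻¹ ξ := by
            rw [hδ']; field_simp
    linarith
  have q2 : (1 - η) * Real.sqrt G.det ≤ Real.sqrt H.det := r2.le
  have q3 : ((1 - η) * qf G⁻¹ ξ) * ((1 - η) * Real.sqrt G.det) ≤ qf H⁻¹ ξ * Real.sqrt H.det := by
    refine mul_le_mul q1 q2 (by have := hs.le; have : 0 ≤ 1 - η := by linarith
                                positivity) ?_
    exact le_trans (mul_nonneg (by linarith) q0) q1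
  have q4 : qf G⁻¹ ξ * Real.sqrt G.det ≤
      (1 + ε) * (((1 - η) * qf G⁻¹ ξ) * ((1 - η) * Real.sqrt G.det)) := by
    have h1 : 0 ≤ qf G⁻¹ ξ * Real.sqrt G.det := mul_nonneg q0 hs.le
    nlinarith [mul_le_mul_of_nonneg_right hηε h1]
  exact q4.trans (mul_le_mul_of_nonneg_left q3 (by linarith))

theorem qf_nonneg {m : ℕ} {A : Matrix (Fin m) (Fin m) ℝ} (hA : A.PosSemidef) (ξ : Fin m → ℝ) :
    0 ≤ qf A ξ := by
  rw [qf_eq]
  simpa using hA.dotProduct_mulVec_nonneg ξ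

end

end Pool.Agent.CY.S3b
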