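import Pool.Agent.CY.S3b.Ex
import Pool.Agent.CY.S3b.NearMat
import Pool.Agent.CY.S3b.Leib

/-!
Module CY-S3b-Cmp: comparison of the norms on `X` with the Euclidean norms in a chart.
-/

set_option autoImplicit false
set_option linter.unusedSectionVars false

open scoped Manifold ContDiff
open MeasureTheory Set Filter Topology

namespace Pool.Agent.CY.S3b

noncomputable section

section aux

theorem qf_pos {m : ℕ} {A : Matrix (Fin m) (Fin m) ℝ} (hA : A.PosDef) {ξ : Fin m → ℝ} (h : ξ ≠ 0) :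
    0 < qf A ξ := by
  have h1 := hA.dotProduct_mulVec_pos h
  have h2 : star ξ ⬝ᵥ A.mulVec ξ = qf A ξ := by
    simp only [dotProduct, Matrix.mulVec, qf, star_trivial, Finset.mul_sum]
    refine Finset.sum_congr rfl fun i _ => Finset.sum_congr rfl fun j _ => by ring
  rw [h2] at h1
  exact h1

theorem qf_smul {m : ℕ} (A : Matrix (Fin m) (Fin m) ℝ) (r : ℝ) (ξ : Fin m → ℝ) :
    qf A (fun i => r * ξ i) = r ^ 2 * qf A ξ := by
  simp only [qf, Finset.mul_sum]
  refine Finset.sum_congr rfl fun i _ => Finset.sum_congr rfl fun j _ => by ring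

theorem pos_lower {α : Type} [TopologicalSpace α] {K : Set α} (hK : IsCompact K) {f : α → ℝ}
    (hf : ContinuousOn f K) (hp : ∀ x ∈ K, 0 < f x) : ∃ c > 0, ∀ x ∈ K, c ≤ f x := by
  rcases K.eq_empty_or_nonempty with h | h
  · exact ⟨1, one_pos, by simp [h]⟩
  · obtain ⟨x0, hx0, hm⟩ := hK.exists_isMinOn h hf
    exact ⟨f x0, hp x0 hx0, fun x hx => hm hx⟩

end aux

variable {n : ℕ} {X : Type} [TopologicalSpace X] [ChartedSpace (EuclideanHalfSpace (n + 1)) X]
  [IsManifold (𝓡∂ (n + 1)) ∞ X] [CompactSpace X] [T2Space X] [MeasurableSpace X] [BorelSpace X]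

theorem cont_sqrt_det (g : Metric n X) {e : OpenPartialHomeomorph X (EuclideanHalfSpace (n + 1))}
    (he : e ∈ atlas (EuclideanHalfSpace (n + 1)) X) :
    ContinuousOn (fun y => Real.sqrt (g.G e y).det) (dom e) :=
  Real.continuous_sqrt.comp_continuousOn (metOn g he).contDiffOn_det.continuousOn

theorem cont_sqrt_det_sub (g : Metric n X) {e : OpenPartialHomeomorph X (EuclideanHalfSpace (n + 1))}
    (he : e ∈ atlas (EuclideanHalfSpace (n + 1)) X) :
    ContinuousOn (fun y => Real.sqrt ((g.G e y).submatrix Fin.succ Fin.succ).det) (dom e) := by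
  refine Real.continuous_sqrt.comp_continuousOn (ContDiffOn.continuousOn (𝕜 := ℝ) (n := 3) ?_)
  exact contDiffOn_det (A := fun y => (g.G e y).submatrix Fin.succ Fin.succ)
    fun i j => g.smooth e he _ _

theorem cont_inv (g : Metric n X) {e : OpenPartialHomeomorph X (EuclideanHalfSpace (n + 1))}
    (he : e ∈ atlas (EuclideanHalfSpace (n + 1)) X) (i j : Fin (n + 1)) :
    ContinuousOn (fun y => (g.G e y)⁻¹ i j) (dom e) :=
  ((metOn g he).contDiffOn_inv i j).continuousOn

/-- Uniform bounds of the metric on a compact subset of the chart domain. -/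
theorem met_bounds (g : Metric n X) {e : OpenPartialHomeomorph X (EuclideanHalfSpace (n + 1))}
    (he : e ∈ atlas (EuclideanHalfSpace (n + 1)) X) {L : Set (V (n + 1))} (hL : IsCompact L)
    (hs : L ⊆ dom e) :
    ∃ c C : ℝ, 0 < c ∧ ∀ y ∈ L, c ≤ Real.sqrt (g.G e y).det ∧ Real.sqrt (g.G e y).det ≤ C ∧
      c ≤ Real.sqrt ((g.G e y).submatrix Fin.succ Fin.succ).det ∧
      Real.sqrt ((g.G e y).submatrix Fin.succ Fin.succ).det ≤ C ∧
      ∀ ξ : Fin (n + 1) → ℝ, c * ∑ i, ξ i ^ 2 ≤ qf (g.G e y)⁻¹ ξ ∧ qf (g.G e y)⁻¹ ξ ≤ C * ∑ i, ξ i ^ 2 := by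
  have hp : ∀ y ∈ L, (g.G e y).PosDef := fun y hy => g.posDef e he y (hs hy)
  have h1 := (cont_sqrt_det g he).mono hs
  have h2 := (cont_sqrt_det_sub g he).mono hs
  obtain ⟨c1, hc1, hc1'⟩ := pos_lower hL h1 fun y hy => Real.sqrt_pos.2 (hp y hy).det_pos
  obtain ⟨c2, hc2, hc2'⟩ := pos_lower hL h2 fun y hy => Real.sqrt_pos.2 (posDef_sub (hp y hy)).det_pos
  obtain ⟨C1, hC1⟩ := hL.exists_bound_of_continuousOn h1
  obtain ⟨C2, hC2⟩ := hL.exists_bound_of_continuousOn h2
  set S : Set (V (n + 1)) := Metric.sphere 0 1 with hS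
  have hSc : IsCompact S := isCompact_sphere 0 1
  let F : V (n + 1) × V (n + 1) → ℝ := fun p => qf (g.G e p.1)⁻¹ (fun i => p.2 i)
  have hF : ContinuousOn F (L ×ˢ S) := by
    simp only [F, qf]
    refine continuousOn_finsetSum _ fun i _ => continuousOn_finsetSum _ fun j _ => ?_
    refine ContinuousOn.mul ?_ ?_
    · exact ((cont_inv g he i j).mono hs).comp continuousOn_fst fun p hp => hp.1
    · exact Continuous.continuousOn (by fun_prop)
  have hSne : ∀ x ∈ S, (fun i => x i) ≠ (0 : Fin (n + 1) → ℝ) := by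
    intro x hx h
    have : x = 0 := by
      ext i
      exact congrFun h i
    rw [hS, mem_sphere_zero_iff_norm, this, norm_zero] at hx
    exact zero_ne_one hx
  obtain ⟨c3, hc3, hc3'⟩ := pos_lower (hL.prod hSc) hF fun p hp' =>
    qf_pos (hp p.1 hp'.1).inv (hSne p.2 hp'.2)
  obtain ⟨C3, hC3⟩ := (hL.prod hSc).exists_bound_of_continuousOn hF
  refine ⟨min (min c1 c2) c3, max (max C1 C2) C3, lt_min (lt_min hc1 hc2) hc3, ?_⟩
  intro y hy
  have h3 : Real.sqrt (g.G e y).det ≤ C1 := (le_abs_self _).trans (hC1 y hy)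
  have h4 : Real.sqrt ((g.G e y).submatrix Fin.succ Fin.succ).det ≤ C2 :=
    (le_abs_self _).trans (hC2 y hy)
  refine ⟨(min_le_left _ _).trans ((min_le_left _ _).trans (hc1' y hy)),
    h3.trans ((le_max_left _ _).trans (le_max_left _ _)),
    (min_le_left _ _).trans ((min_le_right _ _).trans (hc2' y hy)),
    h4.trans ((le_max_right _ _).trans (le_max_left _ _)), ?_⟩
  intro ξ
  by_cases hξ : ξ = 0
  · subst hξ
    simp [qf]
  · set x : V (n + 1) := WithLp.toLp 2 ξ with hx
    have hx0 : x ≠ 0 := by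
      intro h
      apply hξ
      funext i
      have := congrArg (fun z : V (n + 1) => z i) h
      exact this
    have hnx : 0 < ‖x‖ := norm_pos_iff.2 hx0
    have hsq : ‖x‖ ^ 2 = ∑ i, ξ i ^ 2 := by
      rw [EuclideanSpace.norm_sq_eq]
      refine Finset.sum_congr rfl fun i _ => ?_
      rw [Real.norm_eq_abs, sq_abs]
    have hmem : (‖x‖⁻¹ • x) ∈ S := by
      rw [hS, mem_sphere_zero_iff_norm, norm_smul, norm_inv, norm_norm]
      exact inv_mul_cancel₀ hnx.ne'
    have hq : qf (g.G e y)⁻¹ ξ = ‖x‖ ^ 2 * F (y, ‖x‖⁻¹ • x) := by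
      have h5 : (fun i => (‖x‖⁻¹ • x) i) = fun i => ‖x‖⁻¹ * ξ i := by
        funext i
        simp [hx]
      simp only [F]
      rw [h5, qf_smul]
      field_simp
    have h6 := hc3' (y, ‖x‖⁻¹ • x) ⟨hy, hmem⟩
    have h7 := hC3 (y, ‖x‖⁻¹ • x) ⟨hy, hmem⟩
    rw [Real.norm_eq_abs] at h7
    have h8 := (le_abs_self _).trans h7
    rw [hq, ← hsq]
    have hn2 : 0 ≤ ‖x‖ ^ 2 := by positivity
    constructor
    · rw [mul_comm]
      exact mul_le_mul_of_nonneg_left ((min_le_right _ _).trans h6) hn2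
    · rw [mul_comm _ (‖x‖ ^ 2)]
      exact mul_le_mul_of_nonneg_left (h8.trans (le_max_right _ _)) hn2

theorem integrable_cont {μ : Measure X} (hμ : μ univ < ⊤) {F : X → ℝ} (hF : Continuous F) :
    Integrable F μ := by
  have : IsFiniteMeasure μ := ⟨hμ⟩
  exact hF.integrable_of_hasCompactSupport (HasCompactSupport.of_compactSpace F)

/-- Product of a continuous function vanishing off a compact subset of `dom e` with a function continuous
on `dom e`. -/
theorem cont_mul {e : OpenPartialHomeomorph X (EuclideanHalfSpace (n + 1))} {L : Set (V (n + 1))}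
    (hL : IsCompact L) (hs : L ⊆ dom e) {F a : V (n + 1) → ℝ} (hF : ContinuousOn F (Hs n))
    (h0 : ∀ y, y ∉ L → F y = 0) (ha : ContinuousOn a (dom e)) :
    ContinuousOn (fun y => F y * a y) (Hs n) := by
  intro y hy
  by_cases h : y ∈ dom e
  · have h1 : ContinuousWithinAt a (Hs n) y :=
      (ha y h).mono_of_mem_nhdsWithin ((dom_chart e).nhds y h)
    exact (hF y hy).mul h1
  · have h1 : y ∉ L := fun h2 => h (hs h2)
    have h2 : Lᶜ ∈ 𝓝 y := hL.isClosed.isOpen_compl.mem_nhds h1
    have h3 : (fun y => F y * a y) =ᶠ[𝓝[Hs n] y] fun _ => 0 := by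
      filter_upwards [mem_nhdsWithin_of_mem_nhds h2] with z hz
      rw [h0 z hz, zero_mul]
    exact continuousWithinAt_const.congr_of_eventuallyEq h3 (by rw [h0 y h1, zero_mul])

theorem integrable_mul {e : OpenPartialHomeomorph X (EuclideanHalfSpace (n + 1))} {L : Set (V (n + 1))}
    (hL : IsCompact L) (hs : L ⊆ dom e) {F a : V (n + 1) → ℝ} (hF : ContinuousOn F (Hs n))
    (h0 : ∀ y, y ∉ L → F y = 0) (ha : ContinuousOn a (dom e)) :
    IntegrableOn (fun y => F y * a y) (Ho n) := by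
  obtain ⟨R, hR⟩ := hL.isBounded.subset_closedBall 0
  refine integrableOn_Ho (R := R) (cont_mul hL hs hF h0 ha) ?_
  intro y _ hy
  rw [h0 y ?_, zero_mul]
  intro h
  have := hR h
  rw [mem_closedBall_zero_iff] at this
  linarith

theorem CC.cont_pd {v : V (n + 1) → ℝ} (h : CC n v) (i : Fin (n + 1)) :
    ContinuousOn (pd (Hs n) i v) (Hs n) :=
  h.contg.clm_apply continuousOn_const

theorem integrable_qf' (g : Metric n X) {e : OpenPartialHomeomorph X (EuclideanHalfSpace (n + 1))}
    (he : e ∈ atlas (EuclideanHalfSpace (n + 1)) X) {L : Set (V (n + 1))}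
    (hL : IsCompact L) (hs : L ⊆ dom e) {w : V (n + 1) → ℝ} (hw : CC n w)
    (h0 : ∀ i y, y ∉ L → pd (Hs n) i w y = 0) :
    IntegrableOn (fun y => qf (g.G e y)⁻¹ (fun i => pd (Hs n) i w y) *
      Real.sqrt (g.G e y).det) (Ho n) := by
  have h1 : (fun y => qf (g.G e y)⁻¹ (fun i => pd (Hs n) i w y) * Real.sqrt (g.G e y).det) =
      fun y => ∑ i, ∑ j, (pd (Hs n) i w y * pd (Hs n) j w y) *
        ((g.G e y)⁻¹ i j * Real.sqrt (g.G e y).det) := by
    funext y
    simp only [qf, Finset.sum_mul]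
    refine Finset.sum_congr rfl fun i _ => Finset.sum_congr rfl fun j _ => by ring
  rw [h1]
  refine integrable_finsetSum _ fun i _ => integrable_finsetSum _ fun j _ => ?_
  refine integrable_mul hL hs (F := fun y => pd (Hs n) i w y * pd (Hs n) j w y)
    (a := fun y => (g.G e y)⁻¹ i j * Real.sqrt (g.G e y).det)
    ((hw.cont_pd i).mul (hw.cont_pd j)) ?_ ((cont_inv g he i j).mul (cont_sqrt_det g he))
  intro y hy
  show pd (Hs n) i w y * pd (Hs n) j w y = 0
  rw [h0 i y hy, zero_mul]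

theorem cmp (g : Metric n X) (f : Frame g) {e : OpenPartialHomeomorph X (EuclideanHalfSpace (n + 1))}
    (he : e ∈ atlas (EuclideanHalfSpace (n + 1)) X) {η : X → ℝ}
    (hη : ContMDiff (𝓡∂ (n + 1)) 𝓘(ℝ) ∞ η) (hs : tsupport η ⊆ e.source) :
    ∃ C R : ℝ, 0 ≤ C ∧ ∀ u ∈ C1 n X,
      CC n (ex e (fun p => η p * u p)) ∧
      (∀ y, R < ‖y‖ → ex e (fun p => η p * u p) y = 0) ∧
      ∫ p, (η p * u p) ^ 2 ∂(vol g) ≤ C * ∫ y in Ho n, ex e (fun p => η p * u p) y ^ 2 ∧
      ∫ y in Ho n, ex e (fun p => η p * u p) y ^ 2 ≤ C * ∫ p, u p ^ 2 ∂(vol g) ∧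
      ∫ y in Ho n, ‖fderivWithin ℝ (ex e (fun p => η p * u p)) (Hs n) y‖ ^ 2 ≤
        C * (DD (vol g) (f.D u) + ∫ p, u p ^ 2 ∂(vol g)) ∧
      ∫ p, (η p * u p) ^ 2 ∂(bvol g) ≤ C * ∫ z : V n, ex e (fun p => η p * u p) (bd z) ^ 2 := by
  have hηC : η ∈ C1 n X := C1_of_smooth hη
  have hK : IsCompact (tsupport η) := (isClosed_tsupport η).isCompact
  have hL := isCompact_co e hK hs
  have hLs := co_image_sub e hs
  obtain ⟨c, C0, hc, hb⟩ := met_bounds g he hL hLs
  obtain ⟨R, hR⟩ := ex_ball e hK hs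
  obtain ⟨B1, hB1⟩ := isCompact_univ.exists_bound_of_continuousOn (C1_cont hηC).continuousOn
  obtain ⟨B2, hB2⟩ := isCompact_univ.exists_bound_of_continuousOn (continuous_D g f hηC).continuousOn
  set C0' := max C0 0 with hC0'
  have hC0p : 0 ≤ C0' := le_max_right _ _
  set C : ℝ := C0' + B1 ^ 2 / c + (2 * B1 ^ 2 + 2 * B2 ^ 2) / c ^ 2 with hC
  have hCa : C0' ≤ C := by
    have h1 : 0 ≤ B1 ^ 2 / c := by positivity
    have h2 : 0 ≤ (2 * B1 ^ 2 + 2 * B2 ^ 2) / c ^ 2 := by positivity
    linarith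
  have hCb : B1 ^ 2 / c ≤ C := by
    have h2 : 0 ≤ (2 * B1 ^ 2 + 2 * B2 ^ 2) / c ^ 2 := by positivity
    linarith
  have hCc : (2 * B1 ^ 2 + 2 * B2 ^ 2) / c ^ 2 ≤ C := by
    have h1 : 0 ≤ B1 ^ 2 / c := by positivity
    linarith
  refine ⟨C, R, hC0p.trans hCa, fun u hu => ?_⟩
  have huu : (fun p => η p * u p) ∈ C1 n X := C1_mul hηC hu
  have hts : tsupport (fun p => η p * u p) ⊆ tsupport η := tsupport_mul_subset_left
  have hss := hts.trans hs
  have h0 : ∀ p, p ∉ tsupport η → (fun p => η p * u p) p = 0 := by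
    intro p hp
    simp only
    rw [zero_off_tsupport p hp, zero_mul]
  have hw := ex_CC he huu hss
  have hu2 : Integrable (fun p => u p ^ 2) (vol g) :=
    integrable_cont (vol_lt_top g) ((C1_cont hu).pow 2)
  have hI0 : 0 ≤ ∫ y in Ho n, ex e (fun p => η p * u p) y ^ 2 := integral_nonneg fun _ => sq_nonneg _
  have hI1 : 0 ≤ ∫ p, u p ^ 2 ∂(vol g) := integral_nonneg fun _ => sq_nonneg _
  have hI2 : 0 ≤ DD (vol g) (f.D u) := integral_nonneg fun _ => by positivity
  have hI3 : 0 ≤ ∫ z : V n, ex e (fun p => η p * u p) (bd z) ^ 2 := integral_nonneg fun _ => sq_nonneg _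
  refine ⟨hw, fun y hy => hR _ h0 y hy, ?_, ?_, ?_, ?_⟩
  · rw [L2_chart g he huu hss]
    refine le_trans ?_ (mul_le_mul_of_nonneg_right hCa hI0)
    rw [← integral_const_mul]
    refine integral_mono_of_nonneg (Eventually.of_forall fun y => by positivity)
      (hw.int_sq.const_mul _) (Eventually.of_forall fun y => ?_)
    simp only
    by_cases hy : y ∈ co e '' tsupport η
    · rw [mul_comm]
      exact mul_le_mul_of_nonneg_right ((hb y hy).2.1.trans (le_max_left _ _)) (sq_nonneg _)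
    · rw [ex_zero_of e h0 hy]
      simp
  · have h1 : c * ∫ y in Ho n, ex e (fun p => η p * u p) y ^ 2 ≤ B1 ^ 2 * ∫ p, u p ^ 2 ∂(vol g) := by
      have h2 : c * ∫ y in Ho n, ex e (fun p => η p * u p) y ^ 2 ≤ ∫ p, (η p * u p) ^ 2 ∂(vol g) := by
        rw [L2_chart g he huu hss, ← integral_const_mul]
        refine integral_mono_of_nonneg (Eventually.of_forall fun y => by positivity)
          (integrable_mul hL hLs (F := fun y => ex e (fun p => η p * u p) y ^ 2) (hw.contv.pow 2) ?_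
            (cont_sqrt_det g he)) (Eventually.of_forall fun y => ?_)
        · intro y hy
          show ex e (fun p => η p * u p) y ^ 2 = 0
          rw [ex_zero_of e h0 hy]
          simp
        · simp only
          by_cases hy : y ∈ co e '' tsupport η
          · rw [mul_comm (_ ^ 2)]
            exact mul_le_mul_of_nonneg_right (hb y hy).1 (sq_nonneg _)
          · rw [ex_zero_of e h0 hy]
            simp
      refine h2.trans ?_
      rw [← integral_const_mul]
      refine integral_mono_of_nonneg (Eventually.of_forall fun y => sq_nonneg _)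
        (hu2.const_mul _) (Eventually.of_forall fun p => ?_)
      simp only
      rw [mul_pow]
      refine mul_le_mul_of_nonneg_right ?_ (sq_nonneg _)
      have h3 := hB1 p (mem_univ p)
      rw [Real.norm_eq_abs] at h3
      rw [← sq_abs]
      exact pow_le_pow_left₀ (abs_nonneg _) h3 2
    have h4 : ∫ y in Ho n, ex e (fun p => η p * u p) y ^ 2 ≤ B1 ^ 2 / c * ∫ p, u p ^ 2 ∂(vol g) := by
      rw [div_mul_eq_mul_div, le_div_iff₀ hc, mul_comm]
      exact h1
    exact h4.trans (mul_le_mul_of_nonneg_right hCb hI1)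
  · have h1 : c ^ 2 * ∫ y in Ho n, ‖fderivWithin ℝ (ex e (fun p => η p * u p)) (Hs n) y‖ ^ 2 ≤
        (2 * B1 ^ 2 + 2 * B2 ^ 2) * (DD (vol g) (f.D u) + ∫ p, u p ^ 2 ∂(vol g)) := by
      have h2 : c ^ 2 * ∫ y in Ho n, ‖fderivWithin ℝ (ex e (fun p => η p * u p)) (Hs n) y‖ ^ 2 ≤
          DD (vol g) (f.D (fun p => η p * u p)) := by
        rw [DD_chart g f he huu hss, ← integral_const_mul]
        refine integral_mono_of_nonneg (Eventually.of_forall fun y => by positivity)
          (integrable_qf' g he hL hLs hw fun i y hy => pd_ex_zero hK hs h0 i hy)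
          (Eventually.of_forall fun y => ?_)
        simp only
        rw [norm_fderivWithin_sq]
        by_cases hy : y ∈ co e '' tsupport η
        · have h5 := hb y hy
          have h6 := (h5.2.2.2.2 (fun i => pd (Hs n) i (ex e (fun p => η p * u p)) y)).1
          have h7 : 0 ≤ ∑ i, pd (Hs n) i (ex e (fun p => η p * u p)) y ^ 2 :=
            Finset.sum_nonneg fun _ _ => sq_nonneg _
          calc c ^ 2 * ∑ i, pd (Hs n) i (ex e (fun p => η p * u p)) y ^ 2
              = (c * ∑ i, pd (Hs n) i (ex e (fun p => η p * u p)) y ^ 2) * c := by ring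
            _ ≤ _ := mul_le_mul h6 h5.1 hc.le (le_trans (by positivity) h6)
        · have h8 : ∀ i, pd (Hs n) i (ex e (fun p => η p * u p)) y = 0 :=
            fun i => pd_ex_zero hK hs h0 i hy
          simp [h8, qf]
      refine h2.trans ?_
      have h9 : DD (vol g) (f.D (fun p => η p * u p)) ≤
          ∫ p, (2 * B1 ^ 2 * ‖f.D u p‖ ^ 2 + 2 * B2 ^ 2 * u p ^ 2) ∂(vol g) := by
        refine integral_mono_of_nonneg (Eventually.of_forall fun y => by positivity)
          ?_ (Eventually.of_forall fun p => ?_)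
        · refine integrable_cont (vol_lt_top g) ?_
          exact (((continuous_D g f hu).norm.pow 2).const_mul _).add (((C1_cont hu).pow 2).const_mul _)
        · simp only
          rw [D_mul f hηC hu p]
          have h3 := hB1 p (mem_univ p)
          have h4 := hB2 p (mem_univ p)
          have h5 : ‖η p • f.D u p + u p • f.D η p‖ ≤ |η p| * ‖f.D u p‖ + |u p| * ‖f.D η p‖ := by
            refine (norm_add_le _ _).trans ?_
            rw [norm_smul, norm_smul, Real.norm_eq_abs, Real.norm_eq_abs]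
          rw [Real.norm_eq_abs] at h3
          have h6 : |η p| * ‖f.D u p‖ + |u p| * ‖f.D η p‖ ≤ B1 * ‖f.D u p‖ + |u p| * B2 :=
            add_le_add (mul_le_mul_of_nonneg_right h3 (norm_nonneg _))
              (mul_le_mul_of_nonneg_left h4 (abs_nonneg _))
          have h7 := pow_le_pow_left₀ (norm_nonneg _) (h5.trans h6) 2
          refine h7.trans ?_
          have h8 : |u p| ^ 2 = u p ^ 2 := sq_abs _
          nlinarith [sq_nonneg (B1 * ‖f.D u p‖ - |u p| * B2)]
      refine h9.trans ?_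
      have hD2 : Integrable (fun p => ‖f.D u p‖ ^ 2) (vol g) :=
        integrable_cont (vol_lt_top g) ((continuous_D g f hu).norm.pow 2)
      rw [integral_add (hD2.const_mul _) (hu2.const_mul _), integral_const_mul, integral_const_mul]
      change 2 * B1 ^ 2 * DD (vol g) (f.D u) + 2 * B2 ^ 2 * ∫ p, u p ^ 2 ∂(vol g) ≤ _
      nlinarith [mul_nonneg (sq_nonneg B2) hI2, mul_nonneg (sq_nonneg B1) hI1]
    have h4 : ∫ y in Ho n, ‖fderivWithin ℝ (ex e (fun p => η p * u p)) (Hs n) y‖ ^ 2 ≤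
        (2 * B1 ^ 2 + 2 * B2 ^ 2) / c ^ 2 * (DD (vol g) (f.D u) + ∫ p, u p ^ 2 ∂(vol g)) := by
      rw [div_mul_eq_mul_div, le_div_iff₀ (by positivity), mul_comm]
      exact h1
    exact h4.trans (mul_le_mul_of_nonneg_right hCc (add_nonneg hI2 hI1))
  · rw [L2b_chart g he huu hss]
    refine le_trans ?_ (mul_le_mul_of_nonneg_right hCa hI3)
    rw [← integral_const_mul]
    refine integral_mono_of_nonneg (Eventually.of_forall fun y => by positivity)
      (hw.int_bd_sq.const_mul _) (Eventually.of_forall fun z => ?_)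
    simp only
    by_cases hy : bd z ∈ co e '' tsupport η
    · rw [mul_comm]
      exact mul_le_mul_of_nonneg_right ((hb _ hy).2.2.2.1.trans (le_max_left _ _)) (sq_nonneg _)
    · rw [ex_zero_of e h0 hy]
      simp

end

end Pool.Agent.CY.S3b
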