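import Pool.Agent.CY.S3b.Basic

/-!
Module CY-S3b-Ex: extension by zero of coordinate expressions; integrals on `X` in a chart.
-/

set_option autoImplicit false
set_option linter.unusedSectionVars false

open scoped Manifold ContDiff
open MeasureTheory Set Filter Topology

namespace Pool.Agent.CY.S3b

noncomputable section

variable {n : ℕ} {X : Type} [TopologicalSpace X] [ChartedSpace (EuclideanHalfSpace (n + 1)) X]

theorem ex_apply (e : OpenPartialHomeomorph X (EuclideanHalfSpace (n + 1))) (u : X → ℝ) {y : V (n + 1)}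
    (hy : y ∈ dom e) : ex e u y = u (pt e y) := by
  rw [ex, indicator_of_mem hy]; rfl

theorem ex_off (e : OpenPartialHomeomorph X (EuclideanHalfSpace (n + 1))) (u : X → ℝ) {y : V (n + 1)}
    (hy : y ∉ dom e) : ex e u y = 0 := by
  rw [ex, indicator_of_notMem hy]

theorem isCompact_co (e : OpenPartialHomeomorph X (EuclideanHalfSpace (n + 1))) {K : Set X}
    (hK : IsCompact K) (hs : K ⊆ e.source) : IsCompact (co e '' K) :=
  hK.image_of_continuousOn ((continuousOn_co e).mono hs)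

theorem co_image_sub (e : OpenPartialHomeomorph X (EuclideanHalfSpace (n + 1))) {K : Set X}
    (hs : K ⊆ e.source) : co e '' K ⊆ dom e := by
  rintro _ ⟨p, hp, rfl⟩
  exact co_mem_dom e (hs hp)

/-- `ex e u` vanishes off the image of a set off which `u` vanishes. -/
theorem ex_zero_of (e : OpenPartialHomeomorph X (EuclideanHalfSpace (n + 1))) {K : Set X} {u : X → ℝ}
    (h0 : ∀ p, p ∉ K → u p = 0) {y : V (n + 1)} (hy : y ∉ co e '' K) : ex e u y = 0 := by
  by_cases h : y ∈ dom e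
  · rw [ex_apply e u h]
    apply h0
    intro h1
    exact hy ⟨pt e y, h1, co_pt e h⟩
  · exact ex_off e u h

theorem zero_off_tsupport {u : X → ℝ} : ∀ p, p ∉ tsupport u → u p = 0 :=
  fun _ hp => image_eq_zero_of_notMem_tsupport hp

variable [IsManifold (𝓡∂ (n + 1)) ∞ X] [CompactSpace X] [T2Space X]

theorem ex_eventually_zero {e : OpenPartialHomeomorph X (EuclideanHalfSpace (n + 1))} {K : Set X}
    (hK : IsCompact K) (hs : K ⊆ e.source) {u : X → ℝ} (h0 : ∀ p, p ∉ K → u p = 0) {y : V (n + 1)}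
    (hy : y ∉ co e '' K) : ex e u =ᶠ[𝓝 y] fun _ => 0 := by
  have h1 : (co e '' K)ᶜ ∈ 𝓝 y := (isCompact_co e hK hs).isClosed.isOpen_compl.mem_nhds hy
  filter_upwards [h1] with z hz
  exact ex_zero_of e h0 hz

theorem ex_eventuallyEq (e : OpenPartialHomeomorph X (EuclideanHalfSpace (n + 1))) (u : X → ℝ)
    {y : V (n + 1)} (hy : y ∈ dom e) : ex e u =ᶠ[𝓝[Hs n] y] loc e u := by
  filter_upwards [(dom_chart e).nhds y hy] with z hz
  rw [ex_apply e u hz]; rfl

theorem ex_CC {e : OpenPartialHomeomorph X (EuclideanHalfSpace (n + 1))}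
    (he : e ∈ atlas (EuclideanHalfSpace (n + 1)) X) {u : X → ℝ} (hu : u ∈ C1 n X)
    (hs : tsupport u ⊆ e.source) : CC n (ex e u) := by
  have hK : IsCompact (tsupport u) := (isClosed_tsupport u).isCompact
  constructor
  · intro y hy
    by_cases h : y ∈ dom e
    · have h1 : ContDiffOn ℝ 1 (loc e u) (dom e) := contDiffOn_loc (k := 1) he hu
      have h2 : ContDiffWithinAt ℝ 1 (loc e u) (Hs n) y := (dom_chart e).contDiffAt h1 h
      exact h2.congr_of_eventuallyEq (ex_eventuallyEq e u h) (by rw [ex_apply e u h]; rfl)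
    · have h1 : y ∉ co e '' tsupport u := fun h2 => h (co_image_sub e hs h2)
      have h2 := ex_eventually_zero (e := e) hK hs zero_off_tsupport h1
      exact (contDiffWithinAt_const (c := (0 : ℝ))).congr_of_eventuallyEq
        (h2.filter_mono nhdsWithin_le_nhds) h2.eq_of_nhds
  · exact HasCompactSupport.intro (isCompact_co e hK hs) fun y hy => ex_zero_of e zero_off_tsupport hy

/-- `ex e u` vanishes outside a ball depending only on a compact set which contains the support of `u`. -/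
theorem ex_ball (e : OpenPartialHomeomorph X (EuclideanHalfSpace (n + 1))) {K : Set X}
    (hK : IsCompact K) (hs : K ⊆ e.source) :
    ∃ R : ℝ, ∀ u : X → ℝ, (∀ p, p ∉ K → u p = 0) → ∀ y, R < ‖y‖ → ex e u y = 0 := by
  obtain ⟨R, hR⟩ := (isCompact_co e hK hs).isBounded.subset_closedBall 0
  refine ⟨R, fun u h0 y hy => ex_zero_of e h0 fun h => ?_⟩
  have := hR h
  rw [mem_closedBall_zero_iff] at this
  linarith

theorem pd_ex {e : OpenPartialHomeomorph X (EuclideanHalfSpace (n + 1))} (u : X → ℝ) (i : Fin (n + 1))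
    {y : V (n + 1)} (hy : y ∈ dom e) : pd (Hs n) i (ex e u) y = pd (Hs n) i (loc e u) y :=
  (dom_chart e).pd_congr i (fun z hz => by rw [ex_apply e u hz]; rfl) hy

theorem pd_ex_zero {e : OpenPartialHomeomorph X (EuclideanHalfSpace (n + 1))} {K : Set X}
    (hK : IsCompact K) (hs : K ⊆ e.source) {u : X → ℝ} (h0 : ∀ p, p ∉ K → u p = 0) (i : Fin (n + 1))
    {y : V (n + 1)} (hy : y ∉ co e '' K) : pd (Hs n) i (ex e u) y = 0 := by
  have h2 := ex_eventually_zero (e := e) hK hs h0 hy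
  have h3 : ex e u =ᶠ[𝓝[Hs n] y] fun _ => 0 := h2.filter_mono nhdsWithin_le_nhds
  rw [pd, h3.fderivWithin_eq h2.eq_of_nhds]
  simp

theorem pd_ex_off {e : OpenPartialHomeomorph X (EuclideanHalfSpace (n + 1))} {u : X → ℝ}
    (hs : tsupport u ⊆ e.source) (i : Fin (n + 1)) {y : V (n + 1)} (hy : y ∈ Hs n) (hy' : y ∉ dom e) :
    pd (Hs n) i (ex e u) y = 0 :=
  pd_ex_zero (isClosed_tsupport u).isCompact hs zero_off_tsupport i
    fun h2 => hy' (co_image_sub e hs h2)

variable [MeasurableSpace X] [BorelSpace X]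

theorem ex_comp (e : OpenPartialHomeomorph X (EuclideanHalfSpace (n + 1))) (u : X → ℝ) {Φ : ℝ → ℝ}
    (h0 : Φ 0 = 0) (y : V (n + 1)) : ex e (fun p => Φ (u p)) y = Φ (ex e u y) := by
  by_cases h : y ∈ dom e
  · rw [ex_apply e _ h, ex_apply e _ h]
  · rw [ex_off e _ h, ex_off e _ h, h0]

theorem supp_comp {u : X → ℝ} {Φ : ℝ → ℝ} (h0 : Φ 0 = 0) :
    Function.support (fun p => Φ (u p)) ⊆ tsupport u := by
  intro p hp
  apply subset_tsupport u
  intro h
  apply hp
  simp only [h, h0]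

theorem int_vol_comp (g : Metric n X) {e : OpenPartialHomeomorph X (EuclideanHalfSpace (n + 1))}
    (he : e ∈ atlas (EuclideanHalfSpace (n + 1)) X) {u : X → ℝ} (hu : u ∈ C1 n X)
    (hs : tsupport u ⊆ e.source) {Φ : ℝ → ℝ} (hc : Continuous Φ) (h0 : Φ 0 = 0) :
    ∫ p, Φ (u p) ∂(vol g) = ∫ y in Ho n, Φ (ex e u y) * Real.sqrt (g.G e y).det := by
  rw [int_vol g he (Ψ := fun p => Φ (u p)) (hc.comp (C1_cont hu)).measurable ((supp_comp h0).trans hs)]
  refine integral_congr_ae (Filter.Eventually.of_forall fun y => ?_)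
  simp only
  rw [ex_comp e u h0]

theorem int_bvol_comp (g : Metric n X) {e : OpenPartialHomeomorph X (EuclideanHalfSpace (n + 1))}
    (he : e ∈ atlas (EuclideanHalfSpace (n + 1)) X) {u : X → ℝ} (hu : u ∈ C1 n X)
    (hs : tsupport u ⊆ e.source) {Φ : ℝ → ℝ} (hc : Continuous Φ) (h0 : Φ 0 = 0) :
    ∫ p, Φ (u p) ∂(bvol g) = ∫ z : V n, Φ (ex e u (bd z)) * Real.sqrt (tang (g.G e) z).det := by
  rw [int_bvol g he (Ψ := fun p => Φ (u p)) (hc.comp (C1_cont hu)).measurable ((supp_comp h0).trans hs)]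
  refine integral_congr_ae (Filter.Eventually.of_forall fun z => ?_)
  simp only
  rw [ex_comp e u h0]

theorem pp_pos (hn : 2 ≤ n) : 0 < pp n := by
  have : (2 : ℝ) ≤ n := by exact_mod_cast hn
  rw [pp]
  apply div_pos <;> linarith

theorem qq_pos (hn : 2 ≤ n) : 0 < qq n := by
  have : (2 : ℝ) ≤ n := by exact_mod_cast hn
  rw [qq]
  apply div_pos <;> linarith

theorem PP_chart (hn : 2 ≤ n) (g : Metric n X) {e : OpenPartialHomeomorph X (EuclideanHalfSpace (n + 1))}
    (he : e ∈ atlas (EuclideanHalfSpace (n + 1)) X) {u : X → ℝ} (hu : u ∈ C1 n X)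
    (hs : tsupport u ⊆ e.source) :
    PP n (vol g) u =
      (∫ y in Ho n, |ex e u y| ^ pp n * Real.sqrt (g.G e y).det) ^ (2 / pp n) := by
  rw [PP, int_vol_comp g he hu hs (Φ := fun x => |x| ^ pp n)
    (continuous_abs.rpow_const fun _ => Or.inr (pp_pos hn).le)
    (by simp [Real.zero_rpow (pp_pos hn).ne'])]

theorem QQ_chart (hn : 2 ≤ n) (g : Metric n X) {e : OpenPartialHomeomorph X (EuclideanHalfSpace (n + 1))}
    (he : e ∈ atlas (EuclideanHalfSpace (n + 1)) X) {u : X → ℝ} (hu : u ∈ C1 n X)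
    (hs : tsupport u ⊆ e.source) :
    QQ n (bvol g) u =
      (∫ z : V n, |ex e u (bd z)| ^ qq n * Real.sqrt (tang (g.G e) z).det) ^ (2 / qq n) := by
  rw [QQ, int_bvol_comp g he hu hs (Φ := fun x => |x| ^ qq n)
    (continuous_abs.rpow_const fun _ => Or.inr (qq_pos hn).le)
    (by simp [Real.zero_rpow (qq_pos hn).ne'])]

theorem L2_chart (g : Metric n X) {e : OpenPartialHomeomorph X (EuclideanHalfSpace (n + 1))}
    (he : e ∈ atlas (EuclideanHalfSpace (n + 1)) X) {u : X → ℝ} (hu : u ∈ C1 n X)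
    (hs : tsupport u ⊆ e.source) :
    ∫ p, u p ^ 2 ∂(vol g) = ∫ y in Ho n, ex e u y ^ 2 * Real.sqrt (g.G e y).det :=
  int_vol_comp g he hu hs (Φ := fun x => x ^ 2) (by fun_prop) (by simp)

theorem L2b_chart (g : Metric n X) {e : OpenPartialHomeomorph X (EuclideanHalfSpace (n + 1))}
    (he : e ∈ atlas (EuclideanHalfSpace (n + 1)) X) {u : X → ℝ} (hu : u ∈ C1 n X)
    (hs : tsupport u ⊆ e.source) :
    ∫ p, u p ^ 2 ∂(bvol g) = ∫ z : V n, ex e u (bd z) ^ 2 * Real.sqrt (tang (g.G e) z).det :=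
  int_bvol_comp g he hu hs (Φ := fun x => x ^ 2) (by fun_prop) (by simp)

theorem normD_zero (g : Metric n X) (f : Frame g) {u : X → ℝ} (hu : u ∈ C1 n X) {p : X}
    (hp : p ∉ tsupport u) : ‖f.D u p‖ ^ 2 = 0 := by
  rw [normD_chart g f hu (chart_mem_atlas _ p) (mem_chart_source _ p)]
  have h1 : u =ᶠ[𝓝 p] fun _ => 0 := notMem_tsupport_iff_eventuallyEq.1 hp
  have h2 : loc (ch p : OpenPartialHomeomorph X (EuclideanHalfSpace (n + 1))) u
      =ᶠ[𝓝[Hs n] (co (ch p) p)] fun _ => 0 := by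
    have hy : co (ch p) p ∈ dom (ch p : OpenPartialHomeomorph X (EuclideanHalfSpace (n + 1))) :=
      co_mem_dom _ (mem_chart_source _ p)
    have hc : Tendsto (pt (ch p : OpenPartialHomeomorph X (EuclideanHalfSpace (n + 1))))
        (𝓝[dom (ch p : OpenPartialHomeomorph X (EuclideanHalfSpace (n + 1)))] (co (ch p) p)) (𝓝 p) := by
      have := continuousOn_pt (ch p : OpenPartialHomeomorph X (EuclideanHalfSpace (n + 1))) _ hy
      rw [ContinuousWithinAt, pt_co _ (mem_chart_source _ p)] at this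
      exact this
    rw [← (dom_chart (ch p : OpenPartialHomeomorph X (EuclideanHalfSpace (n + 1)))).nhds_eq hy] at hc
    exact hc.eventually h1
  have h3 : ∀ i, pd (Hs n) i (loc (ch p : OpenPartialHomeomorph X (EuclideanHalfSpace (n + 1))) u)
      (co (ch p) p) = 0 := by
    intro i
    rw [pd, h2.fderivWithin_eq (h2.self_of_nhdsWithin (co_mem_Hs _ p))]
    simp
  simp [gip, h3]

theorem DD_chart (g : Metric n X) (f : Frame g) {e : OpenPartialHomeomorph X (EuclideanHalfSpace (n + 1))}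
    (he : e ∈ atlas (EuclideanHalfSpace (n + 1)) X) {u : X → ℝ} (hu : u ∈ C1 n X)
    (hs : tsupport u ⊆ e.source) :
    DD (vol g) (f.D u) =
      ∫ y in Ho n, qf (g.G e y)⁻¹ (fun i => pd (Hs n) i (ex e u) y) * Real.sqrt (g.G e y).det := by
  have hsupp : Function.support (fun p => ‖f.D u p‖ ^ 2) ⊆ e.source := by
    intro p hp
    by_contra h
    exact hp (normD_zero g f hu fun h2 => h (hs h2))
  rw [DD, int_vol g he (Ψ := fun p => ‖f.D u p‖ ^ 2) ((continuous_D g f hu).norm.pow 2).measurable hsupp]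
  refine setIntegral_congr_fun measurableSet_Ho fun y hy => ?_
  congr 1
  by_cases h : y ∈ dom e
  · rw [ex_apply e _ h, normD_chart g f hu he (pt_mem_source e h), co_pt e h, gip, qf]
    simp only [pd_ex u _ h]
  · rw [ex_off e _ h, qf]
    simp only [pd_ex_off hs _ (Ho_subset_Hs hy) h]
    simp

end

end Pool.Agent.CY.S3b
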