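import Pool.Agent.CY.S3b.Main
import Pool.Agent.CY.S3.FinalA

/-!
Project CY, part S3 complete: `isSob` and `hasAI`.
-/

set_option autoImplicit false
set_option linter.unusedSectionVars false

open scoped Manifold ContDiff
open MeasureTheory Set Filter Topology

namespace Pool.Agent.CY

variable {n : ℕ} {X : Type} [TopologicalSpace X] [ChartedSpace (EuclideanHalfSpace (n + 1)) X]
  [IsManifold (𝓡∂ (n + 1)) ∞ X] [CompactSpace X] [T2Space X] [ConnectedSpace X]
  [MeasurableSpace X] [BorelSpace X]

theorem isSob (hn : 2 ≤ n) (g : Metric n X) (f : Frame g) :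
    IsSob n (vol g) (bvol g) (C1 n X) f.D := by
  obtain ⟨h1, h2, h3, h4⟩ := S3b.fields hn g f
  exact isSob_of g f h1 h2 h3 h4

theorem hasAI (hn : 2 ≤ n) (g : Metric n X) (f : Frame g) :
    HasAI n (vol g) (bvol g) (C1 n X) f.D :=
  S3b.hasAI hn g f

end Pool.Agent.CY
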