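import Pool.Agent.CY.S3b.Chol
import Pool.Agent.CY.S3b.ChVar

/-!
Module CY-S3b-Frozen: the sharp half space inequality for a constant metric.

PROOF.  `M` from `exists_chol G`, `d = det M = sqrt (det G) > 0`, `d' = det (M.submatrix succ succ) =
sqrt (det (G.submatrix succ succ)) > 0`.  `M⁻¹` has the same shape: `M⁻¹ 0 j.succ = 0`, `0 < M⁻¹ 0 0`
(from `M * M⁻¹ = 1`: row 0 gives `M 0 0 * M⁻¹ 0 j = δ_{0j}`), `0 < det M⁻¹`.  Put `w x = v (lin M⁻¹ x)`,
`CC n w` by `CC_comp`, and `v x = w (lin M x)` by `lin_lin`.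
`∫_{Ho} |v|^pp * d = ∫_{Ho} |w|^pp` (`int_lin`), `∫ |v (bd z)|^qq * d' = ∫ |w (bd z)|^qq` (`int_lin_bd`),
and for `x ∈ Ho n`: `qf G⁻¹ (fun i => pd i v x) = ∑_k (pd k w (lin M x))^2 = ‖fderivWithin w (lin M x)‖^2`
(`pd_comp_lin`, `G⁻¹ = M⁻¹ * (M⁻¹)^T`, `norm_fderivWithin_sq`), so the right-hand side is
`cn n * ∫_{Ho} ‖Dw‖^2` by `int_lin`.  Apply `halfspace_sharp` to `w`.
-/

set_option autoImplicit false
set_option linter.unusedSectionVars false

open scoped Manifold ContDiff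
open MeasureTheory Set Filter Topology

namespace Pool.Agent.CY.S3b

noncomputable section

theorem frozen {n : ℕ} (hn : 2 ≤ n) {t : ℝ} (ht : t ∈ Icc (0 : ℝ) (Real.pi / 2))
    {G : Matrix (Fin (n + 1)) (Fin (n + 1)) ℝ} (hG : G.PosDef) {v : V (n + 1) → ℝ} (hv : CC n v) :
    amod n t * (∫ x in Ho n, |v x| ^ pp n * Real.sqrt G.det) ^ (2 / pp n) +
      bmod n t * (∫ z : V n, |v (bd z)| ^ qq n * Real.sqrt (G.submatrix Fin.succ Fin.succ).det) ^
        (2 / qq n) ≤
    cn n * ∫ x in Ho n, qf G⁻¹ (fun i => pd (Hs n) i v x) * Real.sqrt G.det := by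
  obtain ⟨M, hMM, h0, hp, hdet, hdet'⟩ := exists_chol G hG
  have hd : 0 < M.det := by rw [hdet]; exact Real.sqrt_pos.2 hG.det_pos
  have hd' : 0 < (M.submatrix Fin.succ Fin.succ).det := by
    rw [hdet']; exact Real.sqrt_pos.2 (posDef_sub hG).det_pos
  have hu : IsUnit M.det := hd.ne'.isUnit
  have hMi : M * M⁻¹ = 1 := Matrix.mul_nonsing_inv _ hu
  have hiM : M⁻¹ * M = 1 := Matrix.nonsing_inv_mul _ hu
  have hrow : ∀ j, M 0 0 * M⁻¹ 0 j = (1 : Matrix (Fin (n + 1)) (Fin (n + 1)) ℝ) 0 j := by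
    intro j
    rw [← hMi, Matrix.mul_apply, Fin.sum_univ_succ]
    simp [h0]
  have h0' : ∀ j : Fin n, M⁻¹ 0 j.succ = 0 := by
    intro j
    have := hrow j.succ
    rw [Matrix.one_apply_ne (Fin.succ_ne_zero j).symm] at this
    exact (mul_eq_zero.1 this).resolve_left hp.ne'
  have hp' : 0 < M⁻¹ 0 0 := by
    have := hrow 0
    rw [Matrix.one_apply_eq] at this
    exact (pos_iff_pos_of_mul_pos (by rw [this]; exact one_pos)).1 hp
  have hdi : 0 < M⁻¹.det := by
    rw [Matrix.det_nonsing_inv, Ring.inverse_eq_inv']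
    exact inv_pos.2 hd
  set w : V (n + 1) → ℝ := fun x => v (lin M⁻¹ x) with hw
  have hwC : CC n w := CC_comp h0' hp' hdi hv
  have hvw : ∀ x, v x = w (lin M x) := fun x => by simp only [hw]; rw [lin_lin _ _ hiM]
  have e1 : ∫ x in Ho n, |v x| ^ pp n * Real.sqrt G.det = ∫ x in Ho n, |w x| ^ pp n := by
    rw [← int_lin h0 hp hd (fun x => |w x| ^ pp n), hdet]
    simp only [hvw]
  have e2 : ∫ z : V n, |v (bd z)| ^ qq n * Real.sqrt (G.submatrix Fin.succ Fin.succ).det =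
      ∫ z : V n, |w (bd z)| ^ qq n := by
    rw [← int_lin_bd h0 hd' (fun x => |w x| ^ qq n), hdet']
    simp only [hvw]
  have e3 : ∫ x in Ho n, qf G⁻¹ (fun i => pd (Hs n) i v x) * Real.sqrt G.det =
      ∫ x in Ho n, ‖fderivWithin ℝ w (Hs n) x‖ ^ 2 := by
    rw [← int_lin h0 hp hd (fun x => ‖fderivWithin ℝ w (Hs n) x‖ ^ 2), hdet]
    refine setIntegral_congr_fun measurableSet_Ho fun x hx => ?_
    congr 1
    rw [norm_fderivWithin_sq]
    have hvf : v = fun x => w (lin M x) := funext hvw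
    have hG1 : G⁻¹ = M⁻¹ * (M⁻¹).transpose := by
      rw [← hMM, Matrix.mul_inv_rev, Matrix.transpose_nonsing_inv]
    have hpd : ∀ i, pd (Hs n) i v x = ∑ k, M k i * pd (Hs n) k w (lin M x) := by
      intro i
      rw [hvf]
      exact pd_comp_lin h0 hp hwC i (Ho_subset_Hs hx)
    set p : Fin (n + 1) → ℝ := fun k => pd (Hs n) k w (lin M x) with hpp
    have hc : ∀ k, ∑ i, M⁻¹ i k * pd (Hs n) i v x = p k := by
      intro k
      simp only [hpd, Finset.mul_sum]
      rw [Finset.sum_comm]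
      have h2 : ∀ l, ∑ i, M⁻¹ i k * (M l i * pd (Hs n) l w (lin M x)) =
          (M * M⁻¹) l k * p l := by
        intro l
        rw [Matrix.mul_apply, Finset.sum_mul]
        exact Finset.sum_congr rfl fun i _ => by simp only [hpp]; ring
      simp only [h2, hMi, Matrix.one_apply]
      simp
    have h3 : qf G⁻¹ (fun i => pd (Hs n) i v x) =
        ∑ k, (∑ i, M⁻¹ i k * pd (Hs n) i v x) * (∑ j, M⁻¹ j k * pd (Hs n) j v x) := by
      simp only [qf, hG1, Matrix.mul_apply, Matrix.transpose_apply, Finset.sum_mul, Finset.mul_sum]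
      have e1 : ∀ i, ∑ j, ∑ k, M⁻¹ i k * M⁻¹ j k * (pd (Hs n) i v x * pd (Hs n) j v x) =
          ∑ k, ∑ j, M⁻¹ i k * M⁻¹ j k * (pd (Hs n) i v x * pd (Hs n) j v x) := fun i => Finset.sum_comm
      simp only [e1]
      rw [Finset.sum_comm]
      refine Finset.sum_congr rfl fun k _ => Finset.sum_congr rfl fun i _ =>
          Finset.sum_congr rfl fun j _ => by ring
    rw [h3]
    simp only [hc]
    exact Finset.sum_congr rfl fun k _ => by simp only [hpp]; ring
  rw [e1, e2, e3]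
  exact halfspace_sharp n hn t ht w hwC.smooth hwC.supp

end

end Pool.Agent.CY.S3b
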