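import Pool.Agent.CY.S1.Half
import Pool.Agent.CY.S3.NormD
import Pool.Agent.CY.S3.IntChart
import Pool.Agent.CY.S5.Met

/-!
Project CY, part S3b (Sobolev inequalities, Rellich, Poincare, asymptotic sharp inequality on `X`):
definitions, and the facts used from the other parts.
-/

set_option autoImplicit false
set_option linter.unusedSectionVars false

open scoped Manifold ContDiff
open MeasureTheory Set Filter Topology

namespace Pool.Agent.CY.S3b

noncomputable section

/-- `C^1` functions with compact support on the closed half space. -/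
structure CC (n : ℕ) (v : V (n + 1) → ℝ) : Prop where
  smooth : ContDiffOn ℝ 1 v (Hs n)
  supp : HasCompactSupport v

variable {n : ℕ} {X : Type} [TopologicalSpace X] [ChartedSpace (EuclideanHalfSpace (n + 1)) X]

/-- The coordinate expression of `u` in the chart `e`, extended by `0`. -/
def ex (e : OpenPartialHomeomorph X (EuclideanHalfSpace (n + 1))) (u : X → ℝ) : V (n + 1) → ℝ :=
  (dom e).indicator (loc e u)

/-- The quadratic form of a matrix. -/
def qf {m : ℕ} (A : Matrix (Fin m) (Fin m) ℝ) (ξ : Fin m → ℝ) : ℝ := ∑ i, ∑ j, A i j * (ξ i * ξ j)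

/-! ### Facts from S1 -/

/-- S1a. -/
theorem halfspace_sharp (n : ℕ) (hn : 2 ≤ n) (t : ℝ) (ht : t ∈ Icc (0 : ℝ) (Real.pi / 2))
    (u : V (n + 1) → ℝ) (hu : ContDiffOn ℝ 1 u (Hs n)) (hc : HasCompactSupport u) :
    amod n t * (∫ x in Ho n, |u x| ^ pp n) ^ (2 / pp n) +
      bmod n t * (∫ z : V n, |u (bd z)| ^ qq n) ^ (2 / qq n) ≤
    cn n * ∫ x in Ho n, ‖fderivWithin ℝ u (Hs n) x‖ ^ 2 :=
  Pool.Agent.CY.halfspace_sharp n hn t ht u hu hc

/-! ### Facts from S3a and S5 -/

variable [IsManifold (𝓡∂ (n + 1)) ∞ X] [CompactSpace X] [T2Space X] [MeasurableSpace X] [BorelSpace X]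

theorem vol_spec (g : Metric n X) : IsVol g (vol g) := Pool.Agent.CY.vol_spec g

theorem bvol_spec (g : Metric n X) : IsBVol g (bvol g) := Pool.Agent.CY.bvol_spec g

theorem vol_lt_top (g : Metric n X) : vol g univ < ⊤ := Pool.Agent.CY.vol_lt_top g

theorem bvol_lt_top (g : Metric n X) : bvol g univ < ⊤ := Pool.Agent.CY.bvol_lt_top g

theorem int_vol (g : Metric n X) {e : OpenPartialHomeomorph X (EuclideanHalfSpace (n + 1))}
    (he : e ∈ atlas (EuclideanHalfSpace (n + 1)) X) {Ψ : X → ℝ} (_hm : Measurable Ψ)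
    (hs : Function.support Ψ ⊆ e.source) :
    ∫ p, Ψ p ∂(vol g) = ∫ y in Ho n, ex e Ψ y * Real.sqrt (g.G e y).det := by
  rw [int_vol_chart g he Ψ hs]
  refine integral_congr_ae (Eventually.of_forall fun y => ?_)
  by_cases h : y ∈ dom e
  · simp only [ex, indicator_of_mem h]
    rfl
  · simp only [ex, indicator_of_notMem h, zero_mul]

theorem int_bvol (g : Metric n X) {e : OpenPartialHomeomorph X (EuclideanHalfSpace (n + 1))}
    (he : e ∈ atlas (EuclideanHalfSpace (n + 1)) X) {Ψ : X → ℝ} (_hm : Measurable Ψ)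
    (hs : Function.support Ψ ⊆ e.source) :
    ∫ p, Ψ p ∂(bvol g) = ∫ z : V n, ex e Ψ (bd z) * Real.sqrt (tang (g.G e) z).det := by
  rw [int_bvol_chart g he Ψ hs]
  refine integral_congr_ae (Eventually.of_forall fun z => ?_)
  by_cases h : z ∈ bdom e
  · have h' : bd z ∈ dom e := h
    simp only [ex, indicator_of_mem h, indicator_of_mem h']
    rfl
  · have h' : bd z ∉ dom e := h
    simp only [ex, indicator_of_notMem h, indicator_of_notMem h', zero_mul]

theorem normD_chart (g : Metric n X) (f : Frame g) {u : X → ℝ} (hu : u ∈ C1 n X)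
    {e : OpenPartialHomeomorph X (EuclideanHalfSpace (n + 1))}
    (he : e ∈ atlas (EuclideanHalfSpace (n + 1)) X) {p : X} (hp : p ∈ e.source) :
    ‖f.D u p‖ ^ 2 = gip (Hs n) (g.G e) (loc e u) (loc e u) (co e p) := by
  rw [norm_D g f u hu p, gip_chart g he hp hu hu]

theorem continuous_D (g : Metric n X) (f : Frame g) {u : X → ℝ} (hu : u ∈ C1 n X) :
    Continuous (f.D u) := f.continuous_D hu

theorem D_sub (g : Metric n X) (f : Frame g) {u v : X → ℝ} (hu : u ∈ C1 n X) (hv : v ∈ C1 n X) :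
    f.D (fun x => u x - v x) = f.D u - f.D v := by
  have h1 : (fun x => u x - v x) = fun x => u x + (-1) * v x := by
    funext x
    ring
  rw [h1, f.D_add hu (C1.smul (-1) hv), f.D_smul (-1) hv, neg_one_smul, sub_eq_add_neg]

theorem metOn (g : Metric n X) {e : OpenPartialHomeomorph X (EuclideanHalfSpace (n + 1))}
    (he : e ∈ atlas (EuclideanHalfSpace (n + 1)) X) : MetOn (dom e) (g.G e) 3 :=
  ⟨g.posDef e he, g.smooth e he⟩

end

end Pool.Agent.CY.S3b
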