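import Pool.Agent.CY.S3b.Near
import Pool.Agent.CY.S3b.Frozen

/-!
Module CY-S3b-LocAI: the sharp inequality with constant `1 + ε` for functions supported near a point.
-/

set_option autoImplicit false
set_option linter.unusedSectionVars false

open scoped Manifold ContDiff
open MeasureTheory Set Filter Topology

namespace Pool.Agent.CY.S3b

noncomputable section

variable {n : ℕ} {X : Type} [TopologicalSpace X] [ChartedSpace (EuclideanHalfSpace (n + 1)) X]
  [IsManifold (𝓡∂ (n + 1)) ∞ X] [CompactSpace X] [T2Space X] [MeasurableSpace X] [BorelSpace X]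

private theorem contOn_pd {w : V (n + 1) → ℝ} (hw : CC n w) (i : Fin (n + 1)) :
    ContinuousOn (fun y => pd (Hs n) i w y) (Hs n) := by
  have h := hw.contg
  exact h.clm_apply continuousOn_const

theorem integrable_qf (g : Metric n X) {e : OpenPartialHomeomorph X (EuclideanHalfSpace (n + 1))}
    (he : e ∈ atlas (EuclideanHalfSpace (n + 1)) X) {u : X → ℝ} (hu : u ∈ C1 n X)
    (hs : tsupport u ⊆ e.source) :
    IntegrableOn (fun y => qf (g.G e y)⁻¹ (fun i => pd (Hs n) i (ex e u) y) *
      Real.sqrt (g.G e y).det) (Ho n) := by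
  have hK : IsCompact (tsupport u) := (isClosed_tsupport u).isCompact
  have hK' : IsCompact (co e '' tsupport u) := isCompact_co e hK hs
  have hsub : co e '' tsupport u ⊆ dom e := co_image_sub e hs
  have hsubH : co e '' tsupport u ⊆ Hs n := by
    rintro _ ⟨q, _, rfl⟩
    exact co_mem_Hs e q
  have hw := ex_CC he hu hs
  have hm := metOn g he
  have hc : ContinuousOn (fun y => qf (g.G e y)⁻¹ (fun i => pd (Hs n) i (ex e u) y) *
      Real.sqrt (g.G e y).det) (co e '' tsupport u) := by
    refine ContinuousOn.mul ?_ ?_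
    · unfold qf
      refine continuousOn_finset_sum _ fun i _ => continuousOn_finset_sum _ fun j _ => ?_
      refine ContinuousOn.mul ((hm.contDiffOn_inv i j).continuousOn.mono hsub) ?_
      exact ((contOn_pd hw i).mono hsubH).mul ((contOn_pd hw j).mono hsubH)
    · exact (hm.contDiffOn_det.continuousOn.mono hsub).sqrt
  have h1 : IntegrableOn (fun y => qf (g.G e y)⁻¹ (fun i => pd (Hs n) i (ex e u) y) *
      Real.sqrt (g.G e y).det) (co e '' tsupport u) := hc.integrableOn_compact hK'
  have h2 : IntegrableOn (fun y => qf (g.G e y)⁻¹ (fun i => pd (Hs n) i (ex e u) y) *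
      Real.sqrt (g.G e y).det) univ := by
    refine h1.of_forall_sdiff_eq_zero MeasurableSet.univ ?_
    intro y hy
    have : ∀ i, pd (Hs n) i (ex e u) y = 0 := fun i =>
      pd_ex_zero hK hs zero_off_tsupport i hy.2
    simp only [this, qf]
    simp
  exact h2.mono_set (subset_univ _)

theorem amod_nonneg (n : ℕ) {t : ℝ} (ht : t ∈ Icc (0 : ℝ) (Real.pi / 2)) : 0 ≤ amod n t := by
  have hom : 0 < om n := by
    unfold om
    have h1 : 0 < Real.Gamma (((n : ℝ) + 1) / 2) := Real.Gamma_pos_of_pos (by positivity)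
    positivity
  have hI : 0 ≤ ∫ s in (0 : ℝ)..t, Real.sin s ^ n := by
    refine intervalIntegral.integral_nonneg ht.1 fun s hs => ?_
    refine pow_nonneg (Real.sin_nonneg_of_nonneg_of_le_pi hs.1 ?_) n
    have := hs.2
    have := ht.2
    have := Real.pi_pos
    linarith
  unfold amod
  positivity

theorem bmod_nonneg (n : ℕ) {t : ℝ} (ht : t ∈ Icc (0 : ℝ) (Real.pi / 2)) : 0 ≤ bmod n t := by
  have hom : 0 < om n := by
    unfold om
    have h1 : 0 < Real.Gamma (((n : ℝ) + 1) / 2) := Real.Gamma_pos_of_pos (by positivity)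
    positivity
  have hc : 0 ≤ Real.cos t := by
    apply Real.cos_nonneg_of_mem_Icc
    exact ⟨by have := ht.1; have := Real.pi_pos; linarith, ht.2⟩
  unfold bmod
  positivity

private theorem rpow_aux {a I J r : ℝ} (ha : 1 ≤ a) (hI : 0 ≤ I) (hJ : 0 ≤ J) (h : J ≤ a * I)
    (h0 : 0 ≤ r) (h1 : r ≤ 1) : J ^ r ≤ a * I ^ r := by
  have ha0 : 0 ≤ a := by linarith
  calc J ^ r ≤ (a * I) ^ r := Real.rpow_le_rpow hJ h h0
    _ = a ^ r * I ^ r := Real.mul_rpow ha0 hI
    _ ≤ a * I ^ r := by
      refine mul_le_mul_of_nonneg_right ?_ (Real.rpow_nonneg hI r)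
      calc a ^ r ≤ a ^ (1:ℝ) := Real.rpow_le_rpow_of_exponent_le ha h1
        _ = a := Real.rpow_one a

theorem loc_ai (hn : 2 ≤ n) (g : Metric n X) (f : Frame g) {t : ℝ} (ht : t ∈ Icc (0 : ℝ) (Real.pi / 2))
    {ε : ℝ} (hε : 0 < ε) (p : X) :
    ∃ U : Set X, IsOpen U ∧ p ∈ U ∧ ∀ u ∈ C1 n X, tsupport u ⊆ U →
      amod n t * PP n (vol g) u + bmod n t * QQ n (bvol g) u ≤
        (1 + ε) * (cn n * DD (vol g) (f.D u)) := by
  set ε' : ℝ := min 1 (ε / 3) with hε'def
  have hε' : 0 < ε' := lt_min one_pos (by positivity)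
  have hε1 : ε' ≤ 1 := min_le_left _ _
  have hε3 : ε' ≤ ε / 3 := min_le_right _ _
  have hsq : (1 + ε') * (1 + ε') ≤ 1 + ε := by nlinarith
  obtain ⟨U, hUo, hpU, hUs, G, hG, hnear⟩ := near g p hε'
  refine ⟨U, hUo, hpU, fun u hu hsU => ?_⟩
  set e : OpenPartialHomeomorph X (EuclideanHalfSpace (n + 1)) := ch p with he_def
  have he : e ∈ atlas (EuclideanHalfSpace (n + 1)) X := chart_mem_atlas _ p
  have hs : tsupport u ⊆ e.source := hsU.trans hUs
  have hK : IsCompact (tsupport u) := (isClosed_tsupport u).isCompact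
  set w := ex e u with hw_def
  have hw : CC n w := ex_CC he hu hs
  have hppos := pp_pos hn
  have hqpos := qq_pos hn
  have hn2 : (2 : ℝ) ≤ n := by exact_mod_cast hn
  -- points where w is nonzero
  have hpt : ∀ y, w y ≠ 0 → pt e y ∈ U ∧ co e (pt e y) = y := by
    intro y hy
    have hd : y ∈ dom e := by
      by_contra h
      exact hy (ex_off e u h)
    have h1 : u (pt e y) ≠ 0 := by
      rw [hw_def, ex_apply e u hd] at hy
      exact hy
    exact ⟨hsU (subset_tsupport u h1), co_pt e hd⟩
  have hGd : 0 ≤ Real.sqrt G.det := Real.sqrt_nonneg _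
  -- claim 1
  have c1 : ∫ y in Ho n, |w y| ^ pp n * Real.sqrt (g.G e y).det ≤
      (1 + ε') * ∫ y in Ho n, |w y| ^ pp n * Real.sqrt G.det := by
    rw [← integral_const_mul]
    refine integral_mono_of_nonneg (Eventually.of_forall fun y => ?_) ?_
      (Eventually.of_forall fun y => ?_)
    · exact mul_nonneg (Real.rpow_nonneg (abs_nonneg _) _) (Real.sqrt_nonneg _)
    · exact ((hw.int_rpow hppos).mul_const _).const_mul _
    · simp only
      by_cases hy : w y = 0
      · rw [hy, abs_zero, Real.zero_rpow hppos.ne']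
        simp
      · obtain ⟨h1, h2⟩ := hpt y hy
        have h3 := (hnear _ h1).1
        rw [h2] at h3
        have h4 : 0 ≤ |w y| ^ pp n := Real.rpow_nonneg (abs_nonneg _) _
        calc |w y| ^ pp n * Real.sqrt (g.G e y).det ≤ |w y| ^ pp n * ((1 + ε') * Real.sqrt G.det) :=
              mul_le_mul_of_nonneg_left h3 h4
          _ = (1 + ε') * (|w y| ^ pp n * Real.sqrt G.det) := by ring
  have c2 : ∫ z : V n, |w (bd z)| ^ qq n * Real.sqrt (tang (g.G e) z).det ≤
      (1 + ε') * ∫ z : V n, |w (bd z)| ^ qq n * Real.sqrt (G.submatrix Fin.succ Fin.succ).det := by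
    rw [← integral_const_mul]
    refine integral_mono_of_nonneg (Eventually.of_forall fun y => ?_) ?_
      (Eventually.of_forall fun z => ?_)
    · exact mul_nonneg (Real.rpow_nonneg (abs_nonneg _) _) (Real.sqrt_nonneg _)
    · exact ((hw.int_bd_rpow hqpos).mul_const _).const_mul _
    · simp only
      by_cases hy : w (bd z) = 0
      · rw [hy, abs_zero, Real.zero_rpow hqpos.ne']
        simp
      · obtain ⟨h1, h2⟩ := hpt (bd z) hy
        have h3 := (hnear _ h1).2.1
        rw [h2] at h3
        have h5 : tang (g.G e) z = (g.G e (bd z)).submatrix Fin.succ Fin.succ := rfl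
        have h4 : 0 ≤ |w (bd z)| ^ qq n := Real.rpow_nonneg (abs_nonneg _) _
        rw [h5]
        calc |w (bd z)| ^ qq n * Real.sqrt ((g.G e (bd z)).submatrix Fin.succ Fin.succ).det
            ≤ |w (bd z)| ^ qq n * ((1 + ε') * Real.sqrt (G.submatrix Fin.succ Fin.succ).det) :=
              mul_le_mul_of_nonneg_left h3 h4
          _ = (1 + ε') * (|w (bd z)| ^ qq n * Real.sqrt (G.submatrix Fin.succ Fin.succ).det) := by
            ring
  have c3 : ∫ y in Ho n, qf G⁻¹ (fun i => pd (Hs n) i w y) * Real.sqrt G.det ≤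
      (1 + ε') * ∫ y in Ho n, qf (g.G e y)⁻¹ (fun i => pd (Hs n) i w y) *
        Real.sqrt (g.G e y).det := by
    rw [← integral_const_mul]
    refine integral_mono_of_nonneg (Eventually.of_forall fun y => ?_) ?_
      (Eventually.of_forall fun y => ?_)
    · exact mul_nonneg (qf_nonneg hG.inv.posSemidef _) (Real.sqrt_nonneg _)
    · exact (integrable_qf g he hu hs).const_mul _
    · simp only
      by_cases hy : y ∈ co e '' tsupport u
      · obtain ⟨q, hq, rfl⟩ := hy
        exact (hnear q (hsU hq)).2.2 _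
      · have h0 : ∀ i, pd (Hs n) i w y = 0 := fun i =>
          pd_ex_zero hK hs zero_off_tsupport i hy
        simp only [h0, qf]
        simp
  have hPP := PP_chart hn g he hu hs
  have hQQ := QQ_chart hn g he hu hs
  have hDD := DD_chart g f he hu hs
  have hfr := frozen hn ht hG hw
  have ha := amod_nonneg n ht
  have hb := bmod_nonneg n ht
  have hcn : 0 ≤ cn n := by
    unfold cn
    apply div_nonneg <;> linarith
  have p1 : PP n (vol g) u ≤ (1 + ε') * (∫ x in Ho n, |w x| ^ pp n * Real.sqrt G.det) ^ (2 / pp n) := by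
    rw [hPP]
    refine rpow_aux (by linarith) ?_ ?_ c1 (by positivity) ?_
    · exact integral_nonneg fun y => mul_nonneg (Real.rpow_nonneg (abs_nonneg _) _) hGd
    · exact integral_nonneg fun y =>
        mul_nonneg (Real.rpow_nonneg (abs_nonneg _) _) (Real.sqrt_nonneg _)
    · rw [div_le_one hppos]
      unfold pp
      rw [le_div_iff₀ (by linarith)]
      linarith
  have p2 : QQ n (bvol g) u ≤ (1 + ε') * (∫ z : V n, |w (bd z)| ^ qq n *
      Real.sqrt (G.submatrix Fin.succ Fin.succ).det) ^ (2 / qq n) := by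
    rw [hQQ]
    refine rpow_aux (by linarith) ?_ ?_ c2 (by positivity) ?_
    · exact integral_nonneg fun y =>
        mul_nonneg (Real.rpow_nonneg (abs_nonneg _) _) (Real.sqrt_nonneg _)
    · exact integral_nonneg fun y =>
        mul_nonneg (Real.rpow_nonneg (abs_nonneg _) _) (Real.sqrt_nonneg _)
    · rw [div_le_one hqpos]
      unfold qq
      rw [le_div_iff₀ (by linarith)]
      linarith
  have hDD0 : 0 ≤ DD (vol g) (f.D u) := by
    unfold DD
    exact integral_nonneg fun x => by positivity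
  set I1 := (∫ x in Ho n, |w x| ^ pp n * Real.sqrt G.det) ^ (2 / pp n)
  set I2 := (∫ z : V n, |w (bd z)| ^ qq n *
      Real.sqrt (G.submatrix Fin.succ Fin.succ).det) ^ (2 / qq n)
  rw [← hDD] at c3
  set L := ∫ y in Ho n, qf G⁻¹ (fun i => pd (Hs n) i w y) * Real.sqrt G.det
  calc amod n t * PP n (vol g) u + bmod n t * QQ n (bvol g) u
      ≤ amod n t * ((1 + ε') * I1) + bmod n t * ((1 + ε') * I2) :=
        add_le_add (mul_le_mul_of_nonneg_left p1 ha) (mul_le_mul_of_nonneg_left p2 hb)
    _ = (1 + ε') * (amod n t * I1 + bmod n t * I2) := by ring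
    _ ≤ (1 + ε') * (cn n * L) := mul_le_mul_of_nonneg_left hfr (by linarith)
    _ ≤ (1 + ε') * (cn n * ((1 + ε') * DD (vol g) (f.D u))) := by
        refine mul_le_mul_of_nonneg_left ?_ (by linarith)
        exact mul_le_mul_of_nonneg_left c3 hcn
    _ = ((1 + ε') * (1 + ε')) * (cn n * DD (vol g) (f.D u)) := by ring
    _ ≤ (1 + ε) * (cn n * DD (vol g) (f.D u)) :=
        mul_le_mul_of_nonneg_right hsq (mul_nonneg hcn hDD0)

end

end Pool.Agent.CY.S3b
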