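import Pool.Agent.CY.S3b.Basic

/-!
Module CY-S3b-PoinConv: Poincare inequality (double integral form) on convex subsets of the half space.

PROOF.  `m = n + 1`, `Dv = fderivWithin ℝ v (Hs n)` (continuous and bounded on `Hs n`).  For `x, y ∈ W` the
segment lies in `W ⊆ Hs n`, so `v x - v y = ∫_0^1 Dv (y + s (x - y)) (x - y) ds` (derivative of
`s ↦ v (y + s (x - y))` within `[0, 1]`; `v` is differentiable within `Hs n`) and by Cauchy-Schwarz
`(v x - v y)^2 ≤ R^2 ∫_0^1 ‖Dv (y + s (x - y))‖^2 ds`.  Split `[0,1]` at `1/2`.  For `s ∈ [1/2, 1]` and `y`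
fixed, the map `x ↦ y + s (x - y)` is a homothety with ratio `s` which maps `W` into `W`, so
`∫_{x ∈ W} ‖Dv (y + s (x - y))‖^2 = s^{-m} ∫_{y + s (W - y)} ‖Dv‖^2 ≤ 2^m ∫_W ‖Dv‖^2`
(`Measure.addHaar_image_homothety` / `integral_comp_smul`).  For `s ≤ 1/2` exchange the roles of `x`, `y`
(ratio `1 - s`).  Fubini for the integral in `s` (everything is bounded and continuous on
`W × W × [0, 1]`; extend by `0`; it may be convenient to work with `lintegral` / `ENNReal.ofReal` and
Tonelli).  The volume of `W` is finite since `W` has diameter at most `R` (if `W` is empty everything is `0`).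
Total constant `2 * (1/2) * 2^m`, so there is room.
-/

set_option autoImplicit false
set_option linter.unusedSectionVars false

open scoped Manifold ContDiff
open MeasureTheory Set Filter Topology

namespace Pool.Agent.CY.S3b

noncomputable section

variable {n : ℕ}

/-- Pointwise estimate along the segment. -/
private theorem seg_bound {W : Set (V (n + 1))} (hW : Convex ℝ W) (hs : W ⊆ Hs n)
    {R : ℝ} (hR : ∀ x ∈ W, ∀ y ∈ W, ‖x - y‖ ≤ R) {v : V (n + 1) → ℝ} (hv : CC n v)
    {x y : V (n + 1)} (hx : x ∈ W) (hy : y ∈ W) :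
    (v x - v y) ^ 2 ≤
      R ^ 2 * ∫ s in (0 : ℝ)..1, ‖fderivWithin ℝ v (Hs n) (s • x + (1 - s) • y)‖ ^ 2 := by
  have hmem : ∀ s ∈ Icc (0 : ℝ) 1, s • x + (1 - s) • y ∈ W := fun s h =>
    hW hx hy h.1 (by linarith [h.2]) (by ring)
  have hcg : Continuous fun s : ℝ => s • x + (1 - s) • y := by fun_prop
  have hmaps : MapsTo (fun s : ℝ => s • x + (1 - s) • y) (Icc (0 : ℝ) 1) (Hs n) := fun s h => hs (hmem s h)
  have hcD : ContinuousOn (fun s : ℝ => fderivWithin ℝ v (Hs n) (s • x + (1 - s) • y)) (Icc (0 : ℝ) 1) :=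
    hv.contg.comp hcg.continuousOn hmaps
  set h : ℝ → ℝ := fun s => fderivWithin ℝ v (Hs n) (s • x + (1 - s) • y) (x - y) with hh
  have hch : ContinuousOn h (Icc (0 : ℝ) 1) := hcD.clm_apply continuousOn_const
  have hcv : ContinuousOn (fun s : ℝ => v (s • x + (1 - s) • y)) (Icc (0 : ℝ) 1) :=
    hv.contv.comp hcg.continuousOn hmaps
  have hint : IntervalIntegrable h volume 0 1 := by
    apply ContinuousOn.intervalIntegrable
    rwa [uIcc_of_le zero_le_one]
  have hintc : ∀ c : ℝ, IntervalIntegrable (fun s => (h s - c) ^ 2) volume 0 1 := by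
    intro c
    apply ContinuousOn.intervalIntegrable
    rw [uIcc_of_le zero_le_one]
    exact (hch.sub continuousOn_const).pow 2
  have hint2 : IntervalIntegrable (fun s => (h s) ^ 2) volume 0 1 := by
    apply ContinuousOn.intervalIntegrable
    rw [uIcc_of_le zero_le_one]
    exact hch.pow 2
  have hftc : ∫ s in (0 : ℝ)..1, h s = v x - v y := by
    have := intervalIntegral.integral_eq_sub_of_hasDerivAt_of_le (a := 0) (b := 1) zero_le_one hcv
      (f' := h) (fun s hs' => ?_) hint
    · rw [this]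
      simp
    · have hnb : Icc (0 : ℝ) 1 ∈ 𝓝 s := Icc_mem_nhds hs'.1 hs'.2
      have hd1 : HasDerivAt (fun s : ℝ => s • x + (1 - s) • y) (x - y) s := by
        have h1 : HasDerivAt (fun s : ℝ => s • x) ((1 : ℝ) • x) s := (hasDerivAt_id s).smul_const x
        have h2 : HasDerivAt (fun s : ℝ => (1 - s) • y) ((-1 : ℝ) • y) s :=
          ((hasDerivAt_id s).const_sub 1).smul_const y
        have h3 := h1.add h2
        have e : (1 : ℝ) • x + (-1 : ℝ) • y = x - y := by simp [sub_eq_add_neg]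
        rw [e] at h3
        exact h3
      have hdv : HasFDerivWithinAt v (fderivWithin ℝ v (Hs n) (s • x + (1 - s) • y)) (Hs n)
          (s • x + (1 - s) • y) :=
        ((hv.smooth.differentiableOn one_ne_zero) _ (hs (hmem s ⟨hs'.1.le, hs'.2.le⟩))).hasFDerivWithinAt
      have hcomp := hdv.comp_hasDerivWithinAt s (hd1.hasDerivWithinAt (s := Icc (0 : ℝ) 1)) hmaps
      exact hcomp.hasDerivAt hnb
  have hjen : (v x - v y) ^ 2 ≤ ∫ s in (0 : ℝ)..1, (h s) ^ 2 := by
    have h0 : 0 ≤ ∫ s in (0 : ℝ)..1, (h s - (v x - v y)) ^ 2 :=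
      intervalIntegral.integral_nonneg zero_le_one (fun s _ => sq_nonneg _)
    have e : ∫ s in (0 : ℝ)..1, (h s - (v x - v y)) ^ 2 =
        (∫ s in (0 : ℝ)..1, (h s) ^ 2) - 2 * (v x - v y) * (∫ s in (0 : ℝ)..1, h s) + (v x - v y) ^ 2 := by
      have e1 : (fun s => (h s - (v x - v y)) ^ 2) =
          fun s => ((h s) ^ 2 - 2 * (v x - v y) * h s) + (v x - v y) ^ 2 := by
        funext s; ring
      rw [e1, intervalIntegral.integral_add (hint2.sub (hint.const_mul _)) (by simp),
        intervalIntegral.integral_sub hint2 (hint.const_mul _), intervalIntegral.integral_const_mul]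
      simp
    rw [e, hftc] at h0
    nlinarith
  have hD2 : IntervalIntegrable
      (fun s : ℝ => ‖fderivWithin ℝ v (Hs n) (s • x + (1 - s) • y)‖ ^ 2) volume 0 1 := by
    apply ContinuousOn.intervalIntegrable
    rw [uIcc_of_le zero_le_one]
    exact hcD.norm.pow 2
  refine hjen.trans ?_
  rw [← intervalIntegral.integral_const_mul]
  apply intervalIntegral.integral_mono_on zero_le_one hint2 (hD2.const_mul _)
  intro s _
  have h1 : |h s| ≤ ‖fderivWithin ℝ v (Hs n) (s • x + (1 - s) • y)‖ * R := by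
    have := (fderivWithin ℝ v (Hs n) (s • x + (1 - s) • y)).le_opNorm (x - y)
    exact (by simpa [hh] using this.trans (mul_le_mul_of_nonneg_left (hR x hx y hy) (norm_nonneg _)))
  calc (h s) ^ 2 = |h s| ^ 2 := (sq_abs _).symm
    _ ≤ (‖fderivWithin ℝ v (Hs n) (s • x + (1 - s) • y)‖ * R) ^ 2 :=
        pow_le_pow_left₀ (abs_nonneg _) h1 2
    _ = _ := by ring

/-- Change of variables for a homothety in the whole space. -/
private theorem lint_affine {m : ℕ} (g : V m → ENNReal) {c : ℝ} (hc : 1 / 2 ≤ c) (b : V m) :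
    ∫⁻ y, g (c • y + b) ≤ 2 ^ m * ∫⁻ y, g y := by
  have hc0 : 0 < c := by linarith
  have h1 : ∫⁻ y, g (c • y + b) = ∫⁻ y, g (c • y) := by
    have : (fun y : V m => g (c • y + b)) = fun y => (fun z => g (c • z)) (y + c⁻¹ • b) := by
      funext y
      simp only [smul_add, smul_smul, mul_inv_cancel₀ hc0.ne', one_smul]
    rw [this]
    exact lintegral_add_right_eq_self (fun z => g (c • z)) (c⁻¹ • b)
  rw [h1]
  have hme : MeasurableEmbedding (fun y : V m => c • y) :=
    (Homeomorph.smulOfNeZero c hc0.ne').measurableEmbedding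
  have h2 : ∫⁻ y, g (c • y) = ∫⁻ z, g z ∂(Measure.map (fun y : V m => c • y) volume) :=
    (hme.lintegral_map g).symm
  rw [h2, Measure.map_addHaar_smul volume hc0.ne', lintegral_smul_measure]
  have hfr : Module.finrank ℝ (V m) = m := by simp
  rw [hfr, smul_eq_mul]
  gcongr
  have h3 : |(c ^ m)⁻¹| ≤ 2 ^ m := by
    rw [abs_of_pos (by positivity)]
    rw [← inv_pow]
    apply pow_le_pow_left₀ (by positivity)
    rw [inv_le_comm₀ hc0 (by norm_num)]
    linarith
  calc ENNReal.ofReal |(c ^ m)⁻¹| ≤ ENNReal.ofReal (2 ^ m) := ENNReal.ofReal_le_ofReal h3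
    _ = 2 ^ m := by rw [ENNReal.ofReal_pow (by norm_num)]; simp

theorem poin_convex {W : Set (V (n + 1))} (hW : Convex ℝ W) (hm : MeasurableSet W) (hs : W ⊆ Hs n)
    {R : ℝ} (hR : ∀ x ∈ W, ∀ y ∈ W, ‖x - y‖ ≤ R) {v : V (n + 1) → ℝ} (hv : CC n v) :
    ∫ x in W, ∫ y in W, (v x - v y) ^ 2 ≤
      2 ^ (n + 2) * R ^ 2 * (volume W).toReal * ∫ x in W, ‖fderivWithin ℝ v (Hs n) x‖ ^ 2 := by
  set G : V (n + 1) → ℝ := fun x => ‖fderivWithin ℝ v (Hs n) x‖ ^ 2 with hG
  have hG0 : ∀ x, 0 ≤ G x := fun x => by positivity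
  have hGc : ContinuousOn G (Hs n) := hv.contg.norm.pow 2
  obtain ⟨C, R', -, -, -, hz⟩ := hv.bound
  have hGint : IntegrableOn G W :=
    integrableOn_sub hGc (R := R') (fun x _ hx => by simp [hG, (hz x hx).2]) hs hm
  -- the volume is finite
  have hfin : volume W < ⊤ := by
    rcases W.eq_empty_or_nonempty with rfl | ⟨x0, hx0⟩
    · simp
    · have : W ⊆ Metric.closedBall x0 R := fun x hx => by
        rw [Metric.mem_closedBall, dist_eq_norm]
        exact hR x hx x0 hx0
      exact (measure_mono this).trans_lt Metric.isBounded_closedBall.measure_lt_top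
  have hRHS : 0 ≤ 2 ^ (n + 2) * R ^ 2 * (volume W).toReal * ∫ x in W, G x := by
    have : 0 ≤ ∫ x in W, G x := integral_nonneg fun x => hG0 x
    positivity
  rw [← ENNReal.ofReal_le_ofReal_iff hRHS]
  -- the function on the whole space
  set g : V (n + 1) → ENNReal := W.indicator (fun x => ENNReal.ofReal (G x)) with hg
  have hgm : Measurable g := by
    have h1 : Measurable (W.indicator G) := by
      classical
      have h := (hGc.mono hs).measurable_piecewise (g := fun _ => (0 : ℝ)) continuousOn_const hm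
      have e : W.piecewise G (fun _ => (0 : ℝ)) = W.indicator G := by
        funext x
        by_cases hx : x ∈ W
        · rw [Set.piecewise_eq_of_mem _ _ _ hx, indicator_of_mem hx]
        · rw [Set.piecewise_eq_of_notMem _ _ _ hx, indicator_of_notMem hx]
      rwa [e] at h
    have h2 : g = fun x => ENNReal.ofReal (W.indicator G x) := by
      funext x
      by_cases hx : x ∈ W
      · simp [hg, hx]
      · simp [hg, hx]
    rw [h2]
    exact h1.ennreal_ofReal
  have hgint : ∫⁻ x, g x = ENNReal.ofReal (∫ x in W, G x) := by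
    rw [hg, lintegral_indicator hm, ofReal_integral_eq_lintegral_ofReal hGint
      (Filter.Eventually.of_forall hG0)]
  -- pointwise
  have hpt : ∀ x ∈ W, ∀ y ∈ W, ENNReal.ofReal ((v x - v y) ^ 2) ≤
      ENNReal.ofReal (R ^ 2) * ∫⁻ s in Ioc (0 : ℝ) 1, g (s • x + (1 - s) • y) := by
    intro x hx y hy
    have h1 := seg_bound hW hs hR hv hx hy
    have hmem : ∀ s ∈ Ioc (0 : ℝ) 1, s • x + (1 - s) • y ∈ W := fun s h =>
      hW hx hy h.1.le (by linarith [h.2]) (by ring)
    refine (ENNReal.ofReal_le_ofReal h1).trans ?_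
    rw [ENNReal.ofReal_mul (sq_nonneg R), intervalIntegral.integral_of_le zero_le_one]
    gcongr
    calc ENNReal.ofReal (∫ s in Ioc (0 : ℝ) 1, ‖fderivWithin ℝ v (Hs n) (s • x + (1 - s) • y)‖ ^ 2)
        = ‖∫ s in Ioc (0 : ℝ) 1, ‖fderivWithin ℝ v (Hs n) (s • x + (1 - s) • y)‖ ^ 2‖ₑ := by
          rw [Real.enorm_eq_ofReal (integral_nonneg fun s => by positivity)]
      _ ≤ ∫⁻ s in Ioc (0 : ℝ) 1, ‖‖fderivWithin ℝ v (Hs n) (s • x + (1 - s) • y)‖ ^ 2‖ₑ :=
          enorm_integral_le_lintegral_enorm _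
      _ = ∫⁻ s in Ioc (0 : ℝ) 1, g (s • x + (1 - s) • y) := by
          apply setLIntegral_congr_fun measurableSet_Ioc
          intro s hs'
          simp only [hg, indicator_of_mem (hmem s hs'), hG]
          rw [Real.enorm_eq_ofReal (by positivity)]
  -- the main estimate for fixed s
  have hsl : ∀ s : ℝ, ∫⁻ x in W, ∫⁻ y in W, g (s • x + (1 - s) • y) ≤
      volume W * (2 ^ (n + 1) * ∫⁻ z, g z) := by
    intro s
    rcases le_total s (1 / 2) with h | h
    · have h1 : ∀ x, ∫⁻ y in W, g (s • x + (1 - s) • y) ≤ 2 ^ (n + 1) * ∫⁻ z, g z := by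
        intro x
        refine (setLIntegral_le_lintegral W _).trans ?_
        have := lint_affine g (c := 1 - s) (by linarith) (s • x)
        simpa [add_comm] using this
      calc ∫⁻ x in W, ∫⁻ y in W, g (s • x + (1 - s) • y)
          ≤ ∫⁻ x in W, 2 ^ (n + 1) * ∫⁻ z, g z := lintegral_mono fun x => h1 x
        _ = _ := by rw [setLIntegral_const]; ring
    · have hjm : Measurable (fun p : V (n + 1) × V (n + 1) => g (s • p.1 + (1 - s) • p.2)) := by
        apply hgm.comp
        fun_prop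
      rw [lintegral_lintegral_swap hjm.aemeasurable]
      have h1 : ∀ y, ∫⁻ x in W, g (s • x + (1 - s) • y) ≤ 2 ^ (n + 1) * ∫⁻ z, g z := by
        intro y
        refine (setLIntegral_le_lintegral W _).trans ?_
        exact lint_affine g (c := s) (by linarith) ((1 - s) • y)
      calc ∫⁻ y in W, ∫⁻ x in W, g (s • x + (1 - s) • y)
          ≤ ∫⁻ y in W, 2 ^ (n + 1) * ∫⁻ z, g z := lintegral_mono fun x => h1 x
        _ = _ := by rw [setLIntegral_const]; ring
  have hjoint : Measurable (fun p : V (n + 1) × (V (n + 1) × ℝ) =>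
      g (p.2.2 • p.1 + (1 - p.2.2) • p.2.1)) := by
    apply hgm.comp
    fun_prop
  have hfub : ∫⁻ x in W, ∫⁻ y in W, ∫⁻ s in Ioc (0 : ℝ) 1, g (s • x + (1 - s) • y) =
      ∫⁻ s in Ioc (0 : ℝ) 1, ∫⁻ x in W, ∫⁻ y in W, g (s • x + (1 - s) • y) := by
    have e1 : ∀ x, ∫⁻ y in W, ∫⁻ s in Ioc (0 : ℝ) 1, g (s • x + (1 - s) • y) =
        ∫⁻ s in Ioc (0 : ℝ) 1, ∫⁻ y in W, g (s • x + (1 - s) • y) := by
      intro x
      apply lintegral_lintegral_swap
      have : Measurable (fun p : V (n + 1) × ℝ => g (p.2 • x + (1 - p.2) • p.1)) := by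
        apply hgm.comp
        fun_prop
      exact this.aemeasurable
    simp_rw [e1]
    apply lintegral_lintegral_swap
    have hm3 : Measurable (fun p : (V (n + 1) × ℝ) × V (n + 1) =>
        g (p.1.2 • p.1.1 + (1 - p.1.2) • p.2)) := by
      apply hgm.comp
      fun_prop
    exact (hm3.lintegral_prod_right' (ν := volume.restrict W)).aemeasurable
  have htot : ∫⁻ x in W, ∫⁻ y in W, ENNReal.ofReal ((v x - v y) ^ 2) ≤
      ENNReal.ofReal (R ^ 2) * (volume W * (2 ^ (n + 1) * ∫⁻ z, g z)) := by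
    calc ∫⁻ x in W, ∫⁻ y in W, ENNReal.ofReal ((v x - v y) ^ 2)
        ≤ ∫⁻ x in W, ∫⁻ y in W,
            ENNReal.ofReal (R ^ 2) * ∫⁻ s in Ioc (0 : ℝ) 1, g (s • x + (1 - s) • y) := by
          apply setLIntegral_mono' hm
          intro x hx
          apply setLIntegral_mono' hm
          intro y hy
          exact hpt x hx y hy
      _ = ENNReal.ofReal (R ^ 2) *
            ∫⁻ x in W, ∫⁻ y in W, ∫⁻ s in Ioc (0 : ℝ) 1, g (s • x + (1 - s) • y) := by
          rw [← lintegral_const_mul' _ _ ENNReal.ofReal_ne_top]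
          apply lintegral_congr
          intro x
          rw [← lintegral_const_mul' _ _ ENNReal.ofReal_ne_top]
      _ = ENNReal.ofReal (R ^ 2) *
            ∫⁻ s in Ioc (0 : ℝ) 1, ∫⁻ x in W, ∫⁻ y in W, g (s • x + (1 - s) • y) := by rw [hfub]
      _ ≤ ENNReal.ofReal (R ^ 2) *
            ∫⁻ s in Ioc (0 : ℝ) 1, volume W * (2 ^ (n + 1) * ∫⁻ z, g z) := by
          gcongr with s
          exact hsl s
      _ = _ := by rw [setLIntegral_const]; simp
  have hL : ENNReal.ofReal (∫ x in W, ∫ y in W, (v x - v y) ^ 2) ≤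
      ∫⁻ x in W, ∫⁻ y in W, ENNReal.ofReal ((v x - v y) ^ 2) := by
    have hin : ∀ x, 0 ≤ ∫ y in W, (v x - v y) ^ 2 := fun x => integral_nonneg fun y => sq_nonneg _
    rw [← Real.enorm_eq_ofReal (integral_nonneg hin)]
    refine (enorm_integral_le_lintegral_enorm _).trans ?_
    apply lintegral_mono
    intro x
    refine (enorm_integral_le_lintegral_enorm _).trans ?_
    apply lintegral_mono
    intro y
    exact (Real.enorm_eq_ofReal (sq_nonneg (v x - v y))).le
  refine hL.trans (htot.trans ?_)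
  rw [hgint]
  have hI : 0 ≤ ∫ x in W, G x := integral_nonneg fun x => hG0 x
  rw [ENNReal.ofReal_mul (by positivity), ENNReal.ofReal_mul (by positivity), ENNReal.ofReal_mul (by positivity),
    ENNReal.ofReal_toReal hfin.ne]
  have h2 : ENNReal.ofReal (2 ^ (n + 2)) = 2 ^ (n + 2) := by
    rw [ENNReal.ofReal_pow (by norm_num)]; simp
  rw [h2]
  calc ENNReal.ofReal (R ^ 2) * (volume W * (2 ^ (n + 1) * ENNReal.ofReal (∫ x in W, G x)))
      = 2 ^ (n + 1) * (ENNReal.ofReal (R ^ 2) * volume W * ENNReal.ofReal (∫ x in W, G x)) := by ring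
    _ ≤ 2 ^ (n + 2) * (ENNReal.ofReal (R ^ 2) * volume W * ENNReal.ofReal (∫ x in W, G x)) := by
        gcongr
        · exact one_le_two
        · omega
    _ = _ := by ring

end

end Pool.Agent.CY.S3b
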