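import Pool.Agent.CY.S3b.Cmp
import Pool.Agent.CY.S3b.Pou
import Pool.Agent.CY.S3b.PoinConv

/-!
Module CY-S3b-PoinLoc: local Poincare inequality on `X`.
-/

set_option autoImplicit false
set_option linter.unusedSectionVars false

open scoped Manifold ContDiff
open MeasureTheory Set Filter Topology

namespace Pool.Agent.CY.S3b

noncomputable section

variable {n : ℕ} {X : Type} [TopologicalSpace X] [ChartedSpace (EuclideanHalfSpace (n + 1)) X]
  [IsManifold (𝓡∂ (n + 1)) ∞ X] [CompactSpace X] [T2Space X] [MeasurableSpace X] [BorelSpace X]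

private theorem chart_int (g : Metric n X) {e : OpenPartialHomeomorph X (EuclideanHalfSpace (n + 1))}
    (he : e ∈ atlas (EuclideanHalfSpace (n + 1)) X) {U : Set X} (hU : MeasurableSet U)
    (hUs : U ⊆ e.source) {W : Set (V (n + 1))} (hW : MeasurableSet W) (hWs : W ⊆ dom e)
    (hUW : ∀ y ∈ dom e, pt e y ∈ U ↔ y ∈ W) {Ψ : X → ℝ} (hΨ : Measurable Ψ) :
    ∫ q in U, Ψ q ∂(vol g) = ∫ y in W, Ψ (pt e y) * Real.sqrt (g.G e y).det := by
  rw [← integral_indicator hU, int_vol g he (Ψ := U.indicator Ψ) (hΨ.indicator hU)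
    (support_indicator_subset.trans hUs)]
  have h1 : ∀ y, ex e (U.indicator Ψ) y * Real.sqrt (g.G e y).det =
      W.indicator (fun y => Ψ (pt e y) * Real.sqrt (g.G e y).det) y := by
    intro y
    by_cases hy : y ∈ dom e
    · rw [ex_apply e _ hy]
      by_cases hw : y ∈ W
      · rw [indicator_of_mem ((hUW y hy).2 hw), indicator_of_mem hw]
      · rw [indicator_of_notMem (fun h => hw ((hUW y hy).1 h)), indicator_of_notMem hw, zero_mul]
    · rw [ex_off e _ hy, indicator_of_notMem (fun h => hy (hWs h)), zero_mul]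
  simp only [h1]
  rw [integral_indicator hW, Measure.restrict_restrict hW]
  have hWH : W ⊆ Hs n := hWs.trans (dom_subset e)
  have h2 : (W ∩ Ho n : Set (V (n + 1))) =ᵐ[volume] W := by
    have h3 : (W ∩ Hs n : Set (V (n + 1))) =ᵐ[volume] (W ∩ Ho n : Set (V (n + 1))) :=
      (Filter.EventuallyEq.refl _ W).inter Hs_ae_eq_Ho
    rw [inter_eq_left.2 hWH] at h3
    exact h3.symm
  rw [Measure.restrict_congr_set h2]

theorem poin_loc (g : Metric n X) (f : Frame g) (p : X) :
    ∃ U : Set X, IsOpen U ∧ p ∈ U ∧ ∃ C : ℝ, ∀ u ∈ C1 n X,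
      ∫ x in U, ∫ y in U, (u x - u y) ^ 2 ∂(vol g) ∂(vol g) ≤ C * DD (vol g) (f.D u) := by
  set e : OpenPartialHomeomorph X (EuclideanHalfSpace (n + 1)) := ch p with he_def
  have he : e ∈ atlas (EuclideanHalfSpace (n + 1)) X := chart_mem_atlas _ p
  have hp : p ∈ e.source := mem_chart_source _ p
  obtain ⟨χ, W0, hχ, hχs, hW0, hpW0, hW0s, hχ1⟩ := exists_cutoff (n := n) e.open_source hp
  set y0 := co e p with hy0
  have hy0d : y0 ∈ dom e := co_mem_dom e hp
  have hpt0 : pt e y0 = p := pt_co e hp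
  have hnb : {y | y ∈ dom e ∧ pt e y ∈ W0} ∈ 𝓝[Hs n] y0 := by
    have h1 := (dom_chart e).nhds y0 hy0d
    have hc : Tendsto (pt e) (𝓝[dom e] y0) (𝓝 p) := by
      have := continuousOn_pt e y0 hy0d
      rw [ContinuousWithinAt, hpt0] at this
      exact this
    rw [← (dom_chart e).nhds_eq hy0d] at hc
    have h2 := hc (hW0.mem_nhds hpW0)
    exact inter_mem h1 h2
  obtain ⟨r, hr, hball⟩ := Metric.mem_nhdsWithin_iff.1 hnb
  set r' := r / 2 with hr'
  have hr'0 : 0 < r' := by positivity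
  have hr'r : r' < r := by rw [hr']; linarith
  set L : Set (V (n + 1)) := Metric.closedBall y0 r' ∩ Hs n with hL_def
  set W : Set (V (n + 1)) := Metric.ball y0 r' ∩ Hs n with hW_def
  have hLc : IsCompact L := (isCompact_closedBall _ _).inter_right isClosed_Hs
  have hLb : ∀ y ∈ L, y ∈ dom e ∧ pt e y ∈ W0 := by
    intro y hy
    exact hball ⟨Metric.closedBall_subset_ball hr'r hy.1, hy.2⟩
  have hLs : L ⊆ dom e := fun y hy => (hLb y hy).1
  have hWL : W ⊆ L := inter_subset_inter_left _ Metric.ball_subset_closedBall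
  have hWs : W ⊆ dom e := hWL.trans hLs
  have hWm : MeasurableSet W := Metric.isOpen_ball.measurableSet.inter measurableSet_Hs
  have hWH : W ⊆ Hs n := inter_subset_right
  have hconvH : Convex ℝ (Hs n) := by
    intro a ha b hb s t hs ht _
    have h1 : (0:ℝ) ≤ a 0 := ha
    have h2 : (0:ℝ) ≤ b 0 := hb
    show (0:ℝ) ≤ (s • a + t • b) 0
    have h3 : (s • a + t • b) 0 = s * a 0 + t * b 0 := rfl
    rw [h3]
    positivity
  have hWc : Convex ℝ W := (convex_ball y0 r').inter hconvH
  have hWd : ∀ x ∈ W, ∀ y ∈ W, ‖x - y‖ ≤ 2 * r' := by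
    intro x hx y hy
    rw [← dist_eq_norm]
    have h1 := Metric.mem_ball.1 hx.1
    have h2 := Metric.mem_ball.1 hy.1
    have h3 := dist_triangle_right x y y0
    linarith
  set U : Set X := e.source ∩ co e ⁻¹' (Metric.ball y0 r') with hU_def
  have hUo : IsOpen U := (continuousOn_co e).isOpen_inter_preimage e.open_source Metric.isOpen_ball
  have hpU : p ∈ U := ⟨hp, by
    show co e p ∈ Metric.ball y0 r'
    rw [← hy0]; exact Metric.mem_ball_self hr'0⟩
  have hUs : U ⊆ e.source := inter_subset_left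
  have hUW : ∀ y ∈ dom e, pt e y ∈ U ↔ y ∈ W := by
    intro y hy
    constructor
    · intro h
      have h1 : co e (pt e y) ∈ Metric.ball y0 r' := h.2
      rw [co_pt e hy] at h1
      exact ⟨h1, dom_subset e hy⟩
    · intro h
      refine ⟨pt_mem_source e hy, ?_⟩
      show co e (pt e y) ∈ Metric.ball y0 r'
      rw [co_pt e hy]
      exact h.1
  obtain ⟨c, C, hc, hb⟩ := met_bounds g he hLc hLs
  have hy0L : y0 ∈ L := ⟨Metric.mem_closedBall_self hr'0.le, dom_subset e hy0d⟩
  have hC0 : 0 ≤ C := hc.le.trans ((hb y0 hy0L).1.trans (hb y0 hy0L).2.1)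
  have hfinμ : IsFiniteMeasure (vol g) := ⟨vol_lt_top g⟩
  set K : ℝ := 2 ^ (n + 2) * (2 * r') ^ 2 * (volume W).toReal with hK_def
  have hK0 : 0 ≤ K := by positivity
  refine ⟨U, hUo, hpU, C ^ 2 * (K * (1 / c ^ 2)), fun u hu => ?_⟩
  have hum : Measurable u := (C1_cont hu).measurable
  have hχC : χ ∈ C1 n X := C1_of_smooth hχ
  set w := ex e (fun q => χ q * u q) with hw_def
  have hts : tsupport (fun q => χ q * u q) ⊆ e.source := tsupport_mul_subset_left.trans hχs
  have hw : CC n w := ex_CC he (C1_mul hχC hu) hts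
  have hwu : ∀ y, y ∈ dom e ∧ pt e y ∈ W0 → w y = u (pt e y) := by
    intro y hy
    rw [hw_def, ex_apply e _ hy.1]
    show χ (pt e y) * u (pt e y) = u (pt e y)
    rw [hχ1 _ hy.2, one_mul]
  have hwW : ∀ y ∈ W, w y = u (pt e y) := fun y hy => hwu y (hLb y (hWL hy))
  have hpd : ∀ y ∈ W, ∀ i, pd (Hs n) i w y = pd (Hs n) i (loc e u) y := by
    intro y hy i
    have h1 : w =ᶠ[𝓝[Hs n] y] loc e u := by
      have h2 : Metric.ball y0 r ∩ Hs n ∈ 𝓝[Hs n] y := by
        refine inter_mem (mem_nhdsWithin_of_mem_nhds (Metric.isOpen_ball.mem_nhds ?_)) self_mem_nhdsWithin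
        exact Metric.ball_subset_ball hr'r.le hy.1
      filter_upwards [h2] with z hz
      exact hwu z (hball hz)
    rw [pd, pd, h1.fderivWithin_eq (hwW y hy)]
  have hwc : ContinuousOn w L := hw.contv.mono inter_subset_right
  -- integrability on W
  have hin : ∀ x, IntegrableOn (fun z => (w x - w z) ^ 2) W := fun x =>
    ((continuousOn_const.sub hwc).pow 2).integrableOn_compact hLc |>.mono_set hWL
  have hprod : Integrable (fun q : V (n + 1) × V (n + 1) => (w q.1 - w q.2) ^ 2)
      ((volume.restrict W).prod (volume.restrict W)) := by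
    have h1 : ContinuousOn (fun q : V (n + 1) × V (n + 1) => (w q.1 - w q.2) ^ 2) (L ×ˢ L) := by
      refine ContinuousOn.pow (ContinuousOn.sub ?_ ?_) 2
      · exact hwc.comp continuousOn_fst fun q hq => hq.1
      · exact hwc.comp continuousOn_snd fun q hq => hq.2
    have h2 : IntegrableOn (fun q : V (n + 1) × V (n + 1) => (w q.1 - w q.2) ^ 2) (L ×ˢ L)
        (volume.prod volume) := h1.integrableOn_compact (hLc.prod hLc)
    have h3 := h2.mono_set (prod_mono hWL hWL)
    rw [IntegrableOn, ← Measure.prod_restrict] at h3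
    exact h3
  have hBint : IntegrableOn (fun x => ∫ z in W, (w x - w z) ^ 2) W := hprod.integral_prod_left
  -- the double integral in the chart
  have hA : ∀ x, ∫ y in U, (u x - u y) ^ 2 ∂(vol g) =
      ∫ z in W, (u x - u (pt e z)) ^ 2 * Real.sqrt (g.G e z).det := by
    intro x
    exact chart_int g he hUo.measurableSet hUs hWm hWs hUW
      (Ψ := fun y => (u x - u y) ^ 2) ((measurable_const.sub hum).pow_const 2)
  have hAm : Measurable (fun x => ∫ y in U, (u x - u y) ^ 2 ∂(vol g)) := by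
    have h1 : Measurable (fun q : X × X => (u q.1 - u q.2) ^ 2) :=
      ((hum.comp measurable_fst).sub (hum.comp measurable_snd)).pow_const 2
    exact (h1.stronglyMeasurable.integral_prod_right' (ν := (vol g).restrict U)).measurable
  have hAA : ∫ x in U, ∫ y in U, (u x - u y) ^ 2 ∂(vol g) ∂(vol g) =
      ∫ x in W, (∫ z in W, (u (pt e x) - u (pt e z)) ^ 2 * Real.sqrt (g.G e z).det) *
        Real.sqrt (g.G e x).det := by
    rw [chart_int g he hUo.measurableSet hUs hWm hWs hUW hAm]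
    simp only [hA]
  have hle1 : ∫ x in W, (∫ z in W, (u (pt e x) - u (pt e z)) ^ 2 * Real.sqrt (g.G e z).det) *
        Real.sqrt (g.G e x).det ≤ C ^ 2 * ∫ x in W, ∫ z in W, (w x - w z) ^ 2 := by
    rw [← integral_const_mul]
    refine integral_mono_of_nonneg (Eventually.of_forall fun x => ?_) (hBint.const_mul _) ?_
    · exact mul_nonneg (integral_nonneg fun z => mul_nonneg (sq_nonneg _) (Real.sqrt_nonneg _))
        (Real.sqrt_nonneg _)
    · filter_upwards [ae_restrict_mem hWm] with x hx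
      have h1 : ∫ z in W, (u (pt e x) - u (pt e z)) ^ 2 * Real.sqrt (g.G e z).det ≤
          C * ∫ z in W, (w x - w z) ^ 2 := by
        rw [← integral_const_mul]
        refine integral_mono_of_nonneg (Eventually.of_forall fun z =>
          mul_nonneg (sq_nonneg _) (Real.sqrt_nonneg _)) ((hin x).const_mul _) ?_
        filter_upwards [ae_restrict_mem hWm] with z hz
        rw [hwW x hx, hwW z hz, mul_comm]
        exact mul_le_mul_of_nonneg_right (hb z (hWL hz)).2.1 (sq_nonneg _)
      have h2 : 0 ≤ ∫ z in W, (w x - w z) ^ 2 := integral_nonneg fun z => sq_nonneg _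
      calc (∫ z in W, (u (pt e x) - u (pt e z)) ^ 2 * Real.sqrt (g.G e z).det) *
            Real.sqrt (g.G e x).det ≤ (C * ∫ z in W, (w x - w z) ^ 2) * C :=
            mul_le_mul h1 (hb x (hWL hx)).2.1 (Real.sqrt_nonneg _) (mul_nonneg hC0 h2)
        _ = C ^ 2 * ∫ z in W, (w x - w z) ^ 2 := by ring
  have hle2 := poin_convex hWc hWm hWH hWd hw
  have hDint : IntegrableOn (fun y => ‖f.D u (pt e y)‖ ^ 2 * Real.sqrt (g.G e y).det) W := by
    have h1 : ContinuousOn (fun y => ‖f.D u (pt e y)‖ ^ 2 * Real.sqrt (g.G e y).det) L := by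
      refine ContinuousOn.mul ?_ ((cont_sqrt_det g he).mono hLs)
      exact (((continuous_D g f hu).comp_continuousOn ((continuousOn_pt e).mono hLs)).norm).pow 2
    exact (h1.integrableOn_compact hLc).mono_set hWL
  have hle3 : c ^ 2 * ∫ x in W, ‖fderivWithin ℝ w (Hs n) x‖ ^ 2 ≤
      ∫ y in W, ‖f.D u (pt e y)‖ ^ 2 * Real.sqrt (g.G e y).det := by
    rw [← integral_const_mul]
    refine integral_mono_of_nonneg (Eventually.of_forall fun x => by positivity) hDint ?_
    filter_upwards [ae_restrict_mem hWm] with y hy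
    have hyd := hWs hy
    rw [norm_fderivWithin_sq, normD_chart g f hu he (pt_mem_source e hyd), co_pt e hyd]
    obtain ⟨b1, -, -, -, b5⟩ := hb y (hWL hy)
    have h1 := (b5 (fun i => pd (Hs n) i (loc e u) y)).1
    have h2 : ∀ i, pd (Hs n) i w y = pd (Hs n) i (loc e u) y := hpd y hy
    simp only [h2]
    have h3 : 0 ≤ ∑ i, pd (Hs n) i (loc e u) y ^ 2 := Finset.sum_nonneg fun i _ => sq_nonneg _
    have h4 : gip (Hs n) (g.G e) (loc e u) (loc e u) y =
        qf (g.G e y)⁻¹ (fun i => pd (Hs n) i (loc e u) y) := rfl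
    rw [h4]
    calc c ^ 2 * ∑ i, pd (Hs n) i (loc e u) y ^ 2 = (c * ∑ i, pd (Hs n) i (loc e u) y ^ 2) * c := by ring
      _ ≤ qf (g.G e y)⁻¹ (fun i => pd (Hs n) i (loc e u) y) * Real.sqrt (g.G e y).det :=
          mul_le_mul h1 b1 hc.le ((mul_nonneg hc.le h3).trans h1)
  have hle4 : ∫ y in W, ‖f.D u (pt e y)‖ ^ 2 * Real.sqrt (g.G e y).det ≤ DD (vol g) (f.D u) := by
    rw [← chart_int g he hUo.measurableSet hUs hWm hWs hUW
      (Ψ := fun q => ‖f.D u q‖ ^ 2) ((continuous_D g f hu).norm.pow 2).measurable]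
    unfold DD
    exact setIntegral_le_integral (integrable_cont (vol_lt_top g) ((continuous_D g f hu).norm.pow 2))
      (Eventually.of_forall fun q => sq_nonneg _)
  have hle5 : ∫ x in W, ‖fderivWithin ℝ w (Hs n) x‖ ^ 2 ≤ 1 / c ^ 2 * DD (vol g) (f.D u) := by
    rw [one_div, ← div_eq_inv_mul, le_div_iff₀ (by positivity), mul_comm]
    exact hle3.trans hle4
  rw [hAA]
  calc _ ≤ C ^ 2 * ∫ x in W, ∫ z in W, (w x - w z) ^ 2 := hle1
    _ ≤ C ^ 2 * (K * ∫ x in W, ‖fderivWithin ℝ w (Hs n) x‖ ^ 2) :=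
        mul_le_mul_of_nonneg_left hle2 (sq_nonneg _)
    _ ≤ C ^ 2 * (K * (1 / c ^ 2 * DD (vol g) (f.D u))) := by
        refine mul_le_mul_of_nonneg_left ?_ (sq_nonneg _)
        exact mul_le_mul_of_nonneg_left hle5 hK0
    _ = C ^ 2 * (K * (1 / c ^ 2)) * DD (vol g) (f.D u) := by ring

end

end Pool.Agent.CY.S3b
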