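import Mathlib

/-!
Module CY-S3b-RelAbs: abstract compactness criterion.

PROOF.  Take `δ = 1/(m+1)`, `m : ℕ`, and the data `N m`, `l m`, `K m`.  The sequence
`k ↦ (l m i (u k))_{(m, i)}` lives in the compact product `∏_{(m,i) : Σ m, Fin (N m)} Icc (-M m) (M m)`,
`M m = sqrt (max (K m * C) 0)`, of a countable family, so it has a convergent subsequence `φ`
(`isCompact_univ_pi`, `IsCompact.tendsto_subseq`, first countable product over a countable index).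
Each coordinate is then Cauchy.  For `j, k`: `E (u (φ j) - u (φ k)) ≤ 4 C`, so
`I (..) ≤ 4 C/(m+1) + ∑_i (l m i (u (φ j)) - l m i (u (φ k)))^2`; choose `m` with `4 C/(m+1) ≤ ε/2` and then
`j, k` large.  (If `C < 0` replace it by `max C 0`.)
-/

set_option autoImplicit false
set_option linter.unusedSectionVars false

open MeasureTheory Set Filter Topology

namespace Pool.Agent.CY.S3b

theorem rel_abs {T : Type} (sub : T → T → T) (A : Set T) (E I : T → ℝ)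
    (hsub : ∀ u ∈ A, ∀ v ∈ A, sub u v ∈ A)
    (hE : ∀ u ∈ A, ∀ v ∈ A, E (sub u v) ≤ 2 * E u + 2 * E v)
    (H : ∀ δ > 0, ∃ (N : ℕ) (l : Fin N → T → ℝ) (K : ℝ),
      (∀ i, ∀ u ∈ A, ∀ v ∈ A, l i (sub u v) = l i u - l i v) ∧
      (∀ i, ∀ u ∈ A, l i u ^ 2 ≤ K * E u) ∧
      ∀ u ∈ A, I u ≤ δ * E u + ∑ i, l i u ^ 2)
    (hE0 : ∀ u ∈ A, 0 ≤ E u)
    (u : ℕ → T) (hu : ∀ k, u k ∈ A) {C : ℝ} (hC : ∀ k, E (u k) ≤ C) :
    ∃ φ : ℕ → ℕ, StrictMono φ ∧ ∀ ε > 0, ∃ N, ∀ j ≥ N, ∀ k ≥ N, I (sub (u (φ j)) (u (φ k))) ≤ ε := by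
  classical
  have hC0 : 0 ≤ C := (hE0 _ (hu 0)).trans (hC 0)
  have H' : ∀ m : ℕ, ∃ (N : ℕ) (l : Fin N → T → ℝ) (K : ℝ),
      (∀ i, ∀ u ∈ A, ∀ v ∈ A, l i (sub u v) = l i u - l i v) ∧
      (∀ i, ∀ u ∈ A, l i u ^ 2 ≤ K * E u) ∧
      ∀ u ∈ A, I u ≤ (1 / ((m : ℝ) + 1)) * E u + ∑ i, l i u ^ 2 := fun m =>
    H _ Nat.one_div_pos_of_nat
  choose N l K h1 h2 h3 using H'
  set B : ℕ → ℝ := fun m => Real.sqrt (max (K m) 0 * C) with hB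
  let x : ℕ → (Σ m : ℕ, Fin (N m)) → ℝ := fun k p => l p.1 p.2 (u k)
  have hx : ∀ k, x k ∈ Set.pi univ (fun p : (Σ m : ℕ, Fin (N m)) => Icc (-(B p.1)) (B p.1)) := by
    intro k p _
    have e1 : l p.1 p.2 (u k) ^ 2 ≤ max (K p.1) 0 * C := by
      calc l p.1 p.2 (u k) ^ 2 ≤ K p.1 * E (u k) := h2 _ _ _ (hu k)
        _ ≤ max (K p.1) 0 * E (u k) := mul_le_mul_of_nonneg_right (le_max_left _ _) (hE0 _ (hu k))
        _ ≤ _ := mul_le_mul_of_nonneg_left (hC k) (le_max_right _ _)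
    exact abs_le.1 (Real.abs_le_sqrt e1)
  obtain ⟨a, -, φ, hφ, hlim⟩ := (isCompact_univ_pi
    (fun p : (Σ m : ℕ, Fin (N m)) => isCompact_Icc (a := -(B p.1)) (b := B p.1))).tendsto_subseq hx
  refine ⟨φ, hφ, fun ε hε => ?_⟩
  obtain ⟨m, hm⟩ := exists_nat_ge (8 * C / ε)
  have hm1 : (0 : ℝ) < (m : ℝ) + 1 := by positivity
  have hm2 : 1 / ((m : ℝ) + 1) * (4 * C) ≤ ε / 2 := by
    rw [one_div, inv_mul_le_iff₀ hm1]
    have : 8 * C ≤ m * ε := by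
      rwa [div_le_iff₀ hε] at hm
    nlinarith
  have hco : ∀ i : Fin (N m), Tendsto (fun k => l m i (u (φ k))) atTop (𝓝 (a ⟨m, i⟩)) := fun i =>
    (tendsto_pi_nhds.1 hlim) ⟨m, i⟩
  have hsum : Tendsto (fun k => ∑ i, (l m i (u (φ k)) - a ⟨m, i⟩) ^ 2) atTop (𝓝 0) := by
    have : Tendsto (fun k => ∑ i, (l m i (u (φ k)) - a ⟨m, i⟩) ^ 2) atTop
        (𝓝 (∑ i : Fin (N m), (a ⟨m, i⟩ - a ⟨m, i⟩) ^ 2)) :=
      tendsto_finsetSum _ fun i _ => ((hco i).sub_const _).pow 2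
    simpa using this
  have hev : ∀ᶠ k in atTop, ∑ i, (l m i (u (φ k)) - a ⟨m, i⟩) ^ 2 < ε / 8 :=
    hsum.eventually_lt_const (by positivity)
  obtain ⟨N0, hN0⟩ := eventually_atTop.1 hev
  refine ⟨N0, fun j hj k hk => ?_⟩
  have i1 := h3 m _ (hsub _ (hu (φ j)) _ (hu (φ k)))
  have i2 : E (sub (u (φ j)) (u (φ k))) ≤ 4 * C := by
    have := hE _ (hu (φ j)) _ (hu (φ k))
    have := hC (φ j)
    have := hC (φ k)
    linarith
  have i3 : ∑ i, l m i (sub (u (φ j)) (u (φ k))) ^ 2 ≤ ε / 2 := by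
    have e1 : ∀ i, l m i (sub (u (φ j)) (u (φ k))) ^ 2 ≤
        2 * (l m i (u (φ j)) - a ⟨m, i⟩) ^ 2 + 2 * (l m i (u (φ k)) - a ⟨m, i⟩) ^ 2 := by
      intro i
      rw [h1 m i _ (hu _) _ (hu _)]
      nlinarith [sq_nonneg (l m i (u (φ j)) - a ⟨m, i⟩ + (l m i (u (φ k)) - a ⟨m, i⟩))]
    refine (Finset.sum_le_sum fun i _ => e1 i).trans ?_
    rw [Finset.sum_add_distrib, ← Finset.mul_sum, ← Finset.mul_sum]
    have := hN0 j hj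
    have := hN0 k hk
    linarith
  have i4 : 1 / ((m : ℝ) + 1) * E (sub (u (φ j)) (u (φ k))) ≤ 1 / ((m : ℝ) + 1) * (4 * C) :=
    mul_le_mul_of_nonneg_left i2 (by positivity)
  linarith

end Pool.Agent.CY.S3b
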