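import Pool.Agent.CY.S3b.PoinConv

/-!
Module CY-S3b-RelCube: Rellich on the half space by averages over cubes.

PROOF.  Choose `h > 0` with `2^(n+1) * (n+1) * h^2 ≤ δ`.  For `α : Fin (n+1) → ℤ` let
`Q_α = {x | ∀ i, α i * h ≤ x i ∧ x i < (α i + 1) * h}`: convex, measurable, of volume `h^(n+1)`, diameter at
most `R_0 = h * sqrt (n+1)`, pairwise disjoint; `Q_α ⊆ Hs n` iff `0 ≤ α 0`.  Finitely many of them
(`0 ≤ α 0 < K`, `-K ≤ α i < K`, `K > R / h`) cover `Hs n ∩ closedBall 0 R`.  On each cube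
`∫_Q v^2 = (1 / (2 |Q|)) ∫_Q ∫_Q (v x - v y)^2 + (∫_Q v)^2 / |Q|` (expand the square), and
`poin_convex` gives `(1 / (2|Q|)) ∫∫ ≤ 2^(n+1) R_0^2 ∫_Q ‖Dv‖^2 ≤ δ ∫_Q ‖Dv‖^2`.  Sum over the cubes
(`integral_finset_biUnion` / disjoint union; outside the union `v = 0`; `∫` over `Hs n` equals `∫` over
`Ho n` by `Hs_ae_eq_Ho`).  Index the finite family by `Fin N` with `Fintype.equivFin` (or `Finset.equivFin`).
-/

set_option autoImplicit false
set_option linter.unusedSectionVars false

open scoped Manifold ContDiff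
open MeasureTheory Set Filter Topology

namespace Pool.Agent.CY.S3b

noncomputable section

variable {n : ℕ}

/-- the half open cubes -/
private def cube (n : ℕ) (h : ℝ) (α : Fin (n + 1) → ℤ) : Set (V (n + 1)) :=
  {x | ∀ i, (α i : ℝ) * h ≤ x i ∧ x i < ((α i : ℝ) + 1) * h}

private theorem cont_coord (i : Fin (n + 1)) : Continuous (fun x : V (n + 1) => x i) :=
  (EuclideanSpace.proj (𝕜 := ℝ) i).continuous

private theorem cube_meas (h : ℝ) (α : Fin (n + 1) → ℤ) : MeasurableSet (cube n h α) := by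
  have : cube n h α = ⋂ i, ({x : V (n + 1) | (α i : ℝ) * h ≤ x i} ∩
      {x : V (n + 1) | x i < ((α i : ℝ) + 1) * h}) := by
    ext x
    simp [cube]
  rw [this]
  refine MeasurableSet.iInter fun i => ?_
  exact ((isClosed_le continuous_const (cont_coord i)).measurableSet).inter
    ((isOpen_lt (cont_coord i) continuous_const).measurableSet)

private theorem cube_convex (h : ℝ) (α : Fin (n + 1) → ℤ) : Convex ℝ (cube n h α) := by
  intro x hx y hy a b ha hb hab i
  have e : (a • x + b • y) i = a * x i + b * y i := by simp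
  rw [e]
  obtain ⟨x1, x2⟩ := hx i
  obtain ⟨y1, y2⟩ := hy i
  constructor
  · have : (α i : ℝ) * h = a * ((α i : ℝ) * h) + b * ((α i : ℝ) * h) := by
      rw [← add_mul, hab, one_mul]
    rw [this]
    exact add_le_add (mul_le_mul_of_nonneg_left x1 ha) (mul_le_mul_of_nonneg_left y1 hb)
  · have : ((α i : ℝ) + 1) * h = a * (((α i : ℝ) + 1) * h) + b * (((α i : ℝ) + 1) * h) := by
      rw [← add_mul, hab, one_mul]
    rw [this]
    rcases eq_or_lt_of_le ha with h0 | h0
    · have hb1 : b = 1 := by linarith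
      rw [← h0, hb1]
      simpa using y2
    · exact add_lt_add_of_lt_of_le (mul_lt_mul_of_pos_left x2 h0) (mul_le_mul_of_nonneg_left y2.le hb)

private theorem cube_floor {h : ℝ} (hh : 0 < h) (α : Fin (n + 1) → ℤ) (x : V (n + 1)) :
    x ∈ cube n h α ↔ ∀ i, ⌊x i / h⌋ = α i := by
  unfold cube
  simp only [mem_ofPred_eq]
  refine forall_congr' fun i => ?_
  rw [Int.floor_eq_iff, le_div_iff₀ hh, div_lt_iff₀ hh]

private theorem cube_disj {h : ℝ} (hh : 0 < h) {α β : Fin (n + 1) → ℤ} (hab : α ≠ β) :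
    Disjoint (cube n h α) (cube n h β) := by
  rw [Set.disjoint_left]
  intro x hx hy
  rw [cube_floor hh] at hx hy
  exact hab (funext fun i => (hx i).symm.trans (hy i))

private theorem cube_diam {h : ℝ} (hh : 0 < h) (α : Fin (n + 1) → ℤ) {x y : V (n + 1)}
    (hx : x ∈ cube n h α) (hy : y ∈ cube n h α) : ‖x - y‖ ≤ h * Real.sqrt ((n : ℝ) + 1) := by
  rw [EuclideanSpace.norm_eq]
  have h1 : ∑ i, ‖(x - y) i‖ ^ 2 ≤ ∑ _i : Fin (n + 1), h ^ 2 := by
    refine Finset.sum_le_sum fun i _ => ?_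
    obtain ⟨x1, x2⟩ := hx i
    obtain ⟨y1, y2⟩ := hy i
    have e : (x - y) i = x i - y i := by simp
    rw [e, Real.norm_eq_abs]
    apply pow_le_pow_left₀ (abs_nonneg _)
    rw [abs_le]
    constructor <;> nlinarith
  calc Real.sqrt (∑ i, ‖(x - y) i‖ ^ 2) ≤ Real.sqrt (∑ _i : Fin (n + 1), h ^ 2) := Real.sqrt_le_sqrt h1
    _ = Real.sqrt (h ^ 2 * ((n : ℝ) + 1)) := by
        rw [Finset.sum_const, Finset.card_univ, Fintype.card_fin, nsmul_eq_mul]
        push_cast
        rw [mul_comm]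
    _ = h * Real.sqrt ((n : ℝ) + 1) := by
        rw [Real.sqrt_mul (by positivity), Real.sqrt_sq hh.le]

private theorem cube_vol {h : ℝ} (hh : 0 < h) (α : Fin (n + 1) → ℤ) :
    0 < (volume (cube n h α)).toReal ∧ volume (cube n h α) < ⊤ := by
  set c : V (n + 1) := WithLp.toLp 2 (fun i => ((α i : ℝ) + 1 / 2) * h) with hc
  have hci : ∀ i, c i = ((α i : ℝ) + 1 / 2) * h := fun i => rfl
  have hcm : c ∈ cube n h α := by
    intro i
    rw [hci]
    constructor <;> nlinarith
  have hfin : volume (cube n h α) < ⊤ := by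
    refine lt_of_le_of_lt (measure_mono (t := Metric.closedBall c (h * Real.sqrt ((n : ℝ) + 1))) ?_)
      measure_closedBall_lt_top
    intro x hx
    rw [Metric.mem_closedBall, dist_eq_norm]
    exact cube_diam hh α hx hcm
  refine ⟨ENNReal.toReal_pos ?_ hfin.ne, hfin⟩
  have hopen : IsOpen {x : V (n + 1) | ∀ i, (α i : ℝ) * h < x i ∧ x i < ((α i : ℝ) + 1) * h} := by
    have : {x : V (n + 1) | ∀ i, (α i : ℝ) * h < x i ∧ x i < ((α i : ℝ) + 1) * h} =
        ⋂ i, ({x : V (n + 1) | (α i : ℝ) * h < x i} ∩ {x : V (n + 1) | x i < ((α i : ℝ) + 1) * h}) := by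
      ext x
      simp
    rw [this]
    exact isOpen_iInter_of_finite fun i =>
      (isOpen_lt continuous_const (cont_coord i)).inter (isOpen_lt (cont_coord i) continuous_const)
  have hne : {x : V (n + 1) | ∀ i, (α i : ℝ) * h < x i ∧ x i < ((α i : ℝ) + 1) * h}.Nonempty := by
    refine ⟨c, fun i => ?_⟩
    rw [hci]
    constructor <;> nlinarith
  have hpos := hopen.measure_pos volume hne
  have hsub : {x : V (n + 1) | ∀ i, (α i : ℝ) * h < x i ∧ x i < ((α i : ℝ) + 1) * h} ⊆ cube n h α := by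
    intro x hx i
    exact ⟨(hx i).1.le, (hx i).2⟩
  exact (lt_of_lt_of_le hpos (measure_mono hsub)).ne'

/-- the inequality on one set -/
private theorem one_cube {Q : Set (V (n + 1))} (hpos : 0 < (volume Q).toReal)
    (hfin : volume Q < ⊤) {v : V (n + 1) → ℝ} (h1 : IntegrableOn v Q)
    (h2 : IntegrableOn (fun x => v x ^ 2) Q) {c D : ℝ}
    (hp : ∫ x in Q, ∫ y in Q, (v x - v y) ^ 2 ≤ 2 * c * (volume Q).toReal * D) :
    ∫ x in Q, v x ^ 2 ≤ c * D + (∫ x in Q, v x) ^ 2 / (volume Q).toReal := by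
  set M := (volume Q).toReal with hM
  set I := ∫ x in Q, v x with hI
  set J := ∫ x in Q, v x ^ 2 with hJ
  have hfm : IsFiniteMeasure (volume.restrict Q) := ⟨by rwa [Measure.restrict_apply_univ]⟩
  have hreal : (volume.restrict Q).real univ = M := by
    rw [Measure.real, Measure.restrict_apply_univ]
  have inner : ∀ x, ∫ y in Q, (v x - v y) ^ 2 = M * v x ^ 2 - 2 * I * v x + J := by
    intro x
    have e : ∀ y, (v x - v y) ^ 2 = (v x ^ 2 - (2 * v x) * v y) + v y ^ 2 := fun y => by ring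
    have i1 : Integrable (fun _ : V (n + 1) => v x ^ 2) (volume.restrict Q) := integrable_const _
    have i2 : Integrable (fun y => (2 * v x) * v y) (volume.restrict Q) := h1.const_mul _
    have i3 : Integrable (fun y => v x ^ 2 - (2 * v x) * v y) (volume.restrict Q) := i1.sub i2
    simp_rw [e]
    rw [integral_add i3 h2, integral_sub i1 i2, integral_const, integral_const_mul, hreal,
      smul_eq_mul]
    ring
  simp_rw [inner] at hp
  have outer : ∫ x in Q, (M * v x ^ 2 - 2 * I * v x + J) = 2 * M * J - 2 * I ^ 2 := by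
    have i1 : Integrable (fun _ : V (n + 1) => J) (volume.restrict Q) := integrable_const _
    have i2 : Integrable (fun x => (2 * I) * v x) (volume.restrict Q) := h1.const_mul _
    have i4 : Integrable (fun x => M * v x ^ 2) (volume.restrict Q) := h2.const_mul _
    have i3 : Integrable (fun x => M * v x ^ 2 - (2 * I) * v x) (volume.restrict Q) := i4.sub i2
    rw [integral_add i3 i1, integral_sub i4 i2, integral_const, integral_const_mul,
      integral_const_mul, hreal, smul_eq_mul]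
    ring
  rw [outer] at hp
  have h3 : J ≤ c * D + I ^ 2 / M := by
    have : c * D + I ^ 2 / M = (c * D * M + I ^ 2) / M := by
      field_simp
    rw [this, le_div_iff₀ hpos]
    linarith
  exact h3

theorem rel_cube (n : ℕ) (R : ℝ) {δ : ℝ} (hδ : 0 < δ) :
    ∃ (N : ℕ) (Q : Fin N → Set (V (n + 1))), (∀ i, MeasurableSet (Q i)) ∧ (∀ i, Q i ⊆ Hs n) ∧
      (∀ i, 0 < (volume (Q i)).toReal) ∧
      ∀ v : V (n + 1) → ℝ, CC n v → (∀ x, R < ‖x‖ → v x = 0) →
        ∫ x in Ho n, v x ^ 2 ≤ δ * (∫ x in Ho n, ‖fderivWithin ℝ v (Hs n) x‖ ^ 2) +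
          ∑ i, (∫ x in Q i, v x) ^ 2 / (volume (Q i)).toReal := by
  -- the side length
  obtain ⟨h, hh, hhδ⟩ : ∃ h : ℝ, 0 < h ∧ 2 ^ (n + 1) * (h * Real.sqrt ((n : ℝ) + 1)) ^ 2 ≤ δ := by
    have hc : 0 < (2 : ℝ) ^ (n + 1) * ((n : ℝ) + 1) := by positivity
    refine ⟨Real.sqrt (δ / (2 ^ (n + 1) * ((n : ℝ) + 1))), Real.sqrt_pos.mpr (by positivity), ?_⟩
    rw [mul_pow, Real.sq_sqrt (by positivity), Real.sq_sqrt (by positivity)]
    have : (2 : ℝ) ^ (n + 1) * (δ / (2 ^ (n + 1) * ((n : ℝ) + 1)) * ((n : ℝ) + 1)) = δ := by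
      field_simp
    rw [this]
  -- the finite family
  set K : ℤ := ⌈R / h⌉ + 1 with hK
  have hKR : R / h < K := by
    rw [hK]
    push_cast
    linarith [Int.le_ceil (R / h)]
  set S : Finset (Fin (n + 1) → ℤ) :=
    Fintype.piFinset (fun i => Finset.Ico (if i = 0 then 0 else -K) K) with hS
  have hsub : ∀ α ∈ S, cube n h α ⊆ Hs n := by
    intro α hα x hx
    have h0 := (Fintype.mem_piFinset.mp hα) 0
    simp only [if_true, Finset.mem_Ico] at h0
    have : 0 ≤ (α 0 : ℝ) * h := mul_nonneg (by exact_mod_cast h0.1) hh.le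
    exact this.trans (hx 0).1
  have hcov : ∀ x ∈ Hs n, ‖x‖ ≤ R → ∃ α ∈ S, x ∈ cube n h α := by
    intro x hx hxR
    refine ⟨fun i => ⌊x i / h⌋, ?_, (cube_floor hh _ _).mpr fun i => rfl⟩
    rw [hS, Fintype.mem_piFinset]
    intro i
    have hxi : |x i| ≤ R := (by simpa using PiLp.norm_apply_le x i : |x i| ≤ ‖x‖).trans hxR
    have h1 : |x i / h| ≤ R / h := by
      rw [abs_div, abs_of_pos hh]
      exact div_le_div_of_nonneg_right hxi hh.le
    rw [abs_le] at h1
    rw [Finset.mem_Ico]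
    constructor
    · split_ifs with hi
      · rw [hi]
        exact Int.floor_nonneg.mpr (div_nonneg hx hh.le)
      · rw [Int.le_floor]
        push_cast
        linarith
    · rw [Int.floor_lt]
      linarith
  let e := S.equivFin
  refine ⟨S.card, fun i => cube n h (e.symm i).1, fun i => cube_meas h _, fun i => hsub _ (e.symm i).2,
    fun i => (cube_vol hh _).1, ?_⟩
  intro v hv hvR
  have hsum : ∑ i : Fin S.card, (∫ x in cube n h (e.symm i).1, v x) ^ 2 /
      (volume (cube n h (e.symm i).1)).toReal =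
      ∑ α ∈ S, (∫ x in cube n h α, v x) ^ 2 / (volume (cube n h α)).toReal := by
    rw [Equiv.sum_comp e.symm (fun α : S => (∫ x in cube n h α.1, v x) ^ 2 /
      (volume (cube n h α.1)).toReal)]
    exact Finset.sum_coe_sort S (fun α => (∫ x in cube n h α, v x) ^ 2 / (volume (cube n h α)).toReal)
  rw [hsum]
  -- integrability
  obtain ⟨C, R', hC, hR', hb, hz⟩ := hv.bound
  have int1 : ∀ W ⊆ Hs n, MeasurableSet W → IntegrableOn v W := fun W hW hm =>
    integrableOn_sub hv.contv (fun x _ hx => (hz x hx).1) hW hm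
  have int2 : ∀ W ⊆ Hs n, MeasurableSet W → IntegrableOn (fun x => v x ^ 2) W := fun W hW hm =>
    integrableOn_sub (F := fun x => v x ^ 2) (hv.contv.pow 2)
      (fun x _ hx => by rw [(hz x hx).1]; simp) hW hm
  have int3 : ∀ W ⊆ Hs n, MeasurableSet W →
      IntegrableOn (fun x => ‖fderivWithin ℝ v (Hs n) x‖ ^ 2) W := fun W hW hm =>
    integrableOn_sub (F := fun x => ‖fderivWithin ℝ v (Hs n) x‖ ^ 2) (hv.contg.norm.pow 2)
      (fun x _ hx => by rw [(hz x hx).2]; simp) hW hm
  have hUm : MeasurableSet (⋃ α ∈ S, cube n h α) :=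
    Finset.measurableSet_biUnion _ fun α _ => cube_meas h α
  have hUs : (⋃ α ∈ S, cube n h α) ⊆ Hs n := by
    intro x hx
    simp only [mem_iUnion] at hx
    obtain ⟨α, hα, hx⟩ := hx
    exact hsub α hα hx
  have hdisj : Set.Pairwise (↑S) (Function.onFun Disjoint (fun α => cube n h α)) := by
    intro α _ β _ hab
    exact cube_disj hh hab
  have e1 : ∫ x in Ho n, v x ^ 2 = ∑ α ∈ S, ∫ x in cube n h α, v x ^ 2 := by
    rw [← setIntegral_congr_set (Hs_ae_eq_Ho (n := n)), ← integral_biUnion_finset S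
      (fun α _ => cube_meas h α) hdisj (fun α hα => int2 _ (hsub α hα) (cube_meas h α))]
    refine setIntegral_eq_of_subset_of_forall_sdiff_eq_zero measurableSet_Hs hUs ?_
    rintro x ⟨hx, hxU⟩
    have : R < ‖x‖ := by
      by_contra hcon
      push Not at hcon
      obtain ⟨α, hα, hxα⟩ := hcov x hx hcon
      exact hxU (mem_biUnion hα hxα)
    rw [hvR x this]
    simp
  have e2 : ∑ α ∈ S, ∫ x in cube n h α, ‖fderivWithin ℝ v (Hs n) x‖ ^ 2 ≤
      ∫ x in Ho n, ‖fderivWithin ℝ v (Hs n) x‖ ^ 2 := by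
    rw [← setIntegral_congr_set (Hs_ae_eq_Ho (n := n)), ← integral_biUnion_finset S
      (fun α _ => cube_meas h α) hdisj (fun α hα => int3 _ (hsub α hα) (cube_meas h α))]
    refine setIntegral_mono_set (int3 _ Subset.rfl measurableSet_Hs) ?_ hUs.eventuallyLE
    exact Filter.Eventually.of_forall fun x => by positivity
  rw [e1]
  calc ∑ α ∈ S, ∫ x in cube n h α, v x ^ 2
      ≤ ∑ α ∈ S, (δ * (∫ x in cube n h α, ‖fderivWithin ℝ v (Hs n) x‖ ^ 2) +
        (∫ x in cube n h α, v x) ^ 2 / (volume (cube n h α)).toReal) := by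
        refine Finset.sum_le_sum fun α hα => ?_
        have hp := poin_convex (cube_convex h α) (cube_meas h α) (hsub α hα)
          (fun x hx y hy => cube_diam hh α hx hy) hv
        have hD : 0 ≤ ∫ x in cube n h α, ‖fderivWithin ℝ v (Hs n) x‖ ^ 2 :=
          integral_nonneg fun x => by positivity
        refine one_cube (cube_vol hh α).1 (cube_vol hh α).2 (int1 _ (hsub α hα) (cube_meas h α))
          (int2 _ (hsub α hα) (cube_meas h α)) (hp.trans ?_)
        have hM := (cube_vol (n := n) hh α).1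
        have : 2 ^ (n + 2) * (h * Real.sqrt ((n : ℝ) + 1)) ^ 2 =
          2 * (2 ^ (n + 1) * (h * Real.sqrt ((n : ℝ) + 1)) ^ 2) := by ring
        rw [this]
        gcongr
    _ = δ * (∑ α ∈ S, ∫ x in cube n h α, ‖fderivWithin ℝ v (Hs n) x‖ ^ 2) +
        ∑ α ∈ S, (∫ x in cube n h α, v x) ^ 2 / (volume (cube n h α)).toReal := by
        rw [Finset.sum_add_distrib, Finset.mul_sum]
    _ ≤ _ := by
        gcongr

end

end Pool.Agent.CY.S3b
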