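import Pool.Agent.CY.S3b.Cmp
import Pool.Agent.CY.S3b.RelCube
import Pool.Agent.CY.S3b.RelAbs

/-!
Module CY-S3b-RelX: Rellich's theorem on `X`.

PROOF.  `rel_abs` with `T = X → ℝ`, `sub u v = fun x => u x - v x`, `A = C1 n X`,
`E u = DD (D u) + ∫ u^2` (`E (u - v) ≤ 2 E u + 2 E v` from `D_sub` and the parallelogram inequality),
`I u = ∫ u^2`.  `H`: `∫ u^2 = ∑_i ∫ (η_i u)^2 ≤ ∑_i C_i ∫ w_i^2` (`f.η_sum`, `cmp` with `e = f.e i`,
`η = f.η i`, `w_i = ex (f.e i) (η_i u)`), and by `rel_cube` (radius `R_i`, `δ_i` small)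
`∫ w_i^2 ≤ δ_i ∫ ‖D w_i‖^2 + ∑_a (∫_{Q_a} w_i)^2/|Q_a| ≤ δ_i C_i E u + ∑_a (..)`.  The functionals are
`l (i, a) u = sqrt (C_i / |Q_a|) * ∫_{Q_a} w_i` (linear in `u`: `w_i` is linear in `u`, integrable on `Q_a`
by `integrableOn_sub`), `l^2 ≤ C_i ∫ w_i^2 ≤ C_i^2 ∫ u^2` by Cauchy-Schwarz
(`(∫_Q w)^2 ≤ |Q| ∫_Q w^2`).  Index set `Σ i, Fin (N_i)` transported to `Fin N`
(`Fintype.equivFin`, `Fintype.sum_equiv`).  Choose `δ_i` with `∑ C_i^2 δ_i ≤ δ`.
-/

set_option autoImplicit false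
set_option linter.unusedSectionVars false

open scoped Manifold ContDiff
open MeasureTheory Set Filter Topology

namespace Pool.Agent.CY.S3b

noncomputable section

variable {n : ℕ} {X : Type} [TopologicalSpace X] [ChartedSpace (EuclideanHalfSpace (n + 1)) X]
  [IsManifold (𝓡∂ (n + 1)) ∞ X] [CompactSpace X] [T2Space X] [MeasurableSpace X] [BorelSpace X]

private theorem int_cont {μ : Measure X} (hμ : μ univ < ⊤) {F : X → ℝ} (hF : Continuous F) :
    Integrable F μ := by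
  have : IsFiniteMeasure μ := ⟨hμ⟩
  exact hF.integrable_of_hasCompactSupport (HasCompactSupport.of_compactSpace F)

private theorem ex_sub (e : OpenPartialHomeomorph X (EuclideanHalfSpace (n + 1))) (η u v : X → ℝ)
    (y : V (n + 1)) :
    ex e (fun p => η p * (u p - v p)) y = ex e (fun p => η p * u p) y - ex e (fun p => η p * v p) y := by
  by_cases hy : y ∈ dom e
  · rw [ex_apply e _ hy, ex_apply e _ hy, ex_apply e _ hy]
    ring
  · rw [ex_off e _ hy, ex_off e _ hy, ex_off e _ hy, sub_zero]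

omit [TopologicalSpace X] [ChartedSpace (EuclideanHalfSpace (n + 1)) X]
  [IsManifold (𝓡∂ (n + 1)) ∞ X] [CompactSpace X] [T2Space X] [MeasurableSpace X] [BorelSpace X] in
private theorem cs_Q {Q : Set (V (n + 1))} (hpos : 0 < (volume Q).toReal) {w : V (n + 1) → ℝ}
    (h1 : IntegrableOn w Q) (h2 : IntegrableOn (fun x => w x ^ 2) Q) :
    (∫ x in Q, w x) ^ 2 / (volume Q).toReal ≤ ∫ x in Q, w x ^ 2 := by
  have hfin : volume Q < ⊤ := by
    rw [lt_top_iff_ne_top]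
    intro h
    rw [h] at hpos
    simp at hpos
  set M := (volume Q).toReal with hM
  set I := ∫ x in Q, w x with hI
  set J := ∫ x in Q, w x ^ 2 with hJ
  have hfm : IsFiniteMeasure (volume.restrict Q) := ⟨by rwa [Measure.restrict_apply_univ]⟩
  have hreal : (volume.restrict Q).real univ = M := by
    rw [Measure.real, Measure.restrict_apply_univ]
  have i2 : Integrable (fun x => (2 * (I / M)) * w x) (volume.restrict Q) := h1.const_mul _
  have i3 : Integrable (fun x => w x ^ 2 - (2 * (I / M)) * w x) (volume.restrict Q) := Integrable.sub h2 i2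
  have h0 : 0 ≤ ∫ x in Q, (w x - I / M) ^ 2 := integral_nonneg fun x => by positivity
  have h3 : ∫ x in Q, (w x - I / M) ^ 2 = J - I ^ 2 / M := by
    have e : ∀ x, (w x - I / M) ^ 2 = (w x ^ 2 - (2 * (I / M)) * w x) + (I / M) ^ 2 := fun x => by ring
    simp_rw [e]
    rw [integral_add i3 (integrable_const _), integral_sub h2 i2, integral_const, integral_const_mul,
      hreal, smul_eq_mul]
    field_simp
    ring
  rw [h3] at h0
  linarith

/-- The approximation of the `L²` norm by finitely many functionals. -/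
theorem rel_H (g : Metric n X) (f : Frame g) :
    ∀ δ > 0, ∃ (N : ℕ) (l : Fin N → (X → ℝ) → ℝ) (K : ℝ),
      (∀ i, ∀ u ∈ C1 n X, ∀ v ∈ C1 n X, l i (fun x => u x - v x) = l i u - l i v) ∧
      (∀ i, ∀ u ∈ C1 n X, l i u ^ 2 ≤ K * (DD (vol g) (f.D u) + ∫ x, u x ^ 2 ∂(vol g))) ∧
      ∀ u ∈ C1 n X, ∫ x, u x ^ 2 ∂(vol g) ≤
        δ * (DD (vol g) (f.D u) + ∫ x, u x ^ 2 ∂(vol g)) + ∑ i, l i u ^ 2 := by
  intro δ hδ
  choose C R hC0 hC using fun i => cmp g f (f.e_mem i) (f.η_smooth i) (f.η_supp i)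
  set S2 : ℝ := ∑ i, C i ^ 2 with hS2
  have hS0 : 0 ≤ S2 := Finset.sum_nonneg fun i _ => by positivity
  have hδ' : 0 < δ / (1 + S2) := by positivity
  choose N Q hQm hQs hQp hQ using fun i => rel_cube n (R i) hδ'
  -- abbreviations
  set w : Fin f.N → (X → ℝ) → V (n + 1) → ℝ := fun i u => ex (f.e i) (fun p => f.η i p * u p) with hw
  have hwcc : ∀ i, ∀ u ∈ C1 n X, CC n (w i u) := fun i u hu => (hC i u hu).1
  have hE0 : ∀ u : X → ℝ, 0 ≤ DD (vol g) (f.D u) := fun u => integral_nonneg fun x => by positivity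
  have hI0 : ∀ u : X → ℝ, 0 ≤ ∫ x, u x ^ 2 ∂(vol g) := fun u => integral_nonneg fun x => by positivity
  have int1 : ∀ i, ∀ u ∈ C1 n X, ∀ a, IntegrableOn (w i u) (Q i a) := fun i u hu a =>
    integrableOn_sub (hwcc i u hu).contv (R := R i) (fun x _ hx => (hC i u hu).2.1 x hx) (hQs i a)
      (hQm i a)
  have int2 : ∀ i, ∀ u ∈ C1 n X, ∀ W ⊆ Hs n, MeasurableSet W →
      IntegrableOn (fun x => w i u x ^ 2) W := fun i u hu W hW hm =>
    integrableOn_sub (F := fun x => w i u x ^ 2) ((hwcc i u hu).contv.pow 2) (R := R i)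
      (fun x _ hx => by
        have : w i u x = 0 := (hC i u hu).2.1 x hx
        rw [this]; simp) hW hm
  -- the functionals
  let L : (Σ i : Fin f.N, Fin (N i)) → (X → ℝ) → ℝ := fun ia u =>
    Real.sqrt (C ia.1 / (volume (Q ia.1 ia.2)).toReal) * ∫ x in Q ia.1 ia.2, w ia.1 u x
  have hLsq : ∀ ia u, L ia u ^ 2 = C ia.1 * ((∫ x in Q ia.1 ia.2, w ia.1 u x) ^ 2 /
      (volume (Q ia.1 ia.2)).toReal) := by
    intro ia u
    have h0 : 0 ≤ C ia.1 / (volume (Q ia.1 ia.2)).toReal := div_nonneg (hC0 _) (hQp _ _).le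
    simp only [L]
    rw [mul_pow, Real.sq_sqrt h0]
    ring
  let e := Fintype.equivFin (Σ i : Fin f.N, Fin (N i))
  refine ⟨_, fun j => L (e.symm j), S2, ?_, ?_, ?_⟩
  · intro j u hu v hv
    simp only [L]
    rw [← mul_sub, ← integral_sub (int1 _ u hu _) (int1 _ v hv _)]
    congr 1
    refine integral_congr_ae (Filter.Eventually.of_forall fun y => ?_)
    exact ex_sub _ _ u v y
  · intro j u hu
    rw [hLsq]
    set ia := e.symm j
    have h1 : (∫ x in Q ia.1 ia.2, w ia.1 u x) ^ 2 / (volume (Q ia.1 ia.2)).toReal ≤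
        ∫ x in Ho n, w ia.1 u x ^ 2 := by
      refine (cs_Q (hQp _ _) (int1 _ u hu _) (int2 _ u hu _ (hQs _ _) (hQm _ _))).trans ?_
      rw [← setIntegral_congr_set (Hs_ae_eq_Ho (n := n))]
      exact setIntegral_mono_set (int2 _ u hu _ Subset.rfl measurableSet_Hs)
        (Filter.Eventually.of_forall fun x => by positivity) (hQs _ _).eventuallyLE
    have h2 : ∫ x in Ho n, w ia.1 u x ^ 2 ≤ C ia.1 * ∫ p, u p ^ 2 ∂(vol g) := (hC ia.1 u hu).2.2.2.1
    have h3 : C ia.1 ^ 2 ≤ S2 :=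
      Finset.single_le_sum (f := fun i => C i ^ 2) (fun i _ => by positivity) (Finset.mem_univ ia.1)
    calc C ia.1 * ((∫ x in Q ia.1 ia.2, w ia.1 u x) ^ 2 / (volume (Q ia.1 ia.2)).toReal)
        ≤ C ia.1 * (C ia.1 * ∫ p, u p ^ 2 ∂(vol g)) :=
          mul_le_mul_of_nonneg_left (h1.trans h2) (hC0 _)
      _ = C ia.1 ^ 2 * ∫ p, u p ^ 2 ∂(vol g) := by ring
      _ ≤ S2 * ∫ p, u p ^ 2 ∂(vol g) := mul_le_mul_of_nonneg_right h3 (hI0 u)
      _ ≤ S2 * (DD (vol g) (f.D u) + ∫ x, u x ^ 2 ∂(vol g)) :=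
          mul_le_mul_of_nonneg_left (by linarith [hE0 u]) hS0
  · intro u hu
    have hsum : ∑ j, L (e.symm j) u ^ 2 = ∑ i, ∑ a, L ⟨i, a⟩ u ^ 2 := by
      rw [Equiv.sum_comp e.symm (fun ia => L ia u ^ 2), Fintype.sum_sigma]
    rw [hsum]
    have hcu := C1_cont hu
    have hsplit : ∫ x, u x ^ 2 ∂(vol g) = ∑ i, ∫ x, (f.η i x * u x) ^ 2 ∂(vol g) := by
      rw [← integral_finsetSum]
      · refine integral_congr_ae (Filter.Eventually.of_forall fun x => ?_)
        simp only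
        simp_rw [mul_pow]
        rw [← Finset.sum_mul, f.η_sum x, one_mul]
      · intro i _
        exact int_cont (vol_lt_top g) (((f.η_smooth i).continuous.mul hcu).pow 2)
    have hE : 0 ≤ DD (vol g) (f.D u) + ∫ x, u x ^ 2 ∂(vol g) := add_nonneg (hE0 u) (hI0 u)
    have hi : ∀ i, ∫ x, (f.η i x * u x) ^ 2 ∂(vol g) ≤
        C i ^ 2 * (δ / (1 + S2)) * (DD (vol g) (f.D u) + ∫ x, u x ^ 2 ∂(vol g)) +
          ∑ a, L ⟨i, a⟩ u ^ 2 := by
      intro i
      obtain ⟨c1, c2, c3, c4, c5, -⟩ := hC i u hu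
      have h1 := hQ i (w i u) c1 c2
      have h2 : δ / (1 + S2) * (∫ x in Ho n, ‖fderivWithin ℝ (w i u) (Hs n) x‖ ^ 2) ≤
          δ / (1 + S2) * (C i * (DD (vol g) (f.D u) + ∫ x, u x ^ 2 ∂(vol g))) :=
        mul_le_mul_of_nonneg_left c5 hδ'.le
      calc ∫ x, (f.η i x * u x) ^ 2 ∂(vol g) ≤ C i * ∫ y in Ho n, w i u y ^ 2 := c3
        _ ≤ C i * (δ / (1 + S2) * (C i * (DD (vol g) (f.D u) + ∫ x, u x ^ 2 ∂(vol g))) +
            ∑ a, (∫ x in Q i a, w i u x) ^ 2 / (volume (Q i a)).toReal) :=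
            mul_le_mul_of_nonneg_left (h1.trans (add_le_add h2 le_rfl)) (hC0 i)
        _ = C i ^ 2 * (δ / (1 + S2)) * (DD (vol g) (f.D u) + ∫ x, u x ^ 2 ∂(vol g)) +
            ∑ a, L ⟨i, a⟩ u ^ 2 := by
            simp_rw [hLsq]
            rw [← Finset.mul_sum]
            ring
    calc ∫ x, u x ^ 2 ∂(vol g) = ∑ i, ∫ x, (f.η i x * u x) ^ 2 ∂(vol g) := hsplit
      _ ≤ ∑ i, (C i ^ 2 * (δ / (1 + S2)) * (DD (vol g) (f.D u) + ∫ x, u x ^ 2 ∂(vol g)) +
          ∑ a, L ⟨i, a⟩ u ^ 2) := Finset.sum_le_sum fun i _ => hi i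
      _ = S2 * (δ / (1 + S2)) * (DD (vol g) (f.D u) + ∫ x, u x ^ 2 ∂(vol g)) +
          ∑ i, ∑ a, L ⟨i, a⟩ u ^ 2 := by
          rw [Finset.sum_add_distrib, ← Finset.sum_mul, ← Finset.sum_mul]
      _ ≤ δ * (DD (vol g) (f.D u) + ∫ x, u x ^ 2 ∂(vol g)) + ∑ i, ∑ a, L ⟨i, a⟩ u ^ 2 := by
          have h4 : S2 * (δ / (1 + S2)) ≤ δ := by
            rw [mul_div_assoc', div_le_iff₀ (by positivity)]
            nlinarith
          exact add_le_add (mul_le_mul_of_nonneg_right h4 hE) le_rfl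

theorem rel_X (g : Metric n X) (f : Frame g) :
    ∀ u : ℕ → X → ℝ, (∀ k, u k ∈ C1 n X) →
      (∃ C : ℝ, ∀ k, DD (vol g) (f.D (u k)) + ∫ x, u k x ^ 2 ∂(vol g) ≤ C) →
      ∃ φ : ℕ → ℕ, StrictMono φ ∧ ∀ ε > 0, ∃ N, ∀ j ≥ N, ∀ k ≥ N,
        ∫ x, (u (φ j) x - u (φ k) x) ^ 2 ∂(vol g) ≤ ε := by
  rintro u hu ⟨C, hC⟩
  refine rel_abs (fun u v x => u x - v x) (C1 n X)
    (fun u => DD (vol g) (f.D u) + ∫ x, u x ^ 2 ∂(vol g)) (fun u => ∫ x, u x ^ 2 ∂(vol g))
    (fun u hu v hv => C1_sub hu hv) ?_ (rel_H g f) ?_ u hu hC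
  · intro u hu v hv
    have hcu := C1_cont hu
    have hcv := C1_cont hv
    have hdu := continuous_D g f hu
    have hdv := continuous_D g f hv
    have hv' := vol_lt_top g
    have i1 : Integrable (fun x => ‖f.D u x‖ ^ 2) (vol g) := int_cont hv' (hdu.norm.pow 2)
    have i2 : Integrable (fun x => ‖f.D v x‖ ^ 2) (vol g) := int_cont hv' (hdv.norm.pow 2)
    have i3 : Integrable (fun x => u x ^ 2) (vol g) := int_cont hv' (hcu.pow 2)
    have i4 : Integrable (fun x => v x ^ 2) (vol g) := int_cont hv' (hcv.pow 2)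
    have a1 : DD (vol g) (f.D (fun x => u x - v x)) ≤ 2 * DD (vol g) (f.D u) + 2 * DD (vol g) (f.D v) := by
      rw [D_sub g f hu hv]
      unfold DD
      rw [← integral_const_mul, ← integral_const_mul, ← integral_add (i1.const_mul 2) (i2.const_mul 2)]
      refine integral_mono (int_cont hv' ((hdu.sub hdv).norm.pow 2))
        ((i1.const_mul 2).add (i2.const_mul 2)) fun x => ?_
      have := parallelogram_law_with_norm ℝ (f.D u x) (f.D v x)
      have h1 := mul_self_nonneg ‖f.D u x + f.D v x‖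
      change ‖f.D u x - f.D v x‖ ^ 2 ≤ 2 * ‖f.D u x‖ ^ 2 + 2 * ‖f.D v x‖ ^ 2
      nlinarith
    have a2 : ∫ x, (u x - v x) ^ 2 ∂(vol g) ≤
        2 * (∫ x, u x ^ 2 ∂(vol g)) + 2 * ∫ x, v x ^ 2 ∂(vol g) := by
      rw [← integral_const_mul, ← integral_const_mul, ← integral_add (i3.const_mul 2) (i4.const_mul 2)]
      refine integral_mono (int_cont hv' ((hcu.sub hcv).pow 2))
        ((i3.const_mul 2).add (i4.const_mul 2)) fun x => ?_
      change (u x - v x) ^ 2 ≤ 2 * u x ^ 2 + 2 * v x ^ 2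
      nlinarith [sq_nonneg (u x + v x)]
    linarith
  · intro u _
    exact add_nonneg (integral_nonneg fun x => by positivity) (integral_nonneg fun x => by positivity)

end

end Pool.Agent.CY.S3b
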