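import Pool.Agent.CY.S3b.Basic

/-!
Module CY-S3b-Tr: trace inequality on the half space.

PROOF.  For `z : V n` put `f t = v (cons t z)`; `f` is `C^1` on `[0, ∞)` (right derivative at `0`) with
`f' t = fderivWithin ℝ v (Hs n) (cons t z) (single 0 1)`, and vanishes for `t > R`.  So
`f 0 ^ 2 = - ∫_0^R (f^2)' = -2 ∫_0^R f f' ≤ ε ∫ f'^2 + (1/ε) ∫ f^2` over `(0, ∞)`, and `|f'| ≤ ‖fderivWithin‖`
(the vector `single 0 1` has norm 1).  Integrate in `z` and use `integral_Ho` (both sides; integrability in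
`z` of the inner integrals comes from Fubini: `IntegrableOn` on `Ho n` transported by `mp_cons`).
-/

set_option autoImplicit false
set_option linter.unusedSectionVars false

open scoped Manifold ContDiff
open MeasureTheory Set Filter Topology

namespace Pool.Agent.CY.S3b

noncomputable section

variable {n : ℕ}

private theorem cons_eq (t : ℝ) (z : V n) :
    cons t z = cons 0 z + t • (EuclideanSpace.single 0 1 : V (n + 1)) := by
  ext i
  refine Fin.cases ?_ (fun j => ?_) i
  · simp [cons]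
  · simp [cons]

private theorem cons_zero (t : ℝ) (z : V n) : (cons t z : V (n + 1)) 0 = t := by
  simp [cons]

private theorem hasDerivAt_cons (z : V n) (t : ℝ) :
    HasDerivAt (fun s : ℝ => cons s z) (EuclideanSpace.single 0 1 : V (n + 1)) t := by
  have h : HasDerivAt (fun s : ℝ => cons 0 z + s • (EuclideanSpace.single 0 1 : V (n + 1)))
      ((1 : ℝ) • (EuclideanSpace.single 0 1 : V (n + 1))) t :=
    ((hasDerivAt_id t).smul_const _).const_add _
  rw [one_smul] at h
  have e : (fun s : ℝ => cons s z) = fun s : ℝ => cons 0 z + s • (EuclideanSpace.single 0 1 : V (n + 1)) :=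
    funext fun s => cons_eq s z
  rw [e]
  exact h

private theorem norm_le_cons (t : ℝ) (z : V n) : |t| ≤ ‖(cons t z : V (n + 1))‖ := by
  have := PiLp.norm_apply_le (cons t z : V (n + 1)) 0
  rwa [cons_zero, Real.norm_eq_abs] at this

private theorem mem_nhds_Ho {x : V (n + 1)} (hx : x ∈ Ho n) : Hs n ∈ 𝓝 x := by
  have hopen : IsOpen (Ho n) :=
    isOpen_lt continuous_const (EuclideanSpace.proj (𝕜 := ℝ) (0 : Fin (n + 1))).continuous
  exact Filter.mem_of_superset (hopen.mem_nhds hx) fun y (hy : 0 < y 0) => hy.le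

/-- integrability on the half line -/
private theorem int_half {F : ℝ → ℝ} {R : ℝ} (hc : ContinuousOn F (Ici 0)) (h0 : ∀ t, R < t → F t = 0) :
    IntegrableOn F (Ioi 0) := by
  have h1 : IntegrableOn F (Icc 0 R) :=
    (hc.mono fun t ht => ht.1).integrableOn_Icc
  have h2 : IntegrableOn F (Ioi R) := by
    have : IntegrableOn (fun _ : ℝ => (0 : ℝ)) (Ioi R) := integrableOn_zero
    exact this.congr_fun (fun t ht => (h0 t ht).symm) measurableSet_Ioi
  refine (h1.union h2).mono_set fun t ht => ?_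
  rcases le_or_gt t R with h | h
  · exact Or.inl ⟨(mem_Ioi.mp ht).le, h⟩
  · exact Or.inr h

private theorem one_dim {v : V (n + 1) → ℝ} (hv : CC n v) {ε : ℝ} (hε : 0 < ε) (z : V n) :
    v (bd z) ^ 2 ≤ ε * (∫ t in Ioi (0 : ℝ), ‖fderivWithin ℝ v (Hs n) (cons t z)‖ ^ 2) +
      (1 / ε) * ∫ t in Ioi (0 : ℝ), v (cons t z) ^ 2 := by
  obtain ⟨C, R, hC, hR, hb, hz⟩ := hv.bound
  have hmem : ∀ t ∈ Ici (0 : ℝ), cons t z ∈ Hs n := fun t ht => by
    change 0 ≤ (cons t z : V (n + 1)) 0
    rw [cons_zero]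
    exact ht
  have hcc : Continuous (fun t : ℝ => (cons t z : V (n + 1))) :=
    continuous_iff_continuousAt.mpr fun t => (hasDerivAt_cons z t).continuousAt
  have hfc : ContinuousOn (fun t : ℝ => v (cons t z)) (Ici 0) :=
    hv.contv.comp hcc.continuousOn hmem
  have hgc : ContinuousOn (fun t : ℝ => fderivWithin ℝ v (Hs n) (cons t z)) (Ici 0) :=
    hv.contg.comp hcc.continuousOn hmem
  have hgc' : ContinuousOn (fun t : ℝ => fderivWithin ℝ v (Hs n) (cons t z)
      (EuclideanSpace.single 0 1)) (Ici 0) := hgc.clm_apply continuousOn_const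
  have hz' : ∀ t, R < t → v (cons t z) = 0 ∧ fderivWithin ℝ v (Hs n) (cons t z) = 0 := fun t ht =>
    hz _ (lt_of_lt_of_le (lt_of_lt_of_le ht (le_abs_self t)) (norm_le_cons t z))
  have hder : ∀ t ∈ Ioi (0 : ℝ), HasDerivAt (fun t : ℝ => v (cons t z) ^ 2)
      (2 * v (cons t z) * fderivWithin ℝ v (Hs n) (cons t z) (EuclideanSpace.single 0 1)) t := by
    intro t ht
    have hHo : cons t z ∈ Ho n := by
      change 0 < (cons t z : V (n + 1)) 0
      rw [cons_zero]
      exact ht
    have h1 : HasFDerivAt v (fderivWithin ℝ v (Hs n) (cons t z)) (cons t z) :=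
      ((hv.smooth.differentiableOn (by norm_num) _ (hmem t (mem_Ioi.mp ht).le)).hasFDerivWithinAt).hasFDerivAt
        (mem_nhds_Ho hHo)
    have h2 := h1.comp_hasDerivAt t (hasDerivAt_cons z t)
    have h3 : HasDerivAt (fun t : ℝ => v (cons t z) ^ 2) _ t := h2.pow 2
    refine h3.congr_deriv ?_
    simp
  have i1 : IntegrableOn (fun t : ℝ => v (cons t z) ^ 2) (Ioi 0) :=
    int_half (hfc.pow 2) (R := R) fun t ht => by
      change v (cons t z) ^ 2 = 0
      rw [(hz' t ht).1]; simp
  have i2 : IntegrableOn (fun t : ℝ => ‖fderivWithin ℝ v (Hs n) (cons t z)‖ ^ 2) (Ioi 0) :=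
    int_half (hgc.norm.pow 2) (R := R) fun t ht => by
      change ‖fderivWithin ℝ v (Hs n) (cons t z)‖ ^ 2 = 0
      rw [(hz' t ht).2]; simp
  have i3 : IntegrableOn (fun t : ℝ => 2 * v (cons t z) *
      fderivWithin ℝ v (Hs n) (cons t z) (EuclideanSpace.single 0 1)) (Ioi 0) :=
    int_half ((continuousOn_const.mul hfc).mul hgc') (R := R) fun t ht => by
      change 2 * v (cons t z) * fderivWithin ℝ v (Hs n) (cons t z) (EuclideanSpace.single 0 1) = 0
      rw [(hz' t ht).1]; simp
  have hlim : Tendsto (fun t : ℝ => v (cons t z) ^ 2) atTop (𝓝 0) := by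
    refine tendsto_const_nhds.congr' ?_
    filter_upwards [eventually_gt_atTop R] with t ht
    rw [(hz' t ht).1]; simp
  have key := integral_Ioi_of_hasDerivAt_of_tendsto
    (f := fun t : ℝ => v (cons t z) ^ 2) ((hfc.pow 2) 0 (by simp)) hder i3 hlim
  have e0 : v (bd z) ^ 2 = - ∫ t in Ioi (0 : ℝ), 2 * v (cons t z) *
      fderivWithin ℝ v (Hs n) (cons t z) (EuclideanSpace.single 0 1) := by
    rw [key]
    simp only [zero_sub, neg_neg]
    rfl
  rw [e0, ← integral_neg, ← integral_const_mul, ← integral_const_mul,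
    ← integral_add (i2.const_mul ε) (i1.const_mul (1 / ε))]
  refine setIntegral_mono_on i3.neg ((i2.const_mul ε).add (i1.const_mul (1 / ε))) measurableSet_Ioi ?_
  intro t _
  have hn : |fderivWithin ℝ v (Hs n) (cons t z) (EuclideanSpace.single 0 1)| ≤
      ‖fderivWithin ℝ v (Hs n) (cons t z)‖ := by
    have := (fderivWithin ℝ v (Hs n) (cons t z)).le_opNorm (EuclideanSpace.single 0 1)
    rwa [PiLp.norm_single, norm_one, mul_one, Real.norm_eq_abs] at this
  set a := v (cons t z)
  set b := fderivWithin ℝ v (Hs n) (cons t z) (EuclideanSpace.single 0 1)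
  set N := ‖fderivWithin ℝ v (Hs n) (cons t z)‖
  have hb2 : b ^ 2 ≤ N ^ 2 := by
    rw [← sq_abs]
    exact pow_le_pow_left₀ (abs_nonneg _) hn 2
  have h1 : 0 ≤ (1 / ε) * (ε * b + a) ^ 2 := by positivity
  have h2 : (1 / ε) * (ε * b + a) ^ 2 = ε * b ^ 2 + 2 * a * b + 1 / ε * a ^ 2 := by
    field_simp
    ring
  have h3 : ε * b ^ 2 ≤ ε * N ^ 2 := mul_le_mul_of_nonneg_left hb2 hε.le
  have : -(2 * a * b) ≤ ε * N ^ 2 + 1 / ε * a ^ 2 := by linarith
  exact this

private theorem int_inner {F : V (n + 1) → ℝ} (hF : IntegrableOn F (Ho n)) :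
    Integrable (fun z : V n => ∫ t in Ioi (0 : ℝ), F (cons t z)) := by
  have h1 : Integrable ((Ho n).indicator F) := (integrable_indicator_iff measurableSet_Ho).mpr hF
  have h2 := (mp_cons (n := n)).integrable_comp h1.1 |>.mpr h1
  have h3 := h2.integral_prod_right
  refine h3.congr (Filter.Eventually.of_forall fun z => ?_)
  simp only [Function.comp]
  rw [← integral_indicator measurableSet_Ioi]
  refine integral_congr_ae (Filter.Eventually.of_forall fun t => ?_)
  simp only
  by_cases ht : 0 < t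
  · rw [indicator_of_mem (show cons t z ∈ Ho n by change 0 < (cons t z : V (n + 1)) 0; rwa [cons_zero]),
      indicator_of_mem (mem_Ioi.mpr ht)]
  · rw [indicator_of_notMem (show cons t z ∉ Ho n by
      change ¬ 0 < (cons t z : V (n + 1)) 0; rwa [cons_zero]),
      indicator_of_notMem (by simpa using ht)]

theorem trace_le {v : V (n + 1) → ℝ} (hv : CC n v) {ε : ℝ} (hε : 0 < ε) :
    ∫ z : V n, v (bd z) ^ 2 ≤
      ε * (∫ x in Ho n, ‖fderivWithin ℝ v (Hs n) x‖ ^ 2) + (1 / ε) * ∫ x in Ho n, v x ^ 2 := by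
  have i1 := int_inner hv.int_grad
  have i2 := int_inner hv.int_sq
  rw [integral_Ho hv.int_grad, integral_Ho hv.int_sq, ← integral_const_mul, ← integral_const_mul,
    ← integral_add (i1.const_mul ε) (i2.const_mul (1 / ε))]
  exact integral_mono hv.int_bd_sq ((i1.const_mul ε).add (i2.const_mul (1 / ε)))
    fun z => one_dim hv hε z

end

end Pool.Agent.CY.S3b
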