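import Pool.Agent.CY.S3b.Cmp
import Pool.Agent.CY.S3b.Tr

/-!
Module CY-S3b-TrX: interpolation inequality for the trace on `X`.
-/

set_option autoImplicit false
set_option linter.unusedSectionVars false

open scoped Manifold ContDiff
open MeasureTheory Set Filter Topology

namespace Pool.Agent.CY.S3b

noncomputable section

variable {n : ℕ} {X : Type} [TopologicalSpace X] [ChartedSpace (EuclideanHalfSpace (n + 1)) X]
  [IsManifold (𝓡∂ (n + 1)) ∞ X] [CompactSpace X] [T2Space X] [MeasurableSpace X] [BorelSpace X]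

theorem tr_X (g : Metric n X) (f : Frame g) :
    ∀ ε > 0, ∃ C : ℝ, ∀ u ∈ C1 n X, ∫ x, u x ^ 2 ∂(bvol g) ≤
      ε * DD (vol g) (f.D u) + C * ∫ x, u x ^ 2 ∂(vol g) := by
  intro ε hε
  have hcmp := fun i => cmp g f (f.e_mem i) (f.η_smooth i) (f.η_supp i)
  choose C R hC0 hC using hcmp
  -- total constant
  set S : ℝ := ∑ i, C i ^ 2 with hS
  have hS0 : 0 ≤ S := Finset.sum_nonneg fun _ _ => sq_nonneg _
  set d : ℝ := ε / (S + 1) with hd
  have hd0 : 0 < d := by positivity
  refine ⟨S * (d + 1 / d), fun u hu => ?_⟩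
  have hcu := C1_cont hu
  have hD : 0 ≤ DD (vol g) (f.D u) := integral_nonneg fun _ => by positivity
  have hI : 0 ≤ ∫ x, u x ^ 2 ∂(vol g) := integral_nonneg fun _ => sq_nonneg _
  have hηC : ∀ i, f.η i ∈ C1 n X := fun i => C1_of_smooth (f.η_smooth i)
  have hsum : ∫ x, u x ^ 2 ∂(bvol g) = ∑ i, ∫ x, (f.η i x * u x) ^ 2 ∂(bvol g) := by
    rw [← integral_finsetSum]
    · refine integral_congr_ae (Eventually.of_forall fun x => ?_)
      simp only [mul_pow]
      rw [← Finset.sum_mul, f.η_sum x, one_mul]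
    · intro i _
      exact integrable_cont (bvol_lt_top g) (((C1_cont (hηC i)).mul hcu).pow 2)
  have hi : ∀ i, ∫ x, (f.η i x * u x) ^ 2 ∂(bvol g) ≤
      C i ^ 2 * (d * (DD (vol g) (f.D u) + ∫ x, u x ^ 2 ∂(vol g)) + 1 / d * ∫ x, u x ^ 2 ∂(vol g)) := by
    intro i
    obtain ⟨hw, _, _, h2, h3, h4⟩ := hC i u hu
    have h5 := trace_le hw hd0
    calc ∫ x, (f.η i x * u x) ^ 2 ∂(bvol g) ≤ C i * _ := h4
      _ ≤ C i * (d * (C i * (DD (vol g) (f.D u) + ∫ x, u x ^ 2 ∂(vol g))) +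
            1 / d * (C i * ∫ x, u x ^ 2 ∂(vol g))) := by
          refine mul_le_mul_of_nonneg_left (h5.trans ?_) (hC0 i)
          refine add_le_add (mul_le_mul_of_nonneg_left h3 hd0.le)
            (mul_le_mul_of_nonneg_left h2 (by positivity))
      _ = _ := by ring
  rw [hsum]
  refine (Finset.sum_le_sum fun i _ => hi i).trans ?_
  rw [← Finset.sum_mul, ← hS]
  have h6 : S * d ≤ ε := by
    rw [hd, mul_div_assoc', div_le_iff₀ (by positivity)]
    nlinarith
  have h7 : S * d * DD (vol g) (f.D u) ≤ ε * DD (vol g) (f.D u) := mul_le_mul_of_nonneg_right h6 hD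
  nlinarith

end

end Pool.Agent.CY.S3b
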