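import Pool.Agent.CY.S3b.Ex

/-!
Module CY-S3b-VolPos: nonempty open sets have positive volume.

PROOF.  `p ∈ U`, `e = ch p`, `A = U ∩ e.source` (open, measurable): `vol g U ≥ vol g A =
∫⁻ y in co e '' A, ofReal (sqrt det (g.G e y))` (`vol_spec`).  `co e '' A = {y ∈ dom e | pt e y ∈ A}` is
relatively open in `Hs n` and nonempty, so (`Hs_subset_closure`, S5/Doms, or directly: move a little in the
direction `single 0 1`) it contains a nonempty open subset `O` of `V (n+1)` contained in `Ho n`;
`volume O > 0` (`IsOpen.measure_pos`) and the integrand is positive on it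
(`setLIntegral_pos_iff` / `lintegral_pos_iff_support`; measurability of the integrand on `O`: continuous on
`dom e` by `MetOn.contDiffOn_det`; or compare with a constant on a compact ball inside `O`, where the
continuous positive function has a positive minimum).
-/

set_option autoImplicit false
set_option linter.unusedSectionVars false

open scoped Manifold ContDiff
open MeasureTheory Set Filter Topology

namespace Pool.Agent.CY.S3b

noncomputable section

variable {n : ℕ} {X : Type} [TopologicalSpace X] [ChartedSpace (EuclideanHalfSpace (n + 1)) X]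
  [IsManifold (𝓡∂ (n + 1)) ∞ X] [CompactSpace X] [T2Space X] [MeasurableSpace X] [BorelSpace X]

theorem vol_pos (g : Metric n X) {U : Set X} (hU : IsOpen U) (hne : U.Nonempty) : 0 < vol g U := by
  obtain ⟨p, hp⟩ := hne
  set e : OpenPartialHomeomorph X (EuclideanHalfSpace (n + 1)) := chartAt _ p with he'
  have he : e ∈ atlas (EuclideanHalfSpace (n + 1)) X := chart_mem_atlas _ p
  have hps : p ∈ e.source := mem_chart_source _ p
  set A : Set X := U ∩ e.source with hA
  have hAm : MeasurableSet A := (hU.inter e.open_source).measurableSet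
  have hy0 : co e p ∈ dom e := co_mem_dom e hps
  have hnb : pt e ⁻¹' U ∈ 𝓝[dom e] (co e p) := by
    apply continuousOn_pt e _ hy0
    rw [pt_co e hps]
    exact hU.mem_nhds hp
  have hnb2 : dom e ∩ pt e ⁻¹' U ∈ 𝓝[Hs n] (co e p) := by
    rw [(dom_chart e).nhds_eq hy0]
    exact inter_mem self_mem_nhdsWithin hnb
  obtain ⟨O, hO, hyO, hOsub⟩ := mem_nhdsWithin.1 hnb2
  set G : Set (V (n + 1)) := O ∩ interior (Hs n) with hG
  have hGo : IsOpen G := hO.inter isOpen_interior
  have hGn : G.Nonempty := by
    have := (dom_chart e).clos _ hy0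
    exact mem_closure_iff.1 this O hO hyO
  have hGdom : G ⊆ dom e := fun y hy => (hOsub ⟨hy.1, interior_subset hy.2⟩).1
  have hGsub : G ⊆ co e '' A := by
    intro y hy
    have h1 := hOsub ⟨hy.1, interior_subset hy.2⟩
    exact ⟨pt e y, ⟨h1.2, pt_mem_source e h1.1⟩, co_pt e h1.1⟩
  have h1 : vol g A = ∫⁻ y in co e '' A, ENNReal.ofReal (Real.sqrt (g.G e y).det) :=
    vol_spec g e he A inter_subset_right hAm
  have h2 : ∫⁻ y in G, ENNReal.ofReal (Real.sqrt (g.G e y).det) ≤ vol g A := by
    rw [h1]
    exact lintegral_mono_set hGsub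
  have h3 : 0 < ∫⁻ y in G, ENNReal.ofReal (Real.sqrt (g.G e y).det) := by
    rw [pos_iff_ne_zero]
    intro h0
    have hcont : ContinuousOn (fun y => ENNReal.ofReal (Real.sqrt (g.G e y).det)) G := by
      refine ENNReal.continuous_ofReal.comp_continuousOn (Real.continuous_sqrt.comp_continuousOn ?_)
      exact ((metOn g he).contDiffOn_det.continuousOn).mono hGdom
    have hae := (lintegral_eq_zero_iff' (hcont.aemeasurable hGo.measurableSet)).1 h0
    rw [Filter.EventuallyEq, ae_restrict_iff' hGo.measurableSet] at hae
    have hz : volume G = 0 := by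
      refine measure_mono_null (fun y hy => ?_) (ae_iff.1 hae)
      show ¬ (y ∈ G → _)
      intro h
      have h5 := h hy
      have h6 : 0 < ENNReal.ofReal (Real.sqrt (g.G e y).det) :=
        ENNReal.ofReal_pos.2 (Real.sqrt_pos.2 ((metOn g he).det_pos (hGdom hy)))
      exact h6.ne' h5
    exact (hGo.measure_pos volume hGn).ne' hz
  exact (h3.trans_le h2).trans_le (measure_mono inter_subset_left)

end

end Pool.Agent.CY.S3b
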