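import Pool.Agent.CY.S3b.SobX
import Pool.Agent.CY.S3b.TrX
import Pool.Agent.CY.S3b.RelX
import Pool.Agent.CY.S3b.VolPos
import Pool.Agent.CY.S3b.PoinLoc
import Pool.Agent.CY.S3b.Chain

/-!
Module CY-S3b-Main: the Poincare inequality on `X`; the four analytic fields of `IsSob` together.
-/

set_option autoImplicit false
set_option linter.unusedSectionVars false

open scoped Manifold ContDiff
open MeasureTheory Set Filter Topology

namespace Pool.Agent.CY.S3b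

noncomputable section

variable {n : ℕ} {X : Type} [TopologicalSpace X] [ChartedSpace (EuclideanHalfSpace (n + 1)) X]
  [IsManifold (𝓡∂ (n + 1)) ∞ X] [CompactSpace X] [T2Space X] [MeasurableSpace X] [BorelSpace X]

theorem poin_X [ConnectedSpace X] (g : Metric n X) (f : Frame g) :
    ∃ C : ℝ, ∀ u ∈ C1 n X, ∫ x, u x ^ 2 ∂(vol g) ≤
      C * (DD (vol g) (f.D u) + (∫ x, u x ∂(vol g)) ^ 2) := by
  refine poin_chain (vol g) (vol_lt_top g) (fun U hU hne => vol_pos g hU hne) (C1 n X)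
    (fun u hu => C1_cont hu) (fun u => DD (vol g) (f.D u)) ?_ (poin_loc g f)
  intro u _
  exact integral_nonneg fun x => by positivity

/-- The analytic fields of `IsSob`. -/
theorem fields [ConnectedSpace X] (hn : 2 ≤ n) (g : Metric n X) (f : Frame g) :
    (∃ C : ℝ, ∀ u ∈ C1 n X, PP n (vol g) u + QQ n (bvol g) u ≤
      C * (DD (vol g) (f.D u) + ∫ x, u x ^ 2 ∂(vol g))) ∧
    (∀ ε > 0, ∃ C : ℝ, ∀ u ∈ C1 n X, ∫ x, u x ^ 2 ∂(bvol g) ≤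
      ε * DD (vol g) (f.D u) + C * ∫ x, u x ^ 2 ∂(vol g)) ∧
    (∀ u : ℕ → X → ℝ, (∀ k, u k ∈ C1 n X) →
      (∃ C : ℝ, ∀ k, DD (vol g) (f.D (u k)) + ∫ x, u k x ^ 2 ∂(vol g) ≤ C) →
      ∃ φ : ℕ → ℕ, StrictMono φ ∧ ∀ ε > 0, ∃ N, ∀ j ≥ N, ∀ k ≥ N,
        ∫ x, (u (φ j) x - u (φ k) x) ^ 2 ∂(vol g) ≤ ε) ∧
    (∃ C : ℝ, ∀ u ∈ C1 n X, ∫ x, u x ^ 2 ∂(vol g) ≤
      C * (DD (vol g) (f.D u) + (∫ x, u x ∂(vol g)) ^ 2)) :=
  ⟨sob_X hn g f, tr_X g f, rel_X g f, poin_X g f⟩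

end

end Pool.Agent.CY.S3b
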