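import Pool.Agent.CY.S3b.Ex
import Pool.Agent.CY.S3b.NearMat

/-!
Module CY-S3b-Near: near a point of `X` the metric is almost constant in the chart.
-/

set_option autoImplicit false
set_option linter.unusedSectionVars false

open scoped Manifold ContDiff
open MeasureTheory Set Filter Topology

namespace Pool.Agent.CY.S3b

noncomputable section

variable {n : ℕ} {X : Type} [TopologicalSpace X] [ChartedSpace (EuclideanHalfSpace (n + 1)) X]

theorem near (g : Metric n X) (p : X) {ε : ℝ} (hε : 0 < ε) :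
    ∃ U : Set X, IsOpen U ∧ p ∈ U ∧ U ⊆ (ch p : OpenPartialHomeomorph X (EuclideanHalfSpace (n + 1))).source ∧
      ∃ G : Matrix (Fin (n + 1)) (Fin (n + 1)) ℝ, G.PosDef ∧ ∀ q ∈ U,
        Real.sqrt (g.G (ch p) (co (ch p) q)).det ≤ (1 + ε) * Real.sqrt G.det ∧
        Real.sqrt ((g.G (ch p) (co (ch p) q)).submatrix Fin.succ Fin.succ).det ≤
          (1 + ε) * Real.sqrt (G.submatrix Fin.succ Fin.succ).det ∧
        ∀ ξ : Fin (n + 1) → ℝ, qf G⁻¹ ξ * Real.sqrt G.det ≤
          (1 + ε) * (qf (g.G (ch p) (co (ch p) q))⁻¹ ξ * Real.sqrt (g.G (ch p) (co (ch p) q)).det) := by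
  set e : OpenPartialHomeomorph X (EuclideanHalfSpace (n + 1)) := ch p with hedef
  have he : e ∈ atlas (EuclideanHalfSpace (n + 1)) X := chart_mem_atlas _ p
  have hpe : p ∈ e.source := mem_chart_source _ p
  have hG := g.posDef e he (co e p) (co_mem_dom e hpe)
  obtain ⟨δ, hδ, h⟩ := near_mat hG hε
  have hcont : ∀ i j, ContinuousOn (fun q => |g.G e (co e q) i j - g.G e (co e p) i j|) e.source := by
    intro i j
    have h1 : ContinuousOn (fun y => g.G e y i j) (dom e) := (g.smooth e he i j).continuousOn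
    have h2 := h1.comp (continuousOn_co e) (fun q hq => co_mem_dom e hq)
    exact (h2.sub continuousOn_const).abs
  have hopen : ∀ i j, IsOpen (e.source ∩ {q | |g.G e (co e q) i j - g.G e (co e p) i j| < δ}) := by
    intro i j
    exact (hcont i j).isOpen_inter_preimage e.open_source isOpen_Iio
  refine ⟨⋂ i, ⋂ j, (e.source ∩ {q | |g.G e (co e q) i j - g.G e (co e p) i j| < δ}), ?_, ?_, ?_,
    g.G e (co e p), hG, ?_⟩
  · exact isOpen_iInter_of_finite fun i => isOpen_iInter_of_finite fun j => hopen i j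
  · simp only [mem_iInter]
    intro i j
    refine ⟨hpe, ?_⟩
    simp [hδ]
  · intro q hq
    simp only [mem_iInter] at hq
    exact (hq 0 0).1
  · intro q hq
    simp only [mem_iInter] at hq
    have hqe := (hq 0 0).1
    exact h _ (g.posDef e he _ (co_mem_dom e hqe)) fun i j => (hq i j).2

end

end Pool.Agent.CY.S3b
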