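import Pool.Agent.CY.S3b.AI

/-!
Module CY-S3b-SobX: Sobolev and trace inequality on `X`.
-/

set_option autoImplicit false
set_option linter.unusedSectionVars false

open scoped Manifold ContDiff
open MeasureTheory Set Filter Topology

namespace Pool.Agent.CY.S3b

noncomputable section

theorem om_pos' (k : ℕ) : 0 < om k := by
  rw [om]
  have h1 : (0 : ℝ) < ((k : ℝ) + 1) / 2 := by positivity
  exact div_pos (by positivity) (Real.Gamma_pos_of_pos h1)

theorem amod_pos' {n : ℕ} (hn : 2 ≤ n) : 0 < amod n (Real.pi / 2) := by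
  have h : (2 : ℝ) ≤ n := by exact_mod_cast hn
  have h1 : 0 < ∫ s in (0 : ℝ)..(Real.pi / 2), Real.sin s ^ n := by
    refine intervalIntegral.intervalIntegral_pos_of_pos_on ?_ ?_ (by positivity)
    · exact (Continuous.pow Real.continuous_sin n).intervalIntegrable _ _
    · intro x hx
      exact pow_pos (Real.sin_pos_of_pos_of_lt_pi hx.1 (by linarith [hx.2, Real.pi_pos])) n
  rw [amod]
  have h2 := om_pos' n
  positivity

theorem bmod_pos' {n : ℕ} (hn : 2 ≤ n) : 0 < bmod n 0 := by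
  have h : (2 : ℝ) ≤ n := by exact_mod_cast hn
  have h2 := om_pos' n
  rw [bmod, Real.cos_zero]
  positivity

theorem amod_zero' {n : ℕ} (hn : 2 ≤ n) : amod n 0 = 0 := by
  have h : (2 : ℝ) ≤ n := by exact_mod_cast hn
  rw [amod, intervalIntegral.integral_same, mul_zero, Real.zero_rpow (by positivity), mul_zero]

theorem bmod_half' {n : ℕ} : bmod n (Real.pi / 2) = 0 := by
  rw [bmod, Real.cos_pi_div_two, mul_zero]

variable {n : ℕ} {X : Type} [TopologicalSpace X] [ChartedSpace (EuclideanHalfSpace (n + 1)) X]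
  [IsManifold (𝓡∂ (n + 1)) ∞ X] [CompactSpace X] [T2Space X] [MeasurableSpace X] [BorelSpace X]

theorem sob_X (hn : 2 ≤ n) (g : Metric n X) (f : Frame g) :
    ∃ C : ℝ, ∀ u ∈ C1 n X, PP n (vol g) u + QQ n (bvol g) u ≤
      C * (DD (vol g) (f.D u) + ∫ x, u x ^ 2 ∂(vol g)) := by
  obtain ⟨C1', h1⟩ := hasAI hn g f (Real.pi / 2) ⟨by positivity, le_rfl⟩ 1 one_pos
  obtain ⟨C2', h2⟩ := hasAI hn g f 0 ⟨le_rfl, by positivity⟩ 1 one_pos
  have ha := amod_pos' hn
  have hb := bmod_pos' hn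
  set a := amod n (Real.pi / 2) with hadef
  set b := bmod n 0 with hbdef
  have hn' : (2 : ℝ) ≤ n := by exact_mod_cast hn
  have hcn : 0 ≤ cn n := by
    rw [cn]
    apply div_nonneg <;> linarith
  refine ⟨max ((1 + 1) * cn n / a + (1 + 1) * cn n / b) (C1' / a + C2' / b), fun u hu => ?_⟩
  have e1 := h1 u hu
  have e2 := h2 u hu
  rw [bmod_half', zero_mul, add_zero] at e1
  rw [amod_zero' hn, zero_mul, zero_add] at e2
  have hD : 0 ≤ DD (vol g) (f.D u) := integral_nonneg fun _ => by positivity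
  have hI : 0 ≤ ∫ x, u x ^ 2 ∂(vol g) := integral_nonneg fun _ => sq_nonneg _
  have e3 : PP n (vol g) u ≤ (1 + 1) * cn n / a * DD (vol g) (f.D u) +
      C1' / a * ∫ x, u x ^ 2 ∂(vol g) := by
    have : (1 + 1) * cn n / a * DD (vol g) (f.D u) + C1' / a * ∫ x, u x ^ 2 ∂(vol g) =
        ((1 + 1) * (cn n * DD (vol g) (f.D u)) + C1' * ∫ x, u x ^ 2 ∂(vol g)) / a := by
      field_simp
    rw [this, le_div_iff₀ ha, mul_comm]
    exact e1
  have e4 : QQ n (bvol g) u ≤ (1 + 1) * cn n / b * DD (vol g) (f.D u) +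
      C2' / b * ∫ x, u x ^ 2 ∂(vol g) := by
    have : (1 + 1) * cn n / b * DD (vol g) (f.D u) + C2' / b * ∫ x, u x ^ 2 ∂(vol g) =
        ((1 + 1) * (cn n * DD (vol g) (f.D u)) + C2' * ∫ x, u x ^ 2 ∂(vol g)) / b := by
      field_simp
    rw [this, le_div_iff₀ hb, mul_comm]
    exact e2
  have e5 : ((1 + 1) * cn n / a + (1 + 1) * cn n / b) * DD (vol g) (f.D u) ≤
      max ((1 + 1) * cn n / a + (1 + 1) * cn n / b) (C1' / a + C2' / b) * DD (vol g) (f.D u) :=
    mul_le_mul_of_nonneg_right (le_max_left _ _) hD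
  have e6 : (C1' / a + C2' / b) * ∫ x, u x ^ 2 ∂(vol g) ≤
      max ((1 + 1) * cn n / a + (1 + 1) * cn n / b) (C1' / a + C2' / b) * ∫ x, u x ^ 2 ∂(vol g) :=
    mul_le_mul_of_nonneg_right (le_max_right _ _) hI
  linarith

end

end Pool.Agent.CY.S3b
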